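import Pool.Agent.Q163.CL.Smooth
import Pool.Agent.Q163.GC.Sqf

set_option autoImplicit false

/-!
# Squarefree numbers in short windows, on average
-/

namespace Pool.Agent.Q163.CL

open Finset Filter Topology Pool.Agent.Q163.GC Pool.Agent.Y293.SF

/-- multiples in a window, as a real number -/
noncomputable def cw (q x h : ℕ) : ℝ := ((Iw x h).filter fun n => q ∣ n).card

lemma cw_eq (q x h : ℕ) (hq : 0 < q) : cw q x h = (((x + h) / q : ℕ) : ℝ) - ((x / q : ℕ) : ℝ) := by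
  unfold cw
  have h1 : (Iw x h).filter (fun n => q ∣ n) = (Ioc (x / q) ((x + h) / q)).image fun k => q * k := by
    ext n
    rw [mem_filter, mem_Iw, mem_image]
    constructor
    · rintro ⟨⟨a1, a2⟩, k, rfl⟩
      refine ⟨k, ?_, rfl⟩
      rw [mem_Ioc, Nat.div_lt_iff_lt_mul hq, Nat.le_div_iff_mul_le hq, mul_comm k]
      exact ⟨a1, a2⟩
    · rintro ⟨k, hk, rfl⟩
      rw [mem_Ioc, Nat.div_lt_iff_lt_mul hq, Nat.le_div_iff_mul_le hq, mul_comm k] at hk
      exact ⟨hk, dvd_mul_right _ _⟩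
  rw [h1, card_image_of_injective _ (fun a b hab => Nat.eq_of_mul_eq_mul_left hq hab),
    Nat.card_Ioc, Nat.cast_sub (Nat.div_le_div_right (Nat.le_add_right _ _))]

lemma cast_div_bounds (a q : ℕ) (hq : 0 < q) :
    ((a / q : ℕ) : ℝ) ≤ (a : ℝ) / q ∧ (a : ℝ) / q < ((a / q : ℕ) : ℝ) + 1 := by
  refine ⟨Nat.cast_div_le, ?_⟩
  have hp : (0 : ℝ) < (q : ℝ) := by exact_mod_cast hq
  rw [div_lt_iff₀ hp]
  have := Nat.lt_div_mul_add (a := a) (b := q) hq
  have h6 : (a : ℝ) < ((a / q * q + q : ℕ) : ℝ) := by exact_mod_cast this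
  push_cast at h6
  linarith

lemma cw_near (q x h : ℕ) (hq : 0 < q) : |cw q x h - (h : ℝ) / q| ≤ 1 := by
  rw [cw_eq q x h hq]
  obtain ⟨a1, a2⟩ := cast_div_bounds (x + h) q hq
  obtain ⟨b1, b2⟩ := cast_div_bounds x q hq
  have e1 : ((x + h : ℕ) : ℝ) / q = (x : ℝ) / q + (h : ℝ) / q := by
    push_cast
    ring
  rw [e1] at a1 a2
  rw [abs_le]
  constructor <;> linarith

lemma cw_nonneg (q x h : ℕ) : 0 ≤ cw q x h := Nat.cast_nonneg _

/-- the number of squarefree integers in a window -/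
noncomputable def VW (x h : ℕ) : ℝ := ∑ n ∈ Iw x h, mu n ^ 2

lemma VW_eq (N x h : ℕ) (hx : x ∈ Ico N (2 * N)) (hh : h ≤ N) :
    VW x h = ∑ d ∈ Icc 1 (3 * N), mu d * cw (d ^ 2) x h := by
  classical
  have e1 : ∀ n ∈ Iw x h, mu n ^ 2 = ∑ d ∈ Icc 1 (3 * N), if d ^ 2 ∣ n then mu d else 0 := by
    intro n hn
    rw [mem_Iw] at hn
    rw [mem_Ico] at hx
    rw [mu_sq, indic_eq n (by omega)]
    refine sum_subset (Icc_subset_Icc_right (by omega)) fun d hd hd' => ?_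
    rw [if_neg]
    intro h
    apply hd'
    rw [mem_Icc] at hd ⊢
    exact ⟨hd.1, Nat.le_of_dvd (by omega) (dvd_trans (dvd_pow_self d two_ne_zero) h)⟩
  unfold VW
  rw [sum_congr rfl e1, sum_comm]
  refine sum_congr rfl fun d _ => ?_
  rw [← sum_filter, sum_const, nsmul_eq_mul, mul_comm]
  rfl

lemma VW_near (N x h D : ℕ) (hx : x ∈ Ico N (2 * N)) (hh : h ≤ N) (hD : 1 ≤ D) (hDN : D ≤ N) :
    |VW x h - 6 / Real.pi ^ 2 * h| ≤ D + h / D + ∑ d ∈ Ioc D (3 * N), cw (d ^ 2) x h := by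
  have hsplit : Icc 1 (3 * N) = Icc 1 D ∪ Ioc D (3 * N) := by
    ext d
    rw [mem_union, mem_Icc, mem_Icc, mem_Ioc]
    omega
  have hdisj : Disjoint (Icc 1 D) (Ioc D (3 * N)) := by
    rw [Finset.disjoint_left]
    intro d h1 h2
    rw [mem_Icc] at h1
    rw [mem_Ioc] at h2
    omega
  have e0 : ∑ d ∈ range (D + 1), mu d * (1 / (d : ℝ) ^ 2) = ∑ d ∈ Icc 1 D, mu d * (1 / (d : ℝ) ^ 2) := by
    rw [range_eq_Ico, sum_eq_sum_Ico_succ_bot (by omega)]
    simp only [mu_zero, zero_mul, zero_add]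
    refine sum_congr ?_ fun _ _ => rfl
    ext d
    rw [mem_Ico, mem_Icc]
    omega
  have e1 : VW x h - 6 / Real.pi ^ 2 * h =
      ∑ d ∈ Icc 1 D, mu d * (cw (d ^ 2) x h - h / ((d ^ 2 : ℕ) : ℝ)) -
      h * (6 / Real.pi ^ 2 - ∑ d ∈ range (D + 1), mu d * (1 / (d : ℝ) ^ 2)) +
      ∑ d ∈ Ioc D (3 * N), mu d * cw (d ^ 2) x h := by
    rw [VW_eq N x h hx hh, hsplit, sum_union hdisj, e0, mul_sub, mul_sum]
    have e2 : ∑ d ∈ Icc 1 D, mu d * (cw (d ^ 2) x h - h / ((d ^ 2 : ℕ) : ℝ)) =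
        ∑ d ∈ Icc 1 D, mu d * cw (d ^ 2) x h - ∑ d ∈ Icc 1 D, (h : ℝ) * (mu d * (1 / (d : ℝ) ^ 2)) := by
      rw [← sum_sub_distrib]
      refine sum_congr rfl fun d _ => ?_
      push_cast
      ring
    rw [e2]
    ring
  rw [e1]
  have b1 : |∑ d ∈ Icc 1 D, mu d * (cw (d ^ 2) x h - h / ((d ^ 2 : ℕ) : ℝ))| ≤ D := by
    refine (abs_sum_le_sum_abs _ _).trans ?_
    refine (sum_le_sum (g := fun _ => (1 : ℝ)) fun d hd => ?_).trans ?_
    · rw [abs_mul]
      have hd1 := (mem_Icc.1 hd).1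
      calc |mu d| * |cw (d ^ 2) x h - h / ((d ^ 2 : ℕ) : ℝ)| ≤ 1 * 1 :=
            mul_le_mul (abs_mu_le d) (cw_near _ _ _ (by positivity)) (abs_nonneg _) zero_le_one
        _ = 1 := one_mul 1
    · rw [sum_const, Nat.card_Icc, nsmul_eq_mul, mul_one]
      simp
  have b2 : |(h : ℝ) * (6 / Real.pi ^ 2 - ∑ d ∈ range (D + 1), mu d * (1 / (d : ℝ) ^ 2))| ≤ (h : ℝ) / D := by
    rw [abs_mul, abs_of_nonneg (Nat.cast_nonneg h)]
    calc (h : ℝ) * |6 / Real.pi ^ 2 - ∑ d ∈ range (D + 1), mu d * (1 / (d : ℝ) ^ 2)| ≤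
          h * (1 / (D : ℝ)) := mul_le_mul_of_nonneg_left (tail_le D hD) (Nat.cast_nonneg h)
      _ = h / D := by ring
  have b3 : |∑ d ∈ Ioc D (3 * N), mu d * cw (d ^ 2) x h| ≤ ∑ d ∈ Ioc D (3 * N), cw (d ^ 2) x h := by
    refine (abs_sum_le_sum_abs _ _).trans (sum_le_sum fun d _ => ?_)
    rw [abs_mul, abs_of_nonneg (cw_nonneg _ _ _)]
    calc |mu d| * cw (d ^ 2) x h ≤ 1 * cw (d ^ 2) x h :=
          mul_le_mul_of_nonneg_right (abs_mu_le d) (cw_nonneg _ _ _)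
      _ = _ := one_mul _
  refine (abs_add_le _ _).trans (add_le_add ((abs_sub _ _).trans (add_le_add b1 b2)) b3)

lemma sum_cw (N h q : ℕ) (hq : 0 < q) (hh : h ≤ N) :
    ∑ x ∈ Ico N (2 * N), cw q x h ≤ h * (3 * N / q) := by
  classical
  have e1 : ∀ x ∈ Ico N (2 * N), cw q x h =
      ∑ n ∈ (Icc 1 (3 * N)).filter (fun n => q ∣ n), if n ∈ Iw x h then (1 : ℝ) else 0 := by
    intro x hx
    unfold cw
    rw [← sum_filter, card_eq_sum_ones]
    push_cast
    refine sum_congr ?_ fun _ _ => rfl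
    ext n
    rw [mem_Ico] at hx
    rw [mem_filter, mem_filter, mem_filter, mem_Iw, mem_Icc]
    constructor
    · rintro ⟨⟨a1, a2⟩, a3⟩
      exact ⟨⟨⟨by omega, by omega⟩, a3⟩, a1, a2⟩
    · rintro ⟨⟨-, a3⟩, a1⟩
      exact ⟨a1, a3⟩
  rw [sum_congr rfl e1, sum_comm]
  refine (sum_le_sum (g := fun _ => (h : ℝ)) fun n _ => ?_).trans ?_
  · have : (((Ico N (2 * N)).filter fun x => n ∈ Iw x h).card : ℕ) ≤ h := by
      calc ((Ico N (2 * N)).filter fun x => n ∈ Iw x h).card ≤ (Ico (n - h) n).card := by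
            refine card_le_card fun x hx => ?_
            have h2 := mem_Iw.1 (mem_filter.1 hx).2
            rw [mem_Ico]
            omega
        _ ≤ h := by
            rw [Nat.card_Ico]
            omega
    rw [← sum_filter, sum_const, nsmul_eq_mul, mul_one]
    exact_mod_cast this
  · rw [sum_const, nsmul_eq_mul, mul_comm]
    refine mul_le_mul_of_nonneg_left ?_ (Nat.cast_nonneg h)
    rw [Pool.Agent.Y293.SF.card_mult _ _ hq]
    have := Nat.cast_div_le (α := ℝ) (m := 3 * N) (n := q)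
    push_cast at this
    exact this

/-- **Squarefree numbers in short windows, on average.** -/
theorem sum_VW (N h : ℕ) (hh1 : 1 ≤ h) (hh : h ≤ N) :
    ∑ x ∈ Ico N (2 * N), |VW x h - 6 / Real.pi ^ 2 * h| ≤ 9 * N * Real.sqrt h := by
  set D := Nat.sqrt h with hDdef
  have hD : 1 ≤ D := Nat.sqrt_pos.2 hh1
  have hDh : D * D ≤ h := Nat.sqrt_le h
  have hDh' : h < (D + 1) * (D + 1) := Nat.lt_succ_sqrt h
  have hDN : D ≤ N := le_trans (by nlinarith) hh
  have hDR : (1 : ℝ) ≤ D := by exact_mod_cast hD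
  have hD0 : (0 : ℝ) < D := by linarith
  have hs1 : (D : ℝ) ≤ Real.sqrt h := by
    rw [Real.le_sqrt (by positivity) (by positivity)]
    calc (D : ℝ) ^ 2 = ((D * D : ℕ) : ℝ) := by push_cast; ring
      _ ≤ h := by exact_mod_cast hDh
  have hs2 : (h : ℝ) / D ≤ 2 * Real.sqrt h := by
    have a1 : Real.sqrt h ≤ D + 1 := by
      rw [Real.sqrt_le_left (by positivity)]
      have : (h : ℝ) ≤ ((D + 1) * (D + 1) : ℕ) := by exact_mod_cast hDh'.le
      push_cast at this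
      nlinarith
    rw [div_le_iff₀ hD0]
    have a2 : Real.sqrt h * Real.sqrt h = h := Real.mul_self_sqrt (Nat.cast_nonneg h)
    have a3 : 0 ≤ Real.sqrt h := Real.sqrt_nonneg _
    nlinarith
  have hcard : ((Ico N (2 * N)).card : ℝ) = N := by
    rw [Nat.card_Ico]
    congr 1
    omega
  have h1 : ∑ x ∈ Ico N (2 * N), |VW x h - 6 / Real.pi ^ 2 * h| ≤
      N * (D + h / D) + ∑ d ∈ Ioc D (3 * N), ∑ x ∈ Ico N (2 * N), cw (d ^ 2) x h := by
    refine (sum_le_sum fun x hx => VW_near N x h D hx hh hD hDN).trans ?_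
    rw [sum_add_distrib, sum_const, nsmul_eq_mul, hcard, sum_comm]
  have h2 : ∑ d ∈ Ioc D (3 * N), ∑ x ∈ Ico N (2 * N), cw (d ^ 2) x h ≤ 6 * N * Real.sqrt h := by
    calc ∑ d ∈ Ioc D (3 * N), ∑ x ∈ Ico N (2 * N), cw (d ^ 2) x h
        ≤ ∑ d ∈ Ioc D (3 * N), (h : ℝ) * (3 * N / ((d ^ 2 : ℕ) : ℝ)) := by
          refine sum_le_sum fun d hd => sum_cw N h _ ?_ hh
          have := (mem_Ioc.1 hd).1
          have hd0 : 0 < d := by omega
          positivity
      _ = h * (3 * N) * ∑ d ∈ Ioc D (3 * N), ((d : ℝ) ^ 2)⁻¹ := by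
          rw [mul_sum]
          refine sum_congr rfl fun d _ => ?_
          push_cast
          ring
      _ ≤ h * (3 * N) * (1 / D) := by
          refine mul_le_mul_of_nonneg_left ?_ (by positivity)
          refine (sum_Ioc_inv_sq_le_sub (by omega) (by omega)).trans ?_
          rw [one_div]
          have : (0 : ℝ) ≤ ((3 * N : ℕ) : ℝ)⁻¹ := by positivity
          linarith
      _ = 3 * N * (h / D) := by ring
      _ ≤ 3 * N * (2 * Real.sqrt h) := mul_le_mul_of_nonneg_left hs2 (by positivity)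
      _ = 6 * N * Real.sqrt h := by ring
  have h3 : (N : ℝ) * (D + h / D) ≤ N * (3 * Real.sqrt h) :=
    mul_le_mul_of_nonneg_left (by linarith) (by positivity)
  linarith

end Pool.Agent.Q163.CL
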