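import Pool.Agent.Q163.CL.McL
import Pool.Agent.Q163.GC.Mom

set_option autoImplicit false

/-!
# Sums over two sets: the characteristic function
-/

namespace Pool.Agent.Q163.CL

open Finset MeasureTheory Pool.Agent.Q163.RP Pool.Agent.Q163.RX Pool.Agent.Q163.GC

/-- the largest prime factor -/
def lp (n : ℕ) : ℕ := n.primeFactors.sup id

lemma lp_mem {n : ℕ} (hn : 2 ≤ n) : lp n ∈ n.primeFactors := by
  have hne : n.primeFactors.Nonempty := Nat.nonempty_primeFactors.2 (by omega)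
  unfold lp
  obtain ⟨p, hp, he⟩ := Finset.exists_mem_eq_sup n.primeFactors hne id
  rw [he]
  exact hp

lemma le_lp {n p : ℕ} (hp : p ∈ n.primeFactors) : p ≤ lp n := Finset.le_sup (f := id) hp

lemma ch_prime {p : ℕ} (hp : p.Prime) (ω : ℕ → Bool) : ch ω p = es p ω := by
  unfold ch mult
  rw [hp.primeFactors, prod_singleton, hp.factorization_self, pow_one]
  unfold sg
  rw [if_pos (Set.mem_univ p)]

lemma ch_fl (p : ℕ) (ω : ℕ → Bool) (n : ℕ) : ch (fl p ω) n = (-1) ^ (n.factorization p) * ch ω n :=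
  mult_fl Set.univ (Set.mem_univ p) ω n

lemma ch_split {n : ℕ} (hn : 2 ≤ n) (ω : ℕ → Bool) : ch ω n = es (lp n) ω * ch ω (n / lp n) := by
  have h1 := Nat.mem_primeFactors.1 (lp_mem hn)
  have h2 : n / lp n ≠ 0 := (Nat.div_pos (Nat.le_of_dvd (by omega) h1.2.1) h1.1.pos).ne'
  conv_lhs => rw [← Nat.mul_div_cancel' h1.2.1]
  rw [ch_mul ω h1.1.ne_zero h2, ch_prime h1.1]

lemma ch_pred {n : ℕ} (hn : 2 ≤ n) (hs : Squarefree n) : Pred (lp n) fun ω => ch ω (n / lp n) := by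
  intro q hq ω
  show ch (fl q ω) (n / lp n) = ch ω (n / lp n)
  rw [ch_fl]
  have h1 := Nat.mem_primeFactors.1 (lp_mem hn)
  have h0 : (n / lp n).factorization q = 0 := by
    rw [Nat.factorization_div h1.2.1]
    simp only [Finsupp.coe_tsub, Pi.sub_apply]
    rcases eq_or_ne q (lp n) with h | h
    · rw [h, h1.1.factorization_self]
      have := hs.natFactorization_le_one (lp n)
      omega
    · have h2 : q ∉ n.primeFactors := fun h3 => by
        have := le_lp h3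
        omega
      rw [← Nat.support_factorization, Finsupp.notMem_support_iff] at h2
      omega
  rw [h0, pow_zero, one_mul]

/-- the group of the prime `p` -/
noncomputable def Ag (a : ℕ → ℝ) (I : Finset ℕ) (p : ℕ) (ω : ℕ → Bool) : ℝ :=
  ∑ n ∈ I.filter (fun n => lp n = p), a n * ch ω (n / p)

lemma Ag_meas (a : ℕ → ℝ) (I : Finset ℕ) (p : ℕ) : Measurable (Ag a I p) := by
  unfold Ag
  exact Finset.measurable_fun_sum _ fun n _ => (meas_ch _).const_mul _

lemma Ag_le (a : ℕ → ℝ) (ha : ∀ n, |a n| ≤ 1) (I : Finset ℕ) (p : ℕ) (ω : ℕ → Bool) :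
    |Ag a I p ω| ≤ I.card := by
  unfold Ag
  refine (abs_sum_le_sum_abs _ _).trans ?_
  refine (sum_le_sum (g := fun _ => (1 : ℝ)) fun n _ => ?_).trans ?_
  · rw [abs_mul, abs_ch, mul_one]
    exact ha n
  · rw [sum_const, nsmul_eq_mul, mul_one]
    exact_mod_cast card_filter_le _ _

lemma Ag_pred (a : ℕ → ℝ) (ha0 : ∀ n, a n ≠ 0 → Squarefree n) (I : Finset ℕ)
    (hI : ∀ n ∈ I, 2 ≤ n) (p : ℕ) : Pred p (Ag a I p) := by
  intro q hq ω
  unfold Ag
  refine sum_congr rfl fun n hn => ?_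
  obtain ⟨h1, h2⟩ := mem_filter.1 hn
  by_cases h3 : a n = 0
  · rw [h3, zero_mul, zero_mul]
  · have := ch_pred (hI n h1) (ha0 n h3) q (by rw [h2]; exact hq) ω
    rw [h2] at this
    have h4 : ch (fl q ω) (n / p) = ch ω (n / p) := this
    rw [h4]

/-- the sum over a set -/
noncomputable def WI (a : ℕ → ℝ) (I : Finset ℕ) (ω : ℕ → Bool) : ℝ := ∑ n ∈ I, a n * ch ω n

lemma WI_eq (a : ℕ → ℝ) (I : Finset ℕ) (hI : ∀ n ∈ I, 2 ≤ n) (K : ℕ) (hK : ∀ n ∈ I, n < K)
    (ω : ℕ → Bool) : WI a I ω = ∑ p ∈ range K, es p ω * Ag a I p ω := by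
  unfold WI Ag
  rw [← sum_fiberwise_of_maps_to (s := I) (t := range K) (g := lp) (fun n hn => mem_range.2
    (lt_of_le_of_lt (Nat.le_of_mem_primeFactors (lp_mem (hI n hn))) (hK n hn)))]
  refine sum_congr rfl fun p _ => ?_
  rw [mul_sum]
  refine sum_congr rfl fun n hn => ?_
  obtain ⟨h1, h2⟩ := mem_filter.1 hn
  rw [ch_split (hI n h1), h2]
  ring

lemma ch_pair {n m : ℕ} (hn : 2 ≤ n) (hm : 2 ≤ m) (h : lp n = lp m) (ω : ℕ → Bool) :
    ch ω (n / lp n) * ch ω (m / lp m) = ch ω (n * m) := by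
  rw [ch_mul ω (by omega) (by omega), ch_split hn, ch_split hm, ← h]
  have := es_sq (lp n) ω
  calc ch ω (n / lp n) * ch ω (m / lp n) = (es (lp n) ω ^ 2) * (ch ω (n / lp n) * ch ω (m / lp n)) := by
        rw [this, one_mul]
    _ = _ := by ring

/-- products of groups -/
lemma Ag_mul (a : ℕ → ℝ) (I J : Finset ℕ) (hI : ∀ n ∈ I, 2 ≤ n) (hJ : ∀ n ∈ J, 2 ≤ n) (p : ℕ)
    (ω : ℕ → Bool) : Ag a I p ω * Ag a J p ω =
      ∑ t ∈ (I ×ˢ J).filter (fun t => lp t.1 = p ∧ lp t.2 = p), a t.1 * a t.2 * ch ω (t.1 * t.2) := by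
  unfold Ag
  rw [sum_mul_sum, ← sum_product', ← filter_product]
  refine sum_congr rfl fun t ht => ?_
  obtain ⟨h1, h2, h3⟩ := mem_filter.1 ht
  obtain ⟨h4, h5⟩ := mem_product.1 h1
  rw [← ch_pair (hI _ h4) (hJ _ h5) (h2.trans h3.symm), h2, h3]
  ring

lemma Ag_mul_sum (a : ℕ → ℝ) (I J : Finset ℕ) (hI : ∀ n ∈ I, 2 ≤ n) (hJ : ∀ n ∈ J, 2 ≤ n) (K : ℕ)
    (hK : ∀ n ∈ I, n < K) (ω : ℕ → Bool) : ∑ p ∈ range K, Ag a I p ω * Ag a J p ω =
      ∑ t ∈ (I ×ˢ J).filter (fun t => lp t.1 = lp t.2), a t.1 * a t.2 * ch ω (t.1 * t.2) := by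
  rw [← sum_fiberwise_of_maps_to (s := (I ×ˢ J).filter (fun t => lp t.1 = lp t.2)) (t := range K)
    (g := fun t => lp t.1) (fun t ht => ?_)]
  · refine sum_congr rfl fun p _ => ?_
    rw [Ag_mul a I J hI hJ, filter_filter]
    refine sum_congr ?_ fun _ _ => rfl
    ext t
    simp only [mem_filter]
    constructor
    · rintro ⟨h1, h2, h3⟩
      exact ⟨h1, h2.trans h3.symm, h2⟩
    · rintro ⟨h1, h2, h3⟩
      exact ⟨h1, h3, h2.symm.trans h3⟩
  · have h1 := mem_product.1 (mem_filter.1 ht).1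
    exact mem_range.2 (lt_of_le_of_lt (Nat.le_of_mem_primeFactors (lp_mem (hI _ h1.1)))
      (hK _ h1.1))

/-- pairs with the same largest prime factor -/
def UU (I J : Finset ℕ) : Finset (ℕ × ℕ) :=
  (I ×ˢ J).filter fun t => lp t.1 = lp t.2 ∧ Squarefree t.1 ∧ Squarefree t.2

/-- quadruples with square product -/
def QQ4 (I J : Finset ℕ) : Finset ((ℕ × ℕ) × (ℕ × ℕ)) :=
  ((I ×ˢ I) ×ˢ (J ×ˢ J)).filter fun t => (t.1.1 ≠ t.1.2 ∧ t.1.1 ≠ t.2.1 ∧ t.1.1 ≠ t.2.2) ∧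
    (Squarefree t.1.1 ∧ Squarefree t.1.2 ∧ Squarefree t.2.1 ∧ Squarefree t.2.2) ∧
    IsSquare (t.1.1 * t.1.2 * (t.2.1 * t.2.2))

lemma sq_cancel {n m k : ℕ} (hn : n ≠ 0) (hm : Squarefree m) (hk : Squarefree k)
    (h : IsSquare (n * m * (n * k))) : m = k := by
  refine sqf_eq_of_sq hm hk ?_
  obtain ⟨s, hs⟩ := h
  have h1 : n ^ 2 * (m * k) = s ^ 2 := by rw [sq s, ← hs]; ring
  have h2 : n ∣ s := (Nat.pow_dvd_pow_iff two_ne_zero).1 (Dvd.intro _ h1)
  obtain ⟨t, ht⟩ := h2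
  refine ⟨t, ?_⟩
  have h3 : n ^ 2 * (m * k) = n ^ 2 * (t * t) := by
    rw [h1, ht]
    ring
  exact Nat.eq_of_mul_eq_mul_left (pow_pos (Nat.pos_of_ne_zero hn) 2) h3

/-- second moment of a diagonal quadratic form -/
lemma mom_diag (a : ℕ → ℝ) (ha : ∀ n, |a n| ≤ 1) (ha0 : ∀ n, a n ≠ 0 → Squarefree n)
    (I : Finset ℕ) (hI : ∀ n ∈ I, 2 ≤ n) :
    ∫ ω, (∑ t ∈ (I ×ˢ I).filter (fun t => t.1 ≠ t.2 ∧ lp t.1 = lp t.2),
      a t.1 * a t.2 * ch ω (t.1 * t.2)) ^ 2 ∂cm ≤ 2 * (UU I I).card + (QQ4 I I).card := by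
  classical
  set S := (I ×ˢ I).filter (fun t => t.1 ≠ t.2 ∧ lp t.1 = lp t.2) with hS
  set T : Finset ((ℕ × ℕ) × (ℕ × ℕ)) := (UU I I).image (fun t => (t, t)) ∪
    (UU I I).image (fun t => (t, t.swap)) ∪ QQ4 I I with hT
  have hw : ∀ t : ℕ × ℕ, |a t.1 * a t.2| ≤ 1 := by
    intro t
    rw [abs_mul]
    have := mul_le_mul (ha t.1) (ha t.2) (abs_nonneg _) zero_le_one
    linarith
  have h1 := sec S (fun t => a t.1 * a t.2) hw (fun t => t.1 * t.2) (fun t ht => by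
    have := mem_product.1 (mem_filter.1 ht).1
    exact mul_ne_zero (by have := hI _ this.1; omega) (by have := hI _ this.2; omega)) T
    (fun i hi j hj hwi hwj hsq => by
      obtain ⟨a1, a2, a3⟩ := mem_filter.1 hi
      obtain ⟨b1, b2, b3⟩ := mem_filter.1 hj
      obtain ⟨a4, a5⟩ := mem_product.1 a1
      obtain ⟨b4, b5⟩ := mem_product.1 b1
      have s1 := ha0 _ (left_ne_zero_of_mul hwi)
      have s2 := ha0 _ (right_ne_zero_of_mul hwi)
      have s3 := ha0 _ (left_ne_zero_of_mul hwj)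
      have s4 := ha0 _ (right_ne_zero_of_mul hwj)
      have hiU : i ∈ UU I I := mem_filter.2 ⟨a1, a3, s1, s2⟩
      rw [hT, mem_union, mem_union]
      by_cases c1 : i.1 = j.1
      · left
        left
        refine mem_image.2 ⟨i, hiU, ?_⟩
        have : i.2 = j.2 := sq_cancel (n := i.1) s1.ne_zero s2 s4 (by rw [← c1] at hsq; exact hsq)
        rw [Prod.mk.injEq]
        exact ⟨rfl, Prod.ext c1 this⟩
      by_cases c2 : i.1 = j.2
      · left
        right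
        refine mem_image.2 ⟨i, hiU, ?_⟩
        have : i.2 = j.1 := sq_cancel (n := i.1) s1.ne_zero s2 s3 (by
          rw [← c2, mul_comm j.1] at hsq
          exact hsq)
        rw [Prod.mk.injEq]
        exact ⟨rfl, Prod.ext this c2⟩
      · right
        exact mem_filter.2 ⟨mem_product.2 ⟨a1, b1⟩, ⟨a2, c1, c2⟩, ⟨s1, s2, s3, s4⟩, hsq⟩)
  refine h1.trans ?_
  have h2 : T.card ≤ (UU I I).card + (UU I I).card + (QQ4 I I).card := by
    refine (card_union_le _ _).trans (Nat.add_le_add_right ((card_union_le _ _).trans ?_) _)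
    exact Nat.add_le_add card_image_le card_image_le
  have h3 : (T.card : ℝ) ≤ (((UU I I).card + (UU I I).card + (QQ4 I I).card : ℕ) : ℝ) := by
    exact_mod_cast h2
  push_cast at h3
  linarith

/-- second moment of the mixed form -/
lemma mom_mix (a : ℕ → ℝ) (ha : ∀ n, |a n| ≤ 1) (ha0 : ∀ n, a n ≠ 0 → Squarefree n)
    (I J : Finset ℕ) (hI : ∀ n ∈ I, 2 ≤ n) (hJ : ∀ n ∈ J, 2 ≤ n) (hIJ : Disjoint I J) :
    ∫ ω, (∑ t ∈ (I ×ˢ J).filter (fun t => lp t.1 = lp t.2),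
      a t.1 * a t.2 * ch ω (t.1 * t.2)) ^ 2 ∂cm ≤ (UU I J).card + (QQ4 I J).card := by
  classical
  set S := (I ×ˢ J).filter (fun t => lp t.1 = lp t.2) with hS
  set T : Finset ((ℕ × ℕ) × (ℕ × ℕ)) := (UU I J).image (fun t => (t, t)) ∪
    (QQ4 I J).image (fun t => ((t.1.1, t.2.1), (t.1.2, t.2.2))) with hT
  have hw : ∀ t : ℕ × ℕ, |a t.1 * a t.2| ≤ 1 := by
    intro t
    rw [abs_mul]
    have := mul_le_mul (ha t.1) (ha t.2) (abs_nonneg _) zero_le_one
    linarith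
  have h1 := sec S (fun t => a t.1 * a t.2) hw (fun t => t.1 * t.2) (fun t ht => by
    have := mem_product.1 (mem_filter.1 ht).1
    exact mul_ne_zero (by have := hI _ this.1; omega) (by have := hJ _ this.2; omega)) T
    (fun i hi j hj hwi hwj hsq => by
      obtain ⟨a1, a3⟩ := mem_filter.1 hi
      obtain ⟨b1, b3⟩ := mem_filter.1 hj
      obtain ⟨a4, a5⟩ := mem_product.1 a1
      obtain ⟨b4, b5⟩ := mem_product.1 b1
      have s1 := ha0 _ (left_ne_zero_of_mul hwi)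
      have s2 := ha0 _ (right_ne_zero_of_mul hwi)
      have s3 := ha0 _ (left_ne_zero_of_mul hwj)
      have s4 := ha0 _ (right_ne_zero_of_mul hwj)
      rw [hT, mem_union]
      by_cases c1 : i.1 = j.1
      · left
        refine mem_image.2 ⟨i, mem_filter.2 ⟨a1, a3, s1, s2⟩, ?_⟩
        have : i.2 = j.2 := sq_cancel (n := i.1) s1.ne_zero s2 s4 (by rw [← c1] at hsq; exact hsq)
        rw [Prod.mk.injEq]
        exact ⟨rfl, Prod.ext c1 this⟩
      · right
        refine mem_image.2 ⟨((i.1, j.1), (i.2, j.2)), mem_filter.2 ⟨mem_product.2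
          ⟨mem_product.2 ⟨a4, b4⟩, mem_product.2 ⟨a5, b5⟩⟩, ⟨c1, ?_, ?_⟩, ⟨s1, s3, s2, s4⟩, ?_⟩, rfl⟩
        · exact fun h => disjoint_left.1 hIJ a4 (h ▸ a5)
        · exact fun h => disjoint_left.1 hIJ a4 (h ▸ b5)
        · have e1 : i.1 * j.1 * (i.2 * j.2) = i.1 * i.2 * (j.1 * j.2) := by ring
          show IsSquare (i.1 * j.1 * (i.2 * j.2))
          rw [e1]
          exact hsq)
  refine h1.trans ?_
  have h2 : T.card ≤ (UU I J).card + (QQ4 I J).card :=
    (card_union_le _ _).trans (Nat.add_le_add card_image_le card_image_le)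
  exact_mod_cast h2

/-- fourth moments of the groups -/
lemma mom_four (a : ℕ → ℝ) (ha : ∀ n, |a n| ≤ 1) (ha0 : ∀ n, a n ≠ 0 → Squarefree n)
    (I : Finset ℕ) (hI : ∀ n ∈ I, 2 ≤ n) (K : ℕ) :
    ∫ ω, ∑ p ∈ range K, Ag a I p ω ^ 4 ∂cm ≤ 3 * (UU I I).card + (QQ4 I I).card := by
  classical
  have hw : ∀ t : ℕ × ℕ, |a t.1 * a t.2| ≤ 1 := by
    intro t
    rw [abs_mul]
    have := mul_le_mul (ha t.1) (ha t.2) (abs_nonneg _) zero_le_one
    linarith
  set T0 : Finset ((ℕ × ℕ) × (ℕ × ℕ)) := (UU I I).image (fun t => (t, t)) ∪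
    (UU I I).image (fun t => (t, t.swap)) ∪
    (UU I I).image (fun t => ((t.1, t.1), (t.2, t.2))) ∪ QQ4 I I with hT0
  have h1 : ∀ p, ∫ ω, Ag a I p ω ^ 4 ∂cm ≤ ((T0.filter fun t => lp t.1.1 = p).card : ℝ) := by
    intro p
    have e1 : ∀ ω, Ag a I p ω ^ 4 = (∑ t ∈ (I ×ˢ I).filter (fun t => lp t.1 = p ∧ lp t.2 = p),
        a t.1 * a t.2 * ch ω (t.1 * t.2)) ^ 2 := by
      intro ω
      rw [← Ag_mul a I I hI hI]
      ring
    simp_rw [e1]
    refine sec ((I ×ˢ I).filter (fun t => lp t.1 = p ∧ lp t.2 = p))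
      (fun t : ℕ × ℕ => a t.1 * a t.2) hw (fun t : ℕ × ℕ => t.1 * t.2) (fun t ht => by
      have := mem_product.1 (mem_filter.1 ht).1
      exact mul_ne_zero (by have := hI _ this.1; omega) (by have := hI _ this.2; omega)) _
      (fun i hi j hj hwi hwj hsq => ?_)
    obtain ⟨a1, a2, a3⟩ := mem_filter.1 hi
    obtain ⟨b1, b2, b3⟩ := mem_filter.1 hj
    obtain ⟨a4, a5⟩ := mem_product.1 a1
    obtain ⟨b4, b5⟩ := mem_product.1 b1
    have s1 := ha0 _ (left_ne_zero_of_mul hwi)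
    have s2 := ha0 _ (right_ne_zero_of_mul hwi)
    have s3 := ha0 _ (left_ne_zero_of_mul hwj)
    have s4 := ha0 _ (right_ne_zero_of_mul hwj)
    rw [mem_filter]
    refine ⟨?_, a2⟩
    have hiU : i ∈ UU I I := mem_filter.2 ⟨a1, a2.trans a3.symm, s1, s2⟩
    rw [hT0, mem_union, mem_union, mem_union]
    by_cases c1 : i.1 = j.1
    · left
      left
      left
      refine mem_image.2 ⟨i, hiU, ?_⟩
      have : i.2 = j.2 := sq_cancel (n := i.1) s1.ne_zero s2 s4 (by rw [← c1] at hsq; exact hsq)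
      rw [Prod.mk.injEq]
      exact ⟨rfl, Prod.ext c1 this⟩
    by_cases c2 : i.1 = j.2
    · left
      left
      right
      refine mem_image.2 ⟨i, hiU, ?_⟩
      have : i.2 = j.1 := sq_cancel (n := i.1) s1.ne_zero s2 s3 (by
        rw [← c2, mul_comm j.1] at hsq
        exact hsq)
      rw [Prod.mk.injEq]
      exact ⟨rfl, Prod.ext this c2⟩
    by_cases c3 : i.1 = i.2
    · left
      right
      have : j.1 = j.2 := sq_cancel (n := i.1) s1.ne_zero s3 s4 (by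
        have e2 : i.1 * j.1 * (i.1 * j.2) = i.1 * i.2 * (j.1 * j.2) := by
          rw [← c3]
          ring
        rw [e2]
        exact hsq)
      refine mem_image.2 ⟨(i.1, j.1), mem_filter.2 ⟨mem_product.2 ⟨a4, b4⟩, a2.trans b2.symm,
        s1, s3⟩, ?_⟩
      rw [Prod.mk.injEq]
      exact ⟨Prod.ext rfl c3, Prod.ext rfl this⟩
    · right
      exact mem_filter.2 ⟨mem_product.2 ⟨a1, b1⟩, ⟨c3, c1, c2⟩, ⟨s1, s2, s3, s4⟩, hsq⟩
  rw [integral_finsetSum _ fun p _ => ?_]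
  · refine (sum_le_sum fun p _ => h1 p).trans ?_
    have h2 : ∑ p ∈ range K, (T0.filter fun t => lp t.1.1 = p).card ≤ T0.card := by
      rw [← card_biUnion]
      · exact card_le_card (biUnion_subset.2 fun p _ => filter_subset _ _)
      · intro p _ q _ hpq
        rw [Function.onFun, disjoint_left]
        intro t ht ht'
        exact hpq ((mem_filter.1 ht).2.symm.trans (mem_filter.1 ht').2)
    have h3 : T0.card ≤ (UU I I).card + (UU I I).card + (UU I I).card + (QQ4 I I).card := by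
      refine (card_union_le _ _).trans (Nat.add_le_add_right ((card_union_le _ _).trans
        (Nat.add_le_add ((card_union_le _ _).trans ?_) card_image_le)) _)
      exact Nat.add_le_add card_image_le card_image_le
    have h4 : ((∑ p ∈ range K, (T0.filter fun t => lp t.1.1 = p).card : ℕ) : ℝ) ≤
        (((UU I I).card + (UU I I).card + (UU I I).card + (QQ4 I I).card : ℕ) : ℝ) := by
      exact_mod_cast h2.trans h3
    push_cast at h4
    linarith
  · refine Integrable.of_bound ((Ag_meas a I p).pow_const 4).aestronglyMeasurable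
      ((I.card : ℝ) ^ 4) (Filter.Eventually.of_forall fun ω => ?_)
    rw [Real.norm_eq_abs, abs_pow]
    exact pow_le_pow_left₀ (abs_nonneg _) (Ag_le a ha I p ω) 4

/-- the first moment is at most the root of the second -/
lemma int_abs_le {X : (ℕ → Bool) → ℝ} (hX : Measurable X) (B : ℝ) (hB : ∀ ω, |X ω| ≤ B) {c : ℝ}
    (hc : ∫ ω, X ω ^ 2 ∂cm ≤ c) : ∫ ω, |X ω| ∂cm ≤ Real.sqrt c := by
  have h1 : Integrable (fun ω => |X ω|) cm := Integrable.of_bound hX.abs.aestronglyMeasurable B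
    (Filter.Eventually.of_forall fun ω => by rw [Real.norm_eq_abs, abs_abs]; exact hB ω)
  have h2 : Integrable (fun ω => X ω ^ 2) cm :=
    Integrable.of_bound (hX.pow_const 2).aestronglyMeasurable (B ^ 2)
    (Filter.Eventually.of_forall fun ω => by
      rw [Real.norm_eq_abs, abs_pow]
      exact pow_le_pow_left₀ (abs_nonneg _) (hB ω) 2)
  set m := ∫ ω, |X ω| ∂cm with hm
  refine Real.le_sqrt_of_sq_le (le_trans ?_ hc)
  have h3 : 0 ≤ ∫ ω, (|X ω| - m) ^ 2 ∂cm := integral_nonneg fun ω => sq_nonneg _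
  have h4 : ∀ ω, (|X ω| - m) ^ 2 = X ω ^ 2 - (2 * m * |X ω| - m ^ 2) := by
    intro ω
    rw [sub_sq, sq_abs]
    ring
  simp_rw [h4] at h3
  have i1 : Integrable (fun ω => 2 * m * |X ω|) cm := h1.const_mul _
  have i2 : Integrable (fun ω => 2 * m * |X ω| - m ^ 2) cm := i1.sub (integrable_const _)
  rw [integral_sub h2 i2, integral_sub i1 (integrable_const _), integral_const_mul, integral_const,
    smul_eq_mul, probReal_univ, one_mul, ← hm] at h3
  nlinarith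

lemma meas_form (a : ℕ → ℝ) (S : Finset (ℕ × ℕ)) :
    Measurable fun ω => ∑ t ∈ S, a t.1 * a t.2 * ch ω (t.1 * t.2) :=
  Finset.measurable_fun_sum _ fun t _ => (meas_ch _).const_mul _

lemma abs_form (a : ℕ → ℝ) (ha : ∀ n, |a n| ≤ 1) (S : Finset (ℕ × ℕ)) (ω : ℕ → Bool) :
    |∑ t ∈ S, a t.1 * a t.2 * ch ω (t.1 * t.2)| ≤ S.card := by
  refine (abs_sum_le_sum_abs _ _).trans ?_
  refine (sum_le_sum (g := fun _ => (1 : ℝ)) fun t _ => ?_).trans (by simp)
  rw [abs_mul, abs_ch, mul_one, abs_mul]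
  have := mul_le_mul (ha t.1) (ha t.2) (abs_nonneg _) zero_le_one
  linarith

/-- the sum of the squares of the groups -/
lemma diag_abs (a : ℕ → ℝ) (ha : ∀ n, |a n| ≤ 1) (ha0 : ∀ n, a n ≠ 0 → Squarefree n)
    (I : Finset ℕ) (hI : ∀ n ∈ I, 2 ≤ n) (K : ℕ) (hK : ∀ n ∈ I, n < K) (v : ℝ) :
    ∫ ω, |∑ p ∈ range K, Ag a I p ω ^ 2 - v| ∂cm ≤
      Real.sqrt (2 * (UU I I).card + (QQ4 I I).card) + |∑ n ∈ I, a n ^ 2 - v| := by
  set S := (I ×ˢ I).filter (fun t => t.1 ≠ t.2 ∧ lp t.1 = lp t.2) with hS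
  have e1 : ∀ ω, ∑ p ∈ range K, Ag a I p ω ^ 2 - v =
      ∑ t ∈ S, a t.1 * a t.2 * ch ω (t.1 * t.2) + (∑ n ∈ I, a n ^ 2 - v) := by
    intro ω
    have e2 : ∑ p ∈ range K, Ag a I p ω ^ 2 = ∑ p ∈ range K, Ag a I p ω * Ag a I p ω :=
      sum_congr rfl fun p _ => sq _
    rw [e2, Ag_mul_sum a I I hI hI K hK ω,
      ← sum_filter_add_sum_filter_not ((I ×ˢ I).filter fun t => lp t.1 = lp t.2)
        (fun t => t.1 ≠ t.2), filter_filter, filter_filter]
    have e3 : (I ×ˢ I).filter (fun t => lp t.1 = lp t.2 ∧ t.1 ≠ t.2) = S := by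
      rw [hS]
      ext t
      simp only [mem_filter]
      tauto
    have e4 : ∑ t ∈ (I ×ˢ I).filter (fun t => lp t.1 = lp t.2 ∧ ¬ t.1 ≠ t.2),
        a t.1 * a t.2 * ch ω (t.1 * t.2) = ∑ n ∈ I, a n ^ 2 := by
      symm
      refine sum_bij (fun n _ => (n, n)) (fun n hn => ?_) (fun n _ m _ h => ?_) (fun t ht => ?_)
        (fun n hn => ?_)
      · exact mem_filter.2 ⟨mem_product.2 ⟨hn, hn⟩, rfl, not_not.2 rfl⟩
      · exact (Prod.mk.inj h).1
      · obtain ⟨h1, h2, h3⟩ := mem_filter.1 ht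
        exact ⟨t.1, (mem_product.1 h1).1, Prod.ext rfl (not_not.1 h3)⟩
      · have hn0 : n ≠ 0 := by have := hI n hn; omega
        rw [ch_mul ω hn0 hn0, ← sq (ch ω n), ch_sq, mul_one, sq]
    rw [e3, e4]
    ring
  simp_rw [e1]
  have h1 := mom_diag a ha ha0 I hI
  have h2 := int_abs_le (meas_form a S) S.card (abs_form a ha S) h1
  have h3 : Integrable (fun ω => |∑ t ∈ S, a t.1 * a t.2 * ch ω (t.1 * t.2)|) cm :=
    Integrable.of_bound (meas_form a S).abs.aestronglyMeasurable S.card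
    (Filter.Eventually.of_forall fun ω => by rw [Real.norm_eq_abs, abs_abs]; exact abs_form a ha S ω)
  calc ∫ ω, |∑ t ∈ S, a t.1 * a t.2 * ch ω (t.1 * t.2) + (∑ n ∈ I, a n ^ 2 - v)| ∂cm
      ≤ ∫ ω, (|∑ t ∈ S, a t.1 * a t.2 * ch ω (t.1 * t.2)| + |∑ n ∈ I, a n ^ 2 - v|) ∂cm :=
        integral_mono_of_nonneg (Filter.Eventually.of_forall fun _ => abs_nonneg _)
          (h3.add (integrable_const _)) (Filter.Eventually.of_forall fun ω => abs_add_le _ _)
    _ = (∫ ω, |∑ t ∈ S, a t.1 * a t.2 * ch ω (t.1 * t.2)| ∂cm) + |∑ n ∈ I, a n ^ 2 - v| := by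
        rw [integral_add h3 (integrable_const _), integral_const, smul_eq_mul,
          probReal_univ, one_mul]
    _ ≤ _ := add_le_add_left h2 _

/-- **The characteristic function of the difference of two sums.** -/
theorem cf (a : ℕ → ℝ) (ha : ∀ n, |a n| ≤ 1) (ha0 : ∀ n, a n ≠ 0 → Squarefree n)
    (I J : Finset ℕ) (hI : ∀ n ∈ I, 2 ≤ n) (hJ : ∀ n ∈ J, 2 ≤ n) (hIJ : Disjoint I J)
    (τ v w : ℝ) (hs : 0 < τ ^ 2 * (v + w)) :
    ‖(∫ ω, Complex.exp (Complex.I * ((τ * (WI a I ω - WI a J ω) : ℝ) : ℂ)) ∂cm) -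
      ((Real.exp (-(τ ^ 2 * (v + w) / 2)) : ℝ) : ℂ)‖ ≤
      (2 / (τ ^ 2 * (v + w)) + 2 + Real.exp (2 * (τ ^ 2 * (v + w))) * (2 + τ ^ 2 * (v + w))) *
        (τ ^ 2 * ((Real.sqrt (2 * (UU I I).card + (QQ4 I I).card) + |∑ n ∈ I, a n ^ 2 - v|) +
            (Real.sqrt (2 * (UU J J).card + (QQ4 J J).card) + |∑ n ∈ J, a n ^ 2 - w|) +
            2 * Real.sqrt ((UU I J).card + (QQ4 I J).card)) +
          8 * τ ^ 4 * ((3 * (UU I I).card + (QQ4 I I).card) + (3 * (UU J J).card + (QQ4 J J).card))) := by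
  classical
  obtain ⟨K, hK⟩ : ∃ K, ∀ n ∈ I ∪ J, n < K :=
    ⟨(I ∪ J).sup id + 1, fun n hn => Nat.lt_succ_of_le (Finset.le_sup (f := id) hn)⟩
  have hKI : ∀ n ∈ I, n < K := fun n hn => hK n (mem_union_left _ hn)
  have hKJ : ∀ n ∈ J, n < K := fun n hn => hK n (mem_union_right _ hn)
  set G : ℕ → (ℕ → Bool) → ℝ := fun p ω => τ * (Ag a I p ω - Ag a J p ω) with hG
  have hGp : ∀ q, Pred q (G q) := fun q p hqp ω => by
    rw [hG]
    simp only
    rw [Ag_pred a ha0 I hI q p hqp, Ag_pred a ha0 J hJ q p hqp]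
  have hGm : ∀ q, Measurable (G q) := fun q => ((Ag_meas a I q).sub (Ag_meas a J q)).const_mul τ
  have hGb : ∀ q ω, |G q ω| ≤ |τ| * (I.card + J.card) := fun q ω => by
    rw [hG]
    simp only
    rw [abs_mul]
    refine mul_le_mul_of_nonneg_left ((abs_sub _ _).trans ?_) (abs_nonneg _)
    exact add_le_add (Ag_le a ha I q ω) (Ag_le a ha J q ω)
  have h1 := mcl K G hGp hGm _ hGb _ hs
  have e1 : ∀ ω, ∑ q ∈ range K, es q ω * G q ω = τ * (WI a I ω - WI a J ω) := by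
    intro ω
    rw [WI_eq a I hI K hKI, WI_eq a J hJ K hKJ, ← sum_sub_distrib, mul_sum]
    refine sum_congr rfl fun q _ => ?_
    rw [hG]
    ring
  simp_rw [e1] at h1
  refine h1.trans ?_
  have hC : 0 ≤ 2 / (τ ^ 2 * (v + w)) + 2 +
      Real.exp (2 * (τ ^ 2 * (v + w))) * (2 + τ ^ 2 * (v + w)) := by positivity
  refine mul_le_mul_of_nonneg_left (add_le_add ?_ ?_) hC
  · -- the quadratic part
    set S := (I ×ˢ J).filter (fun t => lp t.1 = lp t.2) with hS
    have f1 : ∀ ω, |∑ q ∈ range K, G q ω ^ 2 - τ ^ 2 * (v + w)| ≤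
        τ ^ 2 * (|∑ p ∈ range K, Ag a I p ω ^ 2 - v| + |∑ p ∈ range K, Ag a J p ω ^ 2 - w| +
          2 * |∑ t ∈ S, a t.1 * a t.2 * ch ω (t.1 * t.2)|) := by
      intro ω
      have f2 : ∑ q ∈ range K, G q ω ^ 2 - τ ^ 2 * (v + w) =
          τ ^ 2 * ((∑ p ∈ range K, Ag a I p ω ^ 2 - v) + (∑ p ∈ range K, Ag a J p ω ^ 2 - w) +
            (-2) * ∑ t ∈ S, a t.1 * a t.2 * ch ω (t.1 * t.2)) := by
        rw [hS, ← Ag_mul_sum a I J hI hJ K hKI ω]
        have f3 : ∑ q ∈ range K, G q ω ^ 2 = τ ^ 2 * (∑ p ∈ range K, Ag a I p ω ^ 2 +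
            ∑ p ∈ range K, Ag a J p ω ^ 2 - 2 * ∑ p ∈ range K, Ag a I p ω * Ag a J p ω) := by
          rw [mul_sum _ _ (2 : ℝ), ← sum_add_distrib, ← sum_sub_distrib, mul_sum]
          refine sum_congr rfl fun q _ => ?_
          rw [hG]
          ring
        rw [f3]
        ring
      rw [f2, abs_mul, abs_of_nonneg (sq_nonneg τ)]
      refine mul_le_mul_of_nonneg_left ?_ (sq_nonneg τ)
      refine (abs_add_three _ _ _).trans ?_
      rw [abs_mul, abs_neg, abs_of_pos (by norm_num : (0 : ℝ) < 2)]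
    have g1 := diag_abs a ha ha0 I hI K hKI v
    have g2 := diag_abs a ha ha0 J hJ K hKJ w
    have g3 := int_abs_le (meas_form a S) S.card (abs_form a ha S)
      (mom_mix a ha ha0 I J hI hJ hIJ)
    have m1 : ∀ (L : Finset ℕ) (x : ℝ), Measurable fun ω => |∑ p ∈ range K, Ag a L p ω ^ 2 - x| :=
      fun L x => ((Finset.measurable_fun_sum _ fun q _ =>
        (Ag_meas a L q).pow_const 2).sub_const x).abs
    have i1 : ∀ (L : Finset ℕ) (x : ℝ),
        Integrable (fun ω => |∑ p ∈ range K, Ag a L p ω ^ 2 - x|) cm := by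
      intro L x
      refine Integrable.of_bound (m1 L x).aestronglyMeasurable (K * (L.card : ℝ) ^ 2 + |x|)
        (Filter.Eventually.of_forall fun ω => ?_)
      rw [Real.norm_eq_abs, abs_abs]
      refine (abs_sub _ _).trans (add_le_add_left ?_ _)
      rw [abs_of_nonneg (sum_nonneg fun _ _ => sq_nonneg _)]
      refine (sum_le_sum (g := fun _ => (L.card : ℝ) ^ 2) fun q _ => ?_).trans (by simp)
      rw [← sq_abs]
      exact pow_le_pow_left₀ (abs_nonneg _) (Ag_le a ha L q ω) 2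
    have i3 : Integrable (fun ω => |∑ t ∈ S, a t.1 * a t.2 * ch ω (t.1 * t.2)|) cm :=
      Integrable.of_bound (meas_form a S).abs.aestronglyMeasurable S.card
      (Filter.Eventually.of_forall fun ω => by
        rw [Real.norm_eq_abs, abs_abs]; exact abs_form a ha S ω)
    have i4 : Integrable (fun ω => |∑ p ∈ range K, Ag a I p ω ^ 2 - v| +
        |∑ p ∈ range K, Ag a J p ω ^ 2 - w|) cm := (i1 I v).add (i1 J w)
    have i5 : Integrable (fun ω => |∑ p ∈ range K, Ag a I p ω ^ 2 - v| +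
        |∑ p ∈ range K, Ag a J p ω ^ 2 - w| +
        2 * |∑ t ∈ S, a t.1 * a t.2 * ch ω (t.1 * t.2)|) cm := i4.add (i3.const_mul 2)
    refine (integral_mono_of_nonneg (Filter.Eventually.of_forall fun _ => abs_nonneg _)
      (i5.const_mul (τ ^ 2)) (Filter.Eventually.of_forall f1)).trans ?_
    rw [integral_const_mul, integral_add i4 (i3.const_mul 2), integral_add (i1 I v) (i1 J w),
      integral_const_mul]
    refine mul_le_mul_of_nonneg_left ?_ (sq_nonneg τ)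
    linarith
  · -- the quartic part
    have g1 := mom_four a ha ha0 I hI K
    have g2 := mom_four a ha ha0 J hJ K
    have i1 : ∀ L : Finset ℕ, Integrable (fun ω => ∑ p ∈ range K, Ag a L p ω ^ 4) cm := by
      intro L
      refine Integrable.of_bound (Finset.measurable_fun_sum _ fun q _ =>
        (Ag_meas a L q).pow_const 4).aestronglyMeasurable (K * (L.card : ℝ) ^ 4)
        (Filter.Eventually.of_forall fun ω => ?_)
      rw [Real.norm_eq_abs, abs_of_nonneg (sum_nonneg fun _ _ => by positivity)]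
      refine (sum_le_sum (g := fun _ => (L.card : ℝ) ^ 4) fun q _ => ?_).trans (by simp)
      have : Ag a L q ω ^ 4 = |Ag a L q ω| ^ 4 := by
        rw [← abs_pow, abs_of_nonneg (by positivity)]
      rw [this]
      exact pow_le_pow_left₀ (abs_nonneg _) (Ag_le a ha L q ω) 4
    have f1 : ∀ ω, ∑ q ∈ range K, G q ω ^ 4 ≤
        8 * τ ^ 4 * (∑ p ∈ range K, Ag a I p ω ^ 4 + ∑ p ∈ range K, Ag a J p ω ^ 4) := by
      intro ω
      rw [← sum_add_distrib, mul_sum]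
      refine sum_le_sum fun q _ => ?_
      rw [hG]
      simp only
      rw [mul_pow, mul_comm (8 : ℝ), mul_assoc]
      refine mul_le_mul_of_nonneg_left ?_ (by positivity)
      set x := Ag a I q ω
      set y := Ag a J q ω
      have h3 : (x - y) ^ 2 ≤ 2 * (x ^ 2 + y ^ 2) := by nlinarith [sq_nonneg (x + y)]
      have h4 : (x ^ 2 + y ^ 2) ^ 2 ≤ 2 * (x ^ 4 + y ^ 4) := by
        nlinarith [sq_nonneg (x ^ 2 - y ^ 2)]
      calc (x - y) ^ 4 = ((x - y) ^ 2) ^ 2 := by ring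
        _ ≤ (2 * (x ^ 2 + y ^ 2)) ^ 2 := pow_le_pow_left₀ (sq_nonneg _) h3 2
        _ = 4 * (x ^ 2 + y ^ 2) ^ 2 := by ring
        _ ≤ 8 * (x ^ 4 + y ^ 4) := by linarith
    have i2 : Integrable (fun ω => ∑ p ∈ range K, Ag a I p ω ^ 4 +
        ∑ p ∈ range K, Ag a J p ω ^ 4) cm := (i1 I).add (i1 J)
    refine (integral_mono_of_nonneg (Filter.Eventually.of_forall fun ω =>
      sum_nonneg fun _ _ => by positivity) (i2.const_mul _)
      (Filter.Eventually.of_forall f1)).trans ?_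
    rw [integral_const_mul, integral_add (i1 I) (i1 J)]
    exact mul_le_mul_of_nonneg_left (add_le_add g1 g2) (by positivity)

end Pool.Agent.Q163.CL
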