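import Pool.Agent.Q163.CL.Interp

set_option autoImplicit false

/-!
# Convergence for all windows
-/

namespace Pool.Agent.Q163.CL

open Finset Filter Topology MeasureTheory Pool.Agent.Q163.GC Pool.Agent.Q163.RX

lemma near (M : ℕ) (hM : 1 ≤ M) (n : ℕ) (hn : M ≤ n) : ∃ k : ℕ, 1 ≤ gr M k ∧ gr M k ≤ n ∧
    (n : ℝ) - gr M k ≤ 2 / M * n ∧ (1 + 1 / (M : ℝ)) ^ k ≤ n ∧ (n : ℝ) < (1 + 1 / (M : ℝ)) ^ (k + 1) := by
  have hM0 : (0 : ℝ) < M := by exact_mod_cast hM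
  have hq1 : (1 : ℝ) < 1 + 1 / (M : ℝ) := by
    have : 0 < 1 / (M : ℝ) := by positivity
    linarith
  have hn1 : (1 : ℝ) ≤ n := by exact_mod_cast hM.trans hn
  have hnM : (M : ℝ) ≤ n := by exact_mod_cast hn
  obtain ⟨k, hk1, hk2⟩ := exists_nat_pow_near hn1 hq1
  refine ⟨k, ?_, ?_, ?_, hk1, hk2⟩
  · unfold gr
    refine Nat.le_floor ?_
    rw [Nat.cast_one]
    exact one_le_pow₀ hq1.le
  · unfold gr
    exact Nat.floor_le_of_le hk1
  · have h1 : (1 + 1 / (M : ℝ)) ^ k < gr M k + 1 := Nat.lt_floor_add_one _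
    rw [pow_succ] at hk2
    have h2 : (n : ℝ) * (1 - 1 / M) ≤ (1 + 1 / (M : ℝ)) ^ k := by
      have h3 : (1 - 1 / (M : ℝ)) * (1 + 1 / (M : ℝ)) ≤ 1 := by
        have : 0 ≤ (1 / (M : ℝ)) ^ 2 := by positivity
        nlinarith
      have h4 : 0 ≤ 1 - 1 / (M : ℝ) := by
        rw [sub_nonneg, div_le_one hM0]
        exact_mod_cast hM
      have h5 : 0 ≤ (1 + 1 / (M : ℝ)) ^ k := by positivity
      calc (n : ℝ) * (1 - 1 / M) ≤ ((1 + 1 / (M : ℝ)) ^ k * (1 + 1 / (M : ℝ))) * (1 - 1 / M) :=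
            mul_le_mul_of_nonneg_right hk2.le h4
        _ = (1 + 1 / (M : ℝ)) ^ k * ((1 - 1 / (M : ℝ)) * (1 + 1 / (M : ℝ))) := by ring
        _ ≤ (1 + 1 / (M : ℝ)) ^ k * 1 := mul_le_mul_of_nonneg_left h3 h5
        _ = _ := mul_one _
    have h6 : 1 ≤ 1 / (M : ℝ) * n := by
      rw [one_div, ← div_eq_inv_mul, le_div_iff₀ hM0, one_mul]
      exact hnM
    have h7 : 2 / (M : ℝ) * n = 1 / (M : ℝ) * n + 1 / (M : ℝ) * n := by ring
    nlinarith

/-- convergence along all the grids -/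
def GrC (f : ℕ → ℝ) (t : ℝ) : Prop := ∀ r m j : ℕ, ∀ᶠ k : ℕ in atTop, ∀ l ≤ k,
  (gr (m + 1) k : ℝ) ^ (1 / ((r : ℝ) + 1)) ≤ gr (m + 1) l →
  (gr (m + 1) l : ℝ) ≤ (gr (m + 1) k : ℝ) ^ (1 - 1 / ((r : ℝ) + 1)) →
  df f t (gr (m + 1) k) (gr (m + 1) l) < 1 / ((j : ℝ) + 1)

/-- convergence for all windows -/
def Conv (f : ℕ → ℝ) (t : ℝ) : Prop := ∀ ε : ℝ, 0 < ε → ε < 1 / 2 → ∀ η : ℝ, 0 < η →
  ∀ᶠ N : ℕ in atTop, ∀ h : ℕ, (N : ℝ) ^ ε ≤ h → (h : ℝ) ≤ (N : ℝ) ^ (1 - ε) →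
    |Cm (th f t h) N - Real.exp (-t ^ 2 / 2)| ≤ η ∧ |Sm (th f t h) N| ≤ η

lemma ev_rpow (K ε : ℝ) (hε : 0 < ε) : ∀ᶠ N : ℕ in atTop, K ≤ (N : ℝ) ^ ε :=
  ((tendsto_rpow_atTop hε).comp tendsto_natCast_atTop_atTop).eventually_ge_atTop K

/-- the energy bound in the form needed -/
lemma En_use {f : ℕ → ℝ} (hE : En f) (ε : ℝ) (hε : 0 < ε) (hε1 : ε < 1 / 2) :
    ∀ᶠ N : ℕ in atTop, ∀ h : ℕ, (h : ℝ) ≤ (N : ℝ) ^ (1 - ε) → ∀ r : ℕ, r ≤ h →
      BB f (3 * N) r ≤ 2 * r * ((3 * N : ℕ) : ℝ) := by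
  have h3 : Tendsto (fun N : ℕ => 3 * N) atTop atTop :=
    tendsto_id.const_mul_atTop' (by norm_num : 0 < 3)
  filter_upwards [h3.eventually (hE ε hε), eventually_ge_atTop 1] with N h1 h2 h hh r hr
  refine h1 r ?_
  have hN : (0 : ℝ) ≤ N := Nat.cast_nonneg _
  calc (r : ℝ) ≤ h := by exact_mod_cast hr
    _ ≤ (N : ℝ) ^ (1 - ε) := hh
    _ ≤ ((3 * N : ℕ) : ℝ) ^ (1 - ε) := by
        refine Real.rpow_le_rpow hN ?_ (by linarith)
        push_cast
        linarith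

theorem interp {f : ℕ → ℝ} {t : ℝ} (hE : En f) (hG : GrC f t) : Conv f t := by
  intro ε hε hε1 η hη
  have hkap := kap_pos
  obtain ⟨r, hr⟩ := exists_nat_one_div_lt (half_pos hε)
  obtain ⟨j, hj⟩ := exists_nat_one_div_lt (by positivity : 0 < (η / 3) ^ 2)
  obtain ⟨m, hm⟩ := exists_nat_ge (48 * (t ^ 2 / kap) / (η / 3) ^ 2 + 8 / (η / 3) + 4)
  set M := m + 1 with hM
  have hMR : (M : ℝ) = m + 1 := by rw [hM]; push_cast; ring
  have p1 : 0 ≤ 48 * (t ^ 2 / kap) / (η / 3) ^ 2 := by positivity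
  have p2 : 0 ≤ 8 / (η / 3) := by positivity
  have hM4 : (4 : ℝ) ≤ M := by rw [hMR]; linarith
  have hM0 : (0 : ℝ) < M := by linarith
  have hM1 : 1 ≤ M := by omega
  have q1 : 48 * (t ^ 2 / kap) / M ≤ (η / 3) ^ 2 := by
    rw [div_le_iff₀ hM0]
    have : 48 * (t ^ 2 / kap) / (η / 3) ^ 2 ≤ M := by rw [hMR]; linarith
    rw [div_le_iff₀ (by positivity)] at this
    linarith
  have q2 : 8 / (M : ℝ) ≤ η / 3 := by
    rw [div_le_iff₀ hM0]
    have : 8 / (η / 3) ≤ M := by rw [hMR]; linarith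
    rw [div_le_iff₀ (by positivity)] at this
    linarith
  obtain ⟨K0, hK0⟩ := eventually_atTop.1 (hG r m j)
  have hq1 : (1 : ℝ) < 1 + 1 / (M : ℝ) := by
    have : 0 < 1 / (M : ℝ) := by positivity
    linarith
  have ev1 : ∀ᶠ N : ℕ in atTop, (1 + 1 / (M : ℝ)) ^ (K0 + 1) ≤ N :=
    tendsto_natCast_atTop_atTop.eventually_ge_atTop _
  filter_upwards [ev1, eventually_ge_atTop M, ev_rpow M ε hε, ev_rpow 4 (ε / 2) (by positivity),
    En_use hE ε hε hε1] with N c1 c2 c3 c4 c5 h hh1 hh2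
  have hN1 : 1 ≤ N := hM1.trans c2
  have hNR : (1 : ℝ) ≤ N := by exact_mod_cast hN1
  have hN0 : (0 : ℝ) < N := by linarith
  have hhM : (M : ℝ) ≤ h := c3.trans hh1
  have hhM' : M ≤ h := by exact_mod_cast hhM
  have hh0 : (0 : ℝ) < h := by linarith
  have hhNR : (h : ℝ) ≤ N := by
    calc (h : ℝ) ≤ (N : ℝ) ^ (1 - ε) := hh2
      _ ≤ (N : ℝ) ^ (1 : ℝ) := Real.rpow_le_rpow_of_exponent_le hNR (by linarith)
      _ = N := Real.rpow_one _
  have hhN : h ≤ N := by exact_mod_cast hhNR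
  obtain ⟨k, k1, k2, k3, k4, k5⟩ := near M hM1 N c2
  obtain ⟨l, l1, l2, l3, l4, l5⟩ := near M hM1 h hhM'
  set N' := gr M k with hN'
  set h' := gr M l with hh'
  have hkK : K0 ≤ k := by
    have : (1 + 1 / (M : ℝ)) ^ (K0 + 1) < (1 + 1 / (M : ℝ)) ^ (k + 1) := lt_of_le_of_lt c1 k5
    have := (pow_lt_pow_iff_right₀ hq1).1 this
    omega
  have hlk : l ≤ k := by
    have : (1 + 1 / (M : ℝ)) ^ l < (1 + 1 / (M : ℝ)) ^ (k + 1) :=
      lt_of_le_of_lt l4 (lt_of_le_of_lt hhNR k5)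
    have := (pow_lt_pow_iff_right₀ hq1).1 this
    omega
  have hM2 : 2 / (M : ℝ) ≤ 1 / 2 := by
    rw [div_le_div_iff₀ hM0 (by norm_num)]
    linarith
  have hN'0 : (0 : ℝ) < N' := by exact_mod_cast k1
  have hN'N : (N' : ℝ) ≤ N := by exact_mod_cast k2
  have hN2 : (N : ℝ) / 2 ≤ N' := by nlinarith
  have hh2' : (h : ℝ) / 2 ≤ h' := by nlinarith
  have hh'h : (h' : ℝ) ≤ h := by exact_mod_cast l2
  have hee : (N : ℝ) ^ ε = (N : ℝ) ^ (ε / 2) * (N : ℝ) ^ (ε / 2) := by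
    rw [← Real.rpow_add hN0]
    congr 1
    ring
  have hlow : (N' : ℝ) ^ (1 / ((r : ℝ) + 1)) ≤ h' := by
    calc (N' : ℝ) ^ (1 / ((r : ℝ) + 1)) ≤ (N : ℝ) ^ (1 / ((r : ℝ) + 1)) :=
          Real.rpow_le_rpow hN'0.le hN'N (by positivity)
      _ ≤ (N : ℝ) ^ (ε / 2) := Real.rpow_le_rpow_of_exponent_le hNR hr.le
      _ ≤ (N : ℝ) ^ ε / 2 := by
          rw [hee]
          nlinarith
      _ ≤ h / 2 := by linarith
      _ ≤ h' := hh2'
  have hup : (h' : ℝ) ≤ (N' : ℝ) ^ (1 - 1 / ((r : ℝ) + 1)) := by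
    have hN'1 : (1 : ℝ) ≤ N' := by exact_mod_cast k1
    have a1 : (N : ℝ) ^ (1 - ε) ≤ 2 * (N' : ℝ) ^ (1 - ε) := by
      calc (N : ℝ) ^ (1 - ε) ≤ (2 * (N' : ℝ)) ^ (1 - ε) :=
            Real.rpow_le_rpow hN0.le (by linarith) (by linarith)
        _ = (2 : ℝ) ^ (1 - ε) * (N' : ℝ) ^ (1 - ε) := Real.mul_rpow (by norm_num) hN'0.le
        _ ≤ 2 * (N' : ℝ) ^ (1 - ε) := by
            refine mul_le_mul_of_nonneg_right ?_ (by positivity)
            calc (2 : ℝ) ^ (1 - ε) ≤ (2 : ℝ) ^ (1 : ℝ) :=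
                  Real.rpow_le_rpow_of_exponent_le (by norm_num) (by linarith)
              _ = 2 := Real.rpow_one _
    have a2 : (2 : ℝ) ≤ (N' : ℝ) ^ (ε / 2) := by
      have a3 : (N : ℝ) ^ (ε / 2) ≤ 2 * (N' : ℝ) ^ (ε / 2) := by
        calc (N : ℝ) ^ (ε / 2) ≤ (2 * (N' : ℝ)) ^ (ε / 2) :=
              Real.rpow_le_rpow hN0.le (by linarith) (by linarith)
          _ = (2 : ℝ) ^ (ε / 2) * (N' : ℝ) ^ (ε / 2) := Real.mul_rpow (by norm_num) hN'0.le
          _ ≤ 2 * (N' : ℝ) ^ (ε / 2) := by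
              refine mul_le_mul_of_nonneg_right ?_ (by positivity)
              calc (2 : ℝ) ^ (ε / 2) ≤ (2 : ℝ) ^ (1 : ℝ) :=
                    Real.rpow_le_rpow_of_exponent_le (by norm_num) (by linarith)
                _ = 2 := Real.rpow_one _
      linarith
    calc (h' : ℝ) ≤ h := hh'h
      _ ≤ 2 * (N' : ℝ) ^ (1 - ε) := hh2.trans a1
      _ ≤ (N' : ℝ) ^ (ε / 2) * (N' : ℝ) ^ (1 - ε) := mul_le_mul_of_nonneg_right a2 (by positivity)
      _ = (N' : ℝ) ^ (1 - ε / 2) := by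
          rw [← Real.rpow_add hN'0]
          congr 1
          ring
      _ ≤ (N' : ℝ) ^ (1 - 1 / ((r : ℝ) + 1)) :=
          Real.rpow_le_rpow_of_exponent_le hN'1 (by linarith)
  have hdf := hK0 k hkK l hlk hlow hup
  rw [← hM, ← hN', ← hh'] at hdf
  have hdf2 : df f t N' h' ≤ (η / 3) ^ 2 := by linarith
  unfold df at hdf2
  have d1 : |Cm (th f t h') N' - Real.exp (-t ^ 2 / 2)| ≤ η / 3 :=
    abs_le_of_sq_le_sq (by
      have := sq_nonneg (Sm (th f t h') N')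
      linarith) (by positivity)
  have d2 : |Sm (th f t h') N'| ≤ η / 3 :=
    abs_le_of_sq_le_sq (by
      have := sq_nonneg (Cm (th f t h') N' - Real.exp (-t ^ 2 / 2))
      linarith) (by positivity)
  have hlen := th_len f t N h h' l1 l2 hhN (c5 h hh2)
  have hlen2 : Real.sqrt ((∑ x ∈ Ico N (2 * N), (th f t h x - th f t h' x) ^ 2) / N) ≤ η / 3 := by
    refine Real.sqrt_le_iff.2 ⟨by positivity, ?_⟩
    rw [div_le_iff₀ hN0]
    refine hlen.trans (mul_le_mul_of_nonneg_right ?_ hN0.le)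
    have : ((h : ℝ) - h') / h ≤ 2 / M := by
      rw [div_le_iff₀ hh0]
      exact l3
    calc 24 * (t ^ 2 / kap) * (((h : ℝ) - h') / h) ≤ 24 * (t ^ 2 / kap) * (2 / M) :=
          mul_le_mul_of_nonneg_left this (by positivity)
      _ = 48 * (t ^ 2 / kap) / M := by ring
      _ ≤ (η / 3) ^ 2 := q1
  have hran : 4 * ((N : ℝ) - N') / N ≤ η / 3 := by
    rw [div_le_iff₀ hN0]
    calc 4 * ((N : ℝ) - N') ≤ 4 * (2 / M * N) := mul_le_mul_of_nonneg_left k3 (by norm_num)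
      _ = 8 / M * N := by ring
      _ ≤ η / 3 * N := mul_le_mul_of_nonneg_right q2 hN0.le
  constructor
  · have a1 := (ang_change Real.cos cos_lip (th f t h) (th f t h') N hN1).trans hlen2
    have a2 := (range_change (fun x => Real.cos (th f t h' x)) (fun x => Real.abs_cos_le_one _)
      N N' k1 k2).trans hran
    have e : Cm (th f t h) N - Real.exp (-t ^ 2 / 2) =
        (Cm (th f t h) N - Cm (th f t h') N) + (Cm (th f t h') N - Cm (th f t h') N') +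
        (Cm (th f t h') N' - Real.exp (-t ^ 2 / 2)) := by ring
    rw [e]
    refine (abs_add_three _ _ _).trans ?_
    have a3 : |Cm (th f t h) N - Cm (th f t h') N| ≤ η / 3 := a1
    have a4 : |Cm (th f t h') N - Cm (th f t h') N'| ≤ η / 3 := a2
    linarith
  · have a1 := (ang_change Real.sin sin_lip (th f t h) (th f t h') N hN1).trans hlen2
    have a2 := (range_change (fun x => Real.sin (th f t h' x)) (fun x => Real.abs_sin_le_one _)
      N N' k1 k2).trans hran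
    have e : Sm (th f t h) N =
        (Sm (th f t h) N - Sm (th f t h') N) + (Sm (th f t h') N - Sm (th f t h') N') +
        Sm (th f t h') N' := by ring
    rw [e]
    refine (abs_add_three _ _ _).trans ?_
    have a3 : |Sm (th f t h) N - Sm (th f t h') N| ≤ η / 3 := a1
    have a4 : |Sm (th f t h') N - Sm (th f t h') N'| ≤ η / 3 := a2
    linarith

/-- uniform convergence on compact sets of frequencies -/
def UConv (f : ℕ → ℝ) : Prop := ∀ ε : ℝ, 0 < ε → ε < 1 / 2 → ∀ T : ℝ, ∀ η : ℝ, 0 < η →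
  ∀ᶠ N : ℕ in atTop, ∀ h : ℕ, (N : ℝ) ^ ε ≤ h → (h : ℝ) ≤ (N : ℝ) ^ (1 - ε) → ∀ t : ℝ, |t| ≤ T →
    |Cm (th f t h) N - Real.exp (-t ^ 2 / 2)| ≤ η ∧ |Sm (th f t h) N| ≤ η

lemma exp_near (t t' : ℝ) : |Real.exp (-t ^ 2 / 2) - Real.exp (-t' ^ 2 / 2)| ≤
    (|t| + |t'|) * |t - t'| := by
  have h1 := exp_diff (a := t ^ 2 / 2) (b := t' ^ 2 / 2) (by positivity) (by positivity)
  have e1 : -t ^ 2 / 2 = -(t ^ 2 / 2) := by ring
  have e2 : -t' ^ 2 / 2 = -(t' ^ 2 / 2) := by ring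
  rw [e1, e2]
  refine h1.trans ?_
  have e3 : t ^ 2 / 2 - t' ^ 2 / 2 = (t + t') * (t - t') / 2 := by ring
  rw [e3, abs_div, abs_mul, abs_two]
  have h2 := abs_add_le t t'
  have h3 : 0 ≤ |t - t'| := abs_nonneg _
  have h4 : |t + t'| * |t - t'| ≤ (|t| + |t'|) * |t - t'| := mul_le_mul_of_nonneg_right h2 h3
  have h5 : 0 ≤ |t + t'| * |t - t'| := mul_nonneg (abs_nonneg _) h3
  linarith

theorem uconv {f : ℕ → ℝ} (hE : En f) (hC : ∀ q : ℚ, Conv f q) : UConv f := by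
  intro ε hε hε1 T η hη
  have hkap := kap_pos
  set T' := max T 0 with hT'
  have hT0 : 0 ≤ T' := le_max_right _ _
  set c : ℝ := Real.sqrt (6 / kap) + (2 * T' + 1) with hc
  have hc0 : 0 < c := by
    have := Real.sqrt_nonneg (6 / kap)
    linarith
  obtain ⟨m, hm⟩ := exists_nat_ge (3 * c / η + 1)
  have hm1 : (1 : ℝ) ≤ m := by
    have : 0 ≤ 3 * c / η := by positivity
    linarith
  have hm0 : (0 : ℝ) < m := by linarith
  have hcm : c / m ≤ η / 3 := by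
    rw [div_le_iff₀ hm0]
    have : 3 * c / η ≤ m := by linarith
    rw [div_le_iff₀ hη] at this
    linarith
  obtain ⟨K, hK⟩ := exists_nat_ge (T' * m + 1)
  have h1 : ∀ᶠ N : ℕ in atTop, ∀ i ∈ Finset.Icc (-(K : ℤ)) K, ∀ h : ℕ, (N : ℝ) ^ ε ≤ h →
      (h : ℝ) ≤ (N : ℝ) ^ (1 - ε) →
      |Cm (th f (((i : ℚ) / (m : ℚ) : ℚ) : ℝ) h) N -
        Real.exp (-(((i : ℚ) / (m : ℚ) : ℚ) : ℝ) ^ 2 / 2)| ≤ η / 3 ∧
      |Sm (th f (((i : ℚ) / (m : ℚ) : ℚ) : ℝ) h) N| ≤ η / 3 := by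
    rw [eventually_all_finset]
    intro i _
    exact hC ((i : ℚ) / (m : ℚ)) ε hε hε1 (η / 3) (by positivity)
  filter_upwards [h1, En_use hE ε hε hε1, eventually_ge_atTop 1, ev_rpow 1 ε hε] with
    N a1 a2 a3 a4 h hh1 hh2 t ht
  have hN0 : (0 : ℝ) < N := by exact_mod_cast a3
  have htT : |t| ≤ T' := ht.trans (le_max_left _ _)
  obtain ⟨ht1, ht2⟩ := abs_le.1 htT
  set i := ⌊t * m⌋ with hi
  have i1 : (i : ℝ) ≤ t * m := Int.floor_le _
  have i2 : t * m < i + 1 := Int.lt_floor_add_one _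
  have hiK : i ∈ Finset.Icc (-(K : ℤ)) K := by
    rw [Finset.mem_Icc]
    have b1 : -(T' * m) ≤ t * m := by nlinarith
    have b2 : t * m ≤ T' * m := by nlinarith
    constructor
    · have : (-(K : ℝ)) ≤ i := by linarith
      exact_mod_cast this
    · have : (i : ℝ) ≤ K := by linarith
      exact_mod_cast this
  obtain ⟨b1, b2⟩ := a1 i hiK h hh1 hh2
  set t' : ℝ := (((i : ℚ) / (m : ℚ) : ℚ) : ℝ) with ht'
  have ht'' : t' = i / m := by
    rw [ht']
    push_cast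
    ring
  have hd : |t - t'| ≤ 1 / m := by
    have e1 : t - t' = (t * m - i) / m := by
      rw [ht'']
      field_simp
    rw [e1, abs_div, abs_of_pos hm0]
    refine div_le_div_of_nonneg_right ?_ hm0.le
    rw [abs_le]
    constructor <;> linarith
  have hm1' : 1 / (m : ℝ) ≤ 1 := by
    rw [div_le_one hm0]
    exact hm1
  have hh' : 1 ≤ h := by
    have : (1 : ℝ) ≤ h := a4.trans hh1
    exact_mod_cast this
  have hfr := th_freq f t t' N h hh' (a2 h hh2 h le_rfl)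
  have hfr2 : Real.sqrt ((∑ x ∈ Ico N (2 * N), (th f t h x - th f t' h x) ^ 2) / N) ≤
      Real.sqrt (6 / kap) / m := by
    have e1 : Real.sqrt (6 / kap) / m = Real.sqrt (6 / kap * (1 / (m : ℝ)) ^ 2) := by
      rw [Real.sqrt_mul (by positivity), Real.sqrt_sq (by positivity)]
      ring
    rw [e1]
    refine Real.sqrt_le_sqrt ?_
    rw [div_le_iff₀ hN0]
    refine hfr.trans (mul_le_mul_of_nonneg_right ?_ hN0.le)
    refine mul_le_mul_of_nonneg_left ?_ (by positivity)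
    rw [← sq_abs]
    exact pow_le_pow_left₀ (abs_nonneg _) hd 2
  have hexp : |Real.exp (-t' ^ 2 / 2) - Real.exp (-t ^ 2 / 2)| ≤ (2 * T' + 1) / m := by
    have c1 := exp_near t' t
    rw [abs_sub_comm t' t] at c1
    have c2 : |t'| ≤ T' + 1 := by
      have : |t'| ≤ |t| + |t - t'| := by
        have := abs_sub_abs_le_abs_sub t' t
        rw [abs_sub_comm t' t] at this
        linarith
      linarith
    calc _ ≤ (|t'| + |t|) * |t - t'| := c1
      _ ≤ (2 * T' + 1) * (1 / m) :=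
          mul_le_mul (by linarith) hd (abs_nonneg _) (by linarith)
      _ = (2 * T' + 1) / m := by ring
  have hsum : Real.sqrt (6 / kap) / m + (2 * T' + 1) / m = c / m := by rw [hc]; ring
  have hpos1 : 0 ≤ Real.sqrt (6 / kap) / m := by positivity
  have hpos2 : 0 ≤ (2 * T' + 1) / m := by positivity
  constructor
  · have d1 : |Cm (th f t h) N - Cm (th f t' h) N| ≤ Real.sqrt (6 / kap) / m :=
      (ang_change Real.cos cos_lip (th f t h) (th f t' h) N a3).trans hfr2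
    have e : Cm (th f t h) N - Real.exp (-t ^ 2 / 2) = (Cm (th f t h) N - Cm (th f t' h) N) +
        (Cm (th f t' h) N - Real.exp (-t' ^ 2 / 2)) +
        (Real.exp (-t' ^ 2 / 2) - Real.exp (-t ^ 2 / 2)) := by ring
    rw [e]
    refine (abs_add_three _ _ _).trans ?_
    linarith
  · have d1 : |Sm (th f t h) N - Sm (th f t' h) N| ≤ Real.sqrt (6 / kap) / m :=
      (ang_change Real.sin sin_lip (th f t h) (th f t' h) N a3).trans hfr2
    have e : Sm (th f t h) N = (Sm (th f t h) N - Sm (th f t' h) N) + Sm (th f t' h) N := by ring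
    rw [e]
    refine (abs_add_le _ _).trans ?_
    linarith

/-- **Convergence for almost every multiplicative function.** -/
theorem ae_uconv (a : ℕ → ℝ) (ha : ∀ n, a n ^ 2 = Pool.Agent.Y293.SF.mu n ^ 2) :
    ∀ᵐ ω ∂cm, En (fun n => a n * ch ω n) ∧ UConv fun n => a n * ch ω n := by
  have ha1 : ∀ n, |a n| ≤ 1 := by
    intro n
    have h1 : a n ^ 2 ≤ 1 := by
      rw [ha, ← sq_abs]
      exact pow_le_one₀ (abs_nonneg _) (Pool.Agent.Y293.SF.abs_mu_le n)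
    exact abs_le_one_iff_mul_self_le_one.2 (by rwa [← sq])
  have ha0 : ∀ n, a n ≠ 0 → Squarefree n := by
    intro n hn
    refine mu_ne n fun h0 => hn ?_
    have h1 := ha n
    rw [h0] at h1
    exact pow_eq_zero_iff two_ne_zero |>.1 (by rw [h1]; norm_num)
  have h1 : ∀ᵐ ω ∂cm, ∀ q : ℚ, GrC (fun n => a n * ch ω n) q := by
    rw [ae_all_iff]
    intro q
    unfold GrC
    rw [ae_all_iff]
    intro r
    rw [ae_all_iff]
    intro m
    rw [ae_all_iff]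
    intro j
    exact grid_as a ha (1 / ((r : ℝ) + 1)) (by positivity) q (m + 1) (by omega)
      (1 / ((j : ℝ) + 1)) (by positivity)
  filter_upwards [h1, main a ha1 ha0] with ω hω hmain
  have hE : En fun n => a n * ch ω n := by
    intro ε hε
    obtain ⟨c, C, hc, hC, h2⟩ := hmain ε hε
    have hsm : ∀ᶠ M : ℕ in atTop, C ≤ (M : ℝ) ^ c := ev_rpow C c hc
    filter_upwards [hsm, eventually_ge_atTop 1] with M h3 h4 r hr
    have hM0 : (0 : ℝ) < M := by exact_mod_cast h4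
    have h5 := (abs_le.1 (h2 M r h4 hr)).2
    have h6 : DD a M r ≤ r * M := by
      unfold DD
      calc ∑ x ∈ range M, ∑ j ∈ range r, a (x + j + 1) ^ 2 ≤
            ∑ _x ∈ range M, ∑ _j ∈ range r, (1 : ℝ) := by
            refine sum_le_sum fun x _ => sum_le_sum fun j _ => ?_
            rw [← sq_abs]
            exact pow_le_one₀ (abs_nonneg _) (ha1 _)
        _ = r * M := by
            simp only [sum_const, card_range, nsmul_eq_mul, mul_one]
            ring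
    have h7 : C * (r * M) * (M : ℝ) ^ (-c) ≤ r * M := by
      rw [Real.rpow_neg hM0.le, ← div_eq_mul_inv, div_le_iff₀ (by positivity)]
      have : 0 ≤ (r : ℝ) * M := by positivity
      nlinarith
    linarith
  exact ⟨hE, uconv hE fun q => interp hE (hω q)⟩

end Pool.Agent.Q163.CL
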