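import Pool.Agent.Q163.CL.Law

set_option autoImplicit false

/-!
# Convergence in distribution
-/

namespace Pool.Agent.Q163.CL

open Finset Filter Topology MeasureTheory ProbabilityTheory Pool.Agent.Q163.GC

/-- the normalised window sum -/
noncomputable def Zn (f : ℕ → ℝ) (H x : ℝ) : ℝ := Mf f x H / Real.sqrt (kap * H)

lemma Zn_meas (f : ℕ → ℝ) (H : ℝ) : Measurable (Zn f H) := (Mf_meas f H).div_const _

/-- the law of the normalised window sum, the centre being uniform on `[X, 2X]` -/
noncomputable def lw (f : ℕ → ℝ) (H X : ℝ) : Measure ℝ :=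
  if 0 < X then ((ENNReal.ofReal X)⁻¹ • (volume.restrict (Set.Icc X (2 * X)))).map (Zn f H)
  else Measure.dirac 0

lemma base_prob {X : ℝ} (hX : 0 < X) :
    IsProbabilityMeasure ((ENNReal.ofReal X)⁻¹ • (volume.restrict (Set.Icc X (2 * X)))) := by
  constructor
  rw [Measure.smul_apply, Measure.restrict_apply_univ, Real.volume_Icc, smul_eq_mul]
  have : 2 * X - X = X := by ring
  rw [this]
  exact ENNReal.inv_mul_cancel (by simpa using hX) ENNReal.ofReal_ne_top

instance lw_prob (f : ℕ → ℝ) (H X : ℝ) : IsProbabilityMeasure (lw f H X) := by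
  unfold lw
  split_ifs with hX
  · have := base_prob hX
    exact Measure.isProbabilityMeasure_map (Zn_meas f H).aemeasurable
  · infer_instance

lemma lw_char (f : ℕ → ℝ) (H X : ℝ) (hX : 0 < X) (t : ℝ) : charFun (lw f H X) t =
    ((1 / X * (∫ x in X..2 * X, Real.cos (t / Real.sqrt (kap * H) * Mf f x H)) : ℝ) : ℂ) +
    ((1 / X * (∫ x in X..2 * X, Real.sin (t / Real.sqrt (kap * H) * Mf f x H)) : ℝ) : ℂ) *
      Complex.I := by
  have hfin : IsFiniteMeasure (volume.restrict (Set.Icc X (2 * X))) :=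
    ⟨by rw [Measure.restrict_apply_univ, Real.volume_Icc]; exact ENNReal.ofReal_lt_top⟩
  rw [charFun_apply_real]
  unfold lw
  rw [if_pos hX, integral_map (Zn_meas f H).aemeasurable (by fun_prop), integral_smul_measure,
    ENNReal.toReal_inv, ENNReal.toReal_ofReal hX.le]
  have e1 : ∀ x, Complex.exp ((t : ℂ) * ((Zn f H x : ℝ) : ℂ) * Complex.I) =
      ((Real.cos (t / Real.sqrt (kap * H) * Mf f x H) : ℝ) : ℂ) +
      ((Real.sin (t / Real.sqrt (kap * H) * Mf f x H) : ℝ) : ℂ) * Complex.I := by
    intro x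
    have : (t : ℂ) * ((Zn f H x : ℝ) : ℂ) = ((t / Real.sqrt (kap * H) * Mf f x H : ℝ) : ℂ) := by
      unfold Zn
      rw [← Complex.ofReal_mul]
      congr 1
      ring
    rw [this, Complex.exp_mul_I, Complex.ofReal_cos, Complex.ofReal_sin]
  simp_rw [e1]
  have m0 : Measurable fun x => t / Real.sqrt (kap * H) * Mf f x H := (Mf_meas f H).const_mul _
  have i1 : Integrable (fun x => Real.cos (t / Real.sqrt (kap * H) * Mf f x H))
      (volume.restrict (Set.Icc X (2 * X))) :=
    Integrable.of_bound (Real.measurable_cos.comp m0).aestronglyMeasurable 1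
      (Eventually.of_forall fun x => Real.abs_cos_le_one _)
  have i2 : Integrable (fun x => Real.sin (t / Real.sqrt (kap * H) * Mf f x H))
      (volume.restrict (Set.Icc X (2 * X))) :=
    Integrable.of_bound (Real.measurable_sin.comp m0).aestronglyMeasurable 1
      (Eventually.of_forall fun x => Real.abs_sin_le_one _)
  rw [integral_add i1.ofReal (i2.ofReal.mul_const _), integral_mul_const]
  have c1 : ∫ x in Set.Icc X (2 * X), ((Real.cos (t / Real.sqrt (kap * H) * Mf f x H) : ℝ) : ℂ) =
      ((∫ x in X..2 * X, Real.cos (t / Real.sqrt (kap * H) * Mf f x H) : ℝ) : ℂ) := by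
    rw [intervalIntegral.integral_of_le (by linarith), ← integral_Icc_eq_integral_Ioc]
    exact integral_ofReal
  have c2 : ∫ x in Set.Icc X (2 * X), ((Real.sin (t / Real.sqrt (kap * H) * Mf f x H) : ℝ) : ℂ) =
      ((∫ x in X..2 * X, Real.sin (t / Real.sqrt (kap * H) * Mf f x H) : ℝ) : ℂ) := by
    rw [intervalIntegral.integral_of_le (by linarith), ← integral_Icc_eq_integral_Ioc]
    exact integral_ofReal
  rw [c1, c2, Complex.real_smul]
  push_cast
  ring

lemma lw_Iic (f : ℕ → ℝ) (H X : ℝ) (hX : 0 < X) (t : ℝ) : (lw f H X).real (Set.Iic t) =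
    (volume {x : ℝ | x ∈ Set.Icc X (2 * X) ∧ Zn f H x ≤ t}).toReal / X := by
  unfold lw Measure.real
  rw [if_pos hX, Measure.map_apply (Zn_meas f H) measurableSet_Iic, Measure.smul_apply, smul_eq_mul,
    ENNReal.toReal_mul, ENNReal.toReal_inv, ENNReal.toReal_ofReal hX.le,
    Measure.restrict_apply (Zn_meas f H measurableSet_Iic), inv_mul_eq_div]
  congr 3
  ext x
  simp only [Set.mem_inter_iff, Set.mem_preimage, Set.mem_Iic, Set.mem_Icc, Set.mem_ofPred_eq]
  tauto

/-- **Convergence in distribution to the normal law.** -/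
theorem law {f : ℕ → ℝ} (hU : UConv f) (ε : ℝ) (hε : 0 < ε) (hε1 : ε < 1 / 2) (H : ℝ → ℝ)
    (hH : ∀ᶠ X : ℝ in atTop, X ^ ε < H X ∧ H X < X ^ (1 - ε)) (t : ℝ) :
    Tendsto (fun X : ℝ => (volume {x : ℝ | x ∈ Set.Icc X (2 * X) ∧ Zn f (H X) x ≤ t}).toReal / X)
      atTop (𝓝 (cdf (gaussianReal 0 1) t)) := by
  have h1 : Tendsto (fun X : ℝ => (lw f (H X) X).real (Set.Iic t)) atTop
      (𝓝 (cdf (gaussianReal 0 1) t)) := by
    refine tendsto_of_seq_tendsto fun u hu => ?_
    set P : ℕ → ProbabilityMeasure ℝ := fun n => ⟨lw f (H (u n)) (u n), lw_prob _ _ _⟩ with hP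
    set G : ProbabilityMeasure ℝ := ⟨gaussianReal 0 1, inferInstance⟩ with hG
    have h2 : Tendsto P atTop (𝓝 G) := by
      rw [ProbabilityMeasure.tendsto_iff_tendsto_charFun]
      intro s
      have h3 : charFun (G : Measure ℝ) s = ((Real.exp (-s ^ 2 / 2) : ℝ) : ℂ) + ((0 : ℝ) : ℂ) * Complex.I := by
        show charFun (gaussianReal 0 1) s = _
        rw [charFun_gaussianReal]
        push_cast
        ring_nf
      rw [h3]
      have h4 : Tendsto (fun X : ℝ => 1 / X * ∫ x in X..2 * X,
          Real.cos (s / Real.sqrt (kap * (H X)) * Mf f x (H X))) atTop (𝓝 (Real.exp (-s ^ 2 / 2))) := by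
        rw [Metric.tendsto_nhds]
        intro η hη
        filter_upwards [real_conv hU ε hε hε1 s (η / 2) (by positivity), hH] with X h5 h6
        rw [Real.dist_eq]
        have := (h5 (H X) h6.1 h6.2).1
        linarith
      have h4' : Tendsto (fun X : ℝ => 1 / X * ∫ x in X..2 * X,
          Real.sin (s / Real.sqrt (kap * (H X)) * Mf f x (H X))) atTop (𝓝 0) := by
        rw [Metric.tendsto_nhds]
        intro η hη
        filter_upwards [real_conv hU ε hε hε1 s (η / 2) (by positivity), hH] with X h5 h6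
        rw [Real.dist_eq, sub_zero]
        have := (h5 (H X) h6.1 h6.2).2
        linarith
      have h7 : Tendsto (fun n => ((1 / (u n) * ∫ x in (u n)..2 * (u n),
          Real.cos (s / Real.sqrt (kap * (H (u n))) * Mf f x (H (u n))) : ℝ) : ℂ) +
          ((1 / (u n) * ∫ x in (u n)..2 * (u n),
          Real.sin (s / Real.sqrt (kap * (H (u n))) * Mf f x (H (u n))) : ℝ) : ℂ) * Complex.I) atTop
          (𝓝 (((Real.exp (-s ^ 2 / 2) : ℝ) : ℂ) + ((0 : ℝ) : ℂ) * Complex.I)) := by
        refine Tendsto.add ?_ (Tendsto.mul_const _ ?_)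
        · exact (Complex.continuous_ofReal.tendsto _).comp (h4.comp hu)
        · exact (Complex.continuous_ofReal.tendsto _).comp (h4'.comp hu)
      refine h7.congr' ?_
      filter_upwards [hu.eventually_gt_atTop 0] with n hn
      exact (lw_char f (H (u n)) (u n) hn s).symm
    have hfr : (G : Measure ℝ) (frontier (Set.Iic t)) = 0 := by
      show (gaussianReal 0 1) (frontier (Set.Iic t)) = 0
      have := nullSingletonClass_gaussianReal (μ := 0) (v := 1) one_ne_zero
      rw [frontier_Iic]
      exact measure_singleton t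
    have h8 := ProbabilityMeasure.tendsto_measure_of_null_frontier_of_tendsto' h2 hfr
    have h9 : Tendsto (fun n => ((P n : Measure ℝ) (Set.Iic t)).toReal) atTop
        (𝓝 ((G : Measure ℝ) (Set.Iic t)).toReal) :=
      (ENNReal.tendsto_toReal (measure_ne_top _ _)).comp h8
    have h10 : cdf (gaussianReal 0 1) t = ((G : Measure ℝ) (Set.Iic t)).toReal := by
      rw [cdf_eq_real]
      rfl
    rw [h10]
    exact h9
  refine h1.congr' ?_
  filter_upwards [eventually_gt_atTop 0] with X hX
  exact lw_Iic f (H X) X hX t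

end Pool.Agent.Q163.CL
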