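import Pool.Agent.Q163.CL.Pairs

set_option autoImplicit false

/-!
# Almost sure convergence of the empirical characteristic function
-/

namespace Pool.Agent.Q163.CL

open Finset Filter Topology MeasureTheory Pool.Agent.Q163.RP Pool.Agent.Q163.RX Pool.Agent.Q163.GC

/-- the angle of a window -/
noncomputable def th (f : ℕ → ℝ) (t : ℝ) (h x : ℕ) : ℝ := t / Real.sqrt (kap * h) * W f x h

/-- the geometric grid -/
noncomputable def gr (m k : ℕ) : ℕ := ⌊(1 + 1 / (m : ℝ)) ^ k⌋₊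

/-- the defect -/
noncomputable def df (f : ℕ → ℝ) (t : ℝ) (N h : ℕ) : ℝ :=
  (Cm (th f t h) N - Real.exp (-t ^ 2 / 2)) ^ 2 + Sm (th f t h) N ^ 2

lemma df_nonneg (f : ℕ → ℝ) (t : ℝ) (N h : ℕ) : 0 ≤ df f t N h :=
  add_nonneg (sq_nonneg _) (sq_nonneg _)

lemma abs_Cm_le (θ : ℕ → ℝ) (N : ℕ) : |Cm θ N| ≤ 1 := by
  unfold Cm
  rw [abs_div, abs_of_nonneg (Nat.cast_nonneg N : (0 : ℝ) ≤ (N : ℝ))]
  refine div_le_one_of_le₀ ?_ (Nat.cast_nonneg N)
  refine (abs_sum_le_sum_abs _ _).trans ?_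
  refine (sum_le_sum (g := fun _ => (1 : ℝ)) fun x _ => Real.abs_cos_le_one _).trans ?_
  rw [sum_const, Nat.card_Ico, nsmul_eq_mul, mul_one]
  exact_mod_cast (by omega : 2 * N - N ≤ N)

lemma abs_Sm_le (θ : ℕ → ℝ) (N : ℕ) : |Sm θ N| ≤ 1 := by
  unfold Sm
  rw [abs_div, abs_of_nonneg (Nat.cast_nonneg N : (0 : ℝ) ≤ (N : ℝ))]
  refine div_le_one_of_le₀ ?_ (Nat.cast_nonneg N)
  refine (abs_sum_le_sum_abs _ _).trans ?_
  refine (sum_le_sum (g := fun _ => (1 : ℝ)) fun x _ => Real.abs_sin_le_one _).trans ?_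
  rw [sum_const, Nat.card_Ico, nsmul_eq_mul, mul_one]
  exact_mod_cast (by omega : 2 * N - N ≤ N)

lemma df_le (f : ℕ → ℝ) (t : ℝ) (N h : ℕ) : df f t N h ≤ 5 := by
  unfold df
  have h1 := abs_le.1 (abs_Cm_le (th f t h) N)
  have h2 := abs_le.1 (abs_Sm_le (th f t h) N)
  have h3 : 0 < Real.exp (-t ^ 2 / 2) := Real.exp_pos _
  have h4 : Real.exp (-t ^ 2 / 2) ≤ 1 := Real.exp_le_one_iff.2 (by nlinarith [sq_nonneg t])
  nlinarith

lemma df_meas (a : ℕ → ℝ) (t : ℝ) (N h : ℕ) : Measurable fun ω => df (fun n => a n * ch ω n) t N h := by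
  have h1 : ∀ x, Measurable fun ω => th (fun n => a n * ch ω n) t h x := by
    intro x
    unfold th W
    exact (Finset.measurable_fun_sum _ fun j _ => (meas_ch _).const_mul _).const_mul _
  unfold df Cm Sm
  refine Measurable.add (Measurable.pow_const (Measurable.sub_const ?_ _) 2) (Measurable.pow_const ?_ 2)
  · exact (Finset.measurable_fun_sum _ fun x _ => Real.measurable_cos.comp (h1 x)).div_const _
  · exact (Finset.measurable_fun_sum _ fun x _ => Real.measurable_sin.comp (h1 x)).div_const _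

lemma gr_log (m : ℕ) (hm : 1 ≤ m) : ∃ c : ℝ, 0 < c ∧ ∀ᶠ k : ℕ in atTop, c * k ≤ Real.log (gr m k) := by
  have hmR : (0 : ℝ) < m := by exact_mod_cast hm
  have hq1 : (1 : ℝ) < 1 + 1 / (m : ℝ) := by
    have : 0 < 1 / (m : ℝ) := by positivity
    linarith
  have hlog : 0 < Real.log (1 + 1 / (m : ℝ)) := Real.log_pos hq1
  refine ⟨Real.log (1 + 1 / (m : ℝ)) / 2, by positivity, ?_⟩
  obtain ⟨k0, hk0⟩ := exists_nat_ge (2 * Real.log 2 / Real.log (1 + 1 / (m : ℝ)))
  filter_upwards [eventually_ge_atTop k0] with k hk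
  have hkR : 2 * Real.log 2 / Real.log (1 + 1 / (m : ℝ)) ≤ k := hk0.trans (by exact_mod_cast hk)
  rw [div_le_iff₀ hlog] at hkR
  have hp : (1 : ℝ) ≤ (1 + 1 / (m : ℝ)) ^ k := one_le_pow₀ hq1.le
  have h1 : (1 + 1 / (m : ℝ)) ^ k / 2 ≤ gr m k := by
    unfold gr
    have := Nat.lt_floor_add_one ((1 + 1 / (m : ℝ)) ^ k)
    have h2 : (1 : ℝ) ≤ (⌊(1 + 1 / (m : ℝ)) ^ k⌋₊ : ℝ) := by
      exact_mod_cast Nat.le_floor (by exact_mod_cast hp)
    linarith
  have h3 : Real.log ((1 + 1 / (m : ℝ)) ^ k / 2) ≤ Real.log (gr m k) :=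
    Real.log_le_log (by positivity) h1
  rw [Real.log_div (by positivity) (by norm_num), Real.log_pow] at h3
  linarith

/-- convergence along the grid -/
theorem grid_as (a : ℕ → ℝ) (ha : ∀ n, a n ^ 2 = Pool.Agent.Y293.SF.mu n ^ 2) (ε : ℝ) (hε : 0 < ε)
    (t : ℝ) (m : ℕ) (hm : 1 ≤ m) (η : ℝ) (hη : 0 < η) : ∀ᵐ ω ∂cm, ∀ᶠ k : ℕ in atTop, ∀ l ≤ k,
      (gr m k : ℝ) ^ ε ≤ gr m l → (gr m l : ℝ) ≤ (gr m k : ℝ) ^ (1 - ε) →
        df (fun n => a n * ch ω n) t (gr m k) (gr m l) < η := by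
  classical
  rcases eq_or_ne t 0 with rfl | ht
  · refine Eventually.of_forall fun ω => ?_
    filter_upwards with k l _ _ _
    have hN : 1 ≤ gr m k := by
      unfold gr
      refine Nat.le_floor ?_
      rw [Nat.cast_one]
      exact one_le_pow₀ (by
        have : 0 ≤ 1 / (m : ℝ) := by positivity
        linarith)
    have h0 : ((gr m k : ℕ) : ℝ) ≠ 0 := by
      have : gr m k ≠ 0 := by omega
      exact_mod_cast this
    have h1 : df (fun n => a n * ch ω n) 0 (gr m k) (gr m l) = 0 := by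
      unfold df Cm Sm th
      simp only [zero_div, zero_mul, Real.cos_zero, Real.sin_zero, sum_const, Nat.card_Ico,
        nsmul_eq_mul, mul_one, mul_zero]
      have e1 : 2 * gr m k - gr m k = gr m k := by omega
      rw [e1, div_self h0]
      norm_num
    rw [h1]
    exact hη
  obtain ⟨C, hC, hmom⟩ := moment a ha ε hε t ht
  obtain ⟨c, hc, hlog⟩ := gr_log m hm
  have hgr : Tendsto (gr m) atTop atTop := by
    rw [tendsto_atTop]
    intro b
    have hq1 : (1 : ℝ) < 1 + 1 / (m : ℝ) := by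
      have : 0 < 1 / (m : ℝ) := by positivity
      linarith
    filter_upwards [(tendsto_pow_atTop_atTop_of_one_lt hq1).eventually_ge_atTop (b : ℝ)] with k hk
    exact Nat.le_floor hk
  set T : ℕ → Finset ℕ := fun k => range (k + 1) with hT
  set E : ℕ → ℕ → Set (ℕ → Bool) := fun k l => {ω | ((gr m k : ℝ) ^ ε ≤ gr m l ∧
    (gr m l : ℝ) ≤ (gr m k : ℝ) ^ (1 - ε)) ∧
    η ≤ df (fun n => a n * ch ω n) t (gr m k) (gr m l)} with hE
  have hb : ∀ᶠ k : ℕ in atTop, ∀ l ∈ T k, cm.real (E k l) ≤ 2 / ((T k).card * (k : ℝ) ^ 2) := by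
    obtain ⟨k0, hk0⟩ := exists_nat_ge (C / (η * c ^ 4))
    filter_upwards [hgr.eventually hmom, hlog, eventually_ge_atTop (k0 + 1)] with k h1 h2 h3 l hl
    have hk1 : (1 : ℝ) ≤ k := by exact_mod_cast (by omega : 1 ≤ k)
    have hkC : C / (η * c ^ 4) ≤ k := hk0.trans (by exact_mod_cast (by omega : k0 ≤ k))
    by_cases hcd : (gr m k : ℝ) ^ ε ≤ gr m l ∧ (gr m l : ℝ) ≤ (gr m k : ℝ) ^ (1 - ε)
    swap
    · have : E k l = ∅ := by
        rw [hE]
        ext ω
        simp only [Set.mem_ofPred_eq, Set.mem_empty_iff_false, iff_false, not_and]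
        exact fun h => absurd h hcd
      rw [this, measureReal_empty]
      positivity
    have h4 := h1 (gr m l) hcd.1 hcd.2
    have hmono : cm.real (E k l) ≤ cm.real {ω | η ≤ df (fun n => a n * ch ω n) t (gr m k) (gr m l)} :=
      measureReal_mono (fun ω hω => hω.2)
    have hint : Integrable (fun ω => df (fun n => a n * ch ω n) t (gr m k) (gr m l)) cm := by
      refine Integrable.of_bound (df_meas a t _ _).aestronglyMeasurable 5
        (Eventually.of_forall fun ω => ?_)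
      rw [Real.norm_eq_abs, abs_of_nonneg (df_nonneg _ _ _ _)]
      exact df_le _ _ _ _
    have hmk := mul_meas_ge_le_integral_of_nonneg (Eventually.of_forall fun ω =>
      df_nonneg (fun n => a n * ch ω n) t (gr m k) (gr m l)) hint η
    have heq : ∫ ω, df (fun n => a n * ch ω n) t (gr m k) (gr m l) ∂cm =
        ∫ ω, ((Cm (fun x => t / Real.sqrt (kap * (gr m l)) * WI a (Iw x (gr m l)) ω) (gr m k) -
          Real.exp (-t ^ 2 / 2)) ^ 2 +
          Sm (fun x => t / Real.sqrt (kap * (gr m l)) * WI a (Iw x (gr m l)) ω) (gr m k) ^ 2) ∂cm := by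
      refine integral_congr_ae (Eventually.of_forall fun ω => ?_)
      simp only [WI_Iw]
      rfl
    rw [heq] at hmk
    have hck : 0 < c * k := by positivity
    have h5 : C / Real.log (gr m k) ^ 4 ≤ C / (c * k) ^ 4 :=
      div_le_div_of_nonneg_left hC (by positivity) (pow_le_pow_left₀ hck.le h2 4)
    have h6 : η * cm.real (E k l) ≤ C / (c * k) ^ 4 :=
      (mul_le_mul_of_nonneg_left hmono hη.le).trans (hmk.trans (h4.trans h5))
    have h7 : cm.real (E k l) ≤ C / (c * k) ^ 4 / η := by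
      rw [le_div_iff₀ hη, mul_comm]
      exact h6
    refine h7.trans ?_
    rw [hT, card_range]
    push_cast
    rw [div_div, div_le_div_iff₀ (by positivity) (by positivity)]
    rw [div_le_iff₀ (by positivity)] at hkC
    calc C * (((k : ℝ) + 1) * (k : ℝ) ^ 2) ≤ C * ((2 * k) * (k : ℝ) ^ 2) := by
          refine mul_le_mul_of_nonneg_left ?_ hC
          exact mul_le_mul_of_nonneg_right (by linarith) (by positivity)
      _ = 2 * (k : ℝ) ^ 3 * C := by ring
      _ ≤ 2 * (k : ℝ) ^ 3 * (k * (η * c ^ 4)) := mul_le_mul_of_nonneg_left hkC (by positivity)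
      _ = 2 * ((c * k) ^ 4 * η) := by ring
  filter_upwards [bcf T E hb] with ω hω
  filter_upwards [hω] with k hk l hl h1 h2
  have h3 := hk l (by rw [hT, mem_range]; omega)
  by_contra hcon
  exact h3 ⟨⟨h1, h2⟩, not_lt.1 hcon⟩

end Pool.Agent.Q163.CL
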