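import Pool.Agent.Q163.CL.Grid

set_option autoImplicit false

/-!
# From the grid to all windows
-/

namespace Pool.Agent.Q163.CL

open Finset Filter Topology MeasureTheory Pool.Agent.Q163.GC

/-- changing the angle -/
lemma ang_change (F : ℝ → ℝ) (hF : ∀ u v, |F u - F v| ≤ |u - v|) (θ θ' : ℕ → ℝ) (N : ℕ)
    (hN : 1 ≤ N) : |(∑ x ∈ Ico N (2 * N), F (θ x)) / N - (∑ x ∈ Ico N (2 * N), F (θ' x)) / N| ≤
      Real.sqrt ((∑ x ∈ Ico N (2 * N), (θ x - θ' x) ^ 2) / N) := by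
  have hN0 : (0 : ℝ) < N := by exact_mod_cast hN
  have hcard : ((Ico N (2 * N)).card : ℝ) = N := by
    rw [Nat.card_Ico]
    congr 1
    omega
  refine Real.le_sqrt_of_sq_le ?_
  rw [sq_abs, ← sub_div, ← sum_sub_distrib, div_pow, div_le_div_iff₀ (by positivity) hN0]
  have h1 : (∑ x ∈ Ico N (2 * N), (F (θ x) - F (θ' x))) ^ 2 ≤
      N * ∑ x ∈ Ico N (2 * N), (θ x - θ' x) ^ 2 := by
    have h2 := sum_mul_sq_le_sq_mul_sq (Ico N (2 * N)) (fun _ => (1 : ℝ)) (fun x => F (θ x) - F (θ' x))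
    simp only [one_mul, one_pow, sum_const, nsmul_eq_mul, mul_one, hcard] at h2
    refine h2.trans (mul_le_mul_of_nonneg_left (sum_le_sum fun x _ => ?_) hN0.le)
    exact sq_le_sq.2 (hF _ _)
  calc (∑ x ∈ Ico N (2 * N), (F (θ x) - F (θ' x))) ^ 2 * N ≤
        (N * ∑ x ∈ Ico N (2 * N), (θ x - θ' x) ^ 2) * N := mul_le_mul_of_nonneg_right h1 hN0.le
    _ = (∑ x ∈ Ico N (2 * N), (θ x - θ' x) ^ 2) * (N : ℝ) ^ 2 := by ring

lemma cos_lip (u v : ℝ) : |Real.cos u - Real.cos v| ≤ |u - v| := by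
  rw [Real.cos_sub_cos, abs_mul, abs_mul, abs_neg, abs_two]
  have h1 := Real.abs_sin_le_one ((u + v) / 2)
  have h2 := Real.abs_sin_le_abs (x := (u - v) / 2)
  rw [abs_div, abs_two] at h2
  nlinarith [abs_nonneg (Real.sin ((u + v) / 2)), abs_nonneg (Real.sin ((u - v) / 2))]

lemma sin_lip (u v : ℝ) : |Real.sin u - Real.sin v| ≤ |u - v| := by
  rw [Real.sin_sub_sin, abs_mul, abs_mul, abs_two]
  have h1 := Real.abs_cos_le_one ((u + v) / 2)
  have h2 := Real.abs_sin_le_abs (x := (u - v) / 2)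
  rw [abs_div, abs_two] at h2
  nlinarith [abs_nonneg (Real.cos ((u + v) / 2)), abs_nonneg (Real.sin ((u - v) / 2))]

/-- changing the range -/
lemma range_change (g : ℕ → ℝ) (hg : ∀ x, |g x| ≤ 1) (N N' : ℕ) (hN' : 1 ≤ N') (hNN : N' ≤ N) :
    |(∑ x ∈ Ico N (2 * N), g x) / N - (∑ x ∈ Ico N' (2 * N'), g x) / N'| ≤
      4 * ((N : ℝ) - N') / N := by
  have hN0' : (0 : ℝ) < N' := by exact_mod_cast hN'
  have hNNR : (N' : ℝ) ≤ N := by exact_mod_cast hNN
  have hN0 : (0 : ℝ) < N := by linarith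
  have hb : ∀ p q : ℕ, p ≤ q → |∑ x ∈ Ico p q, g x| ≤ (q : ℝ) - p := by
    intro p q hpq
    refine (abs_sum_le_sum_abs _ _).trans ((sum_le_sum fun x _ => hg x).trans ?_)
    rw [sum_const, Nat.card_Ico, nsmul_eq_mul, mul_one, Nat.cast_sub hpq]
  have e1 : ∑ x ∈ Ico N (2 * N), g x - ∑ x ∈ Ico N' (2 * N'), g x =
      ∑ x ∈ Ico (2 * N') (2 * N), g x - ∑ x ∈ Ico N' N, g x := by
    rw [sum_Ico_eq_sub _ (by omega : N ≤ 2 * N), sum_Ico_eq_sub _ (by omega : N' ≤ 2 * N'),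
      sum_Ico_eq_sub _ (by omega : 2 * N' ≤ 2 * N), sum_Ico_eq_sub _ hNN]
    ring
  have e2 : (∑ x ∈ Ico N (2 * N), g x) / N - (∑ x ∈ Ico N' (2 * N'), g x) / N' =
      ((∑ x ∈ Ico (2 * N') (2 * N), g x - ∑ x ∈ Ico N' N, g x) -
        (∑ x ∈ Ico N' (2 * N'), g x) * (((N : ℝ) - N') / N')) / N := by
    rw [← e1]
    field_simp
    ring
  rw [e2, abs_div, abs_of_pos hN0]
  refine div_le_div_of_nonneg_right ?_ hN0.le
  have h1 := hb (2 * N') (2 * N) (by omega)
  have h2 := hb N' N hNN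
  have h3 := hb N' (2 * N') (by omega)
  push_cast at h1 h3
  have h4 : |(∑ x ∈ Ico N' (2 * N'), g x) * (((N : ℝ) - N') / N')| ≤ (N : ℝ) - N' := by
    rw [abs_mul, abs_of_nonneg (div_nonneg (by linarith) hN0'.le : 0 ≤ ((N : ℝ) - N') / N')]
    calc |∑ x ∈ Ico N' (2 * N'), g x| * (((N : ℝ) - N') / N') ≤ N' * (((N : ℝ) - N') / N') := by
          refine mul_le_mul_of_nonneg_right (by linarith) (div_nonneg (by linarith) hN0'.le)
      _ = (N : ℝ) - N' := by field_simp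
  refine (abs_sub _ _).trans ?_
  have h5 := abs_sub (∑ x ∈ Ico (2 * N') (2 * N), g x) (∑ x ∈ Ico N' N, g x)
  linarith

/-- bounded energy of the windows -/
def En (f : ℕ → ℝ) : Prop := ∀ ε : ℝ, 0 < ε → ∀ᶠ M : ℕ in atTop, ∀ r : ℕ,
  (r : ℝ) ≤ (M : ℝ) ^ (1 - ε) → BB f M r ≤ 2 * r * M

lemma shift_energy (f : ℕ → ℝ) (N s r : ℕ) (hs : s ≤ N) :
    ∑ x ∈ Ico N (2 * N), W f (x + s) r ^ 2 ≤ BB f (3 * N) r := by
  unfold BB
  rw [← sum_image (s := Ico N (2 * N)) (g := fun x => x + s) (f := fun y => W f y r ^ 2)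
    (fun a _ b _ hab => by simpa using hab)]
  refine sum_le_sum_of_subset_of_nonneg ?_ fun _ _ _ => sq_nonneg _
  intro y hy
  obtain ⟨x, hx, rfl⟩ := mem_image.1 hy
  rw [mem_Ico] at hx
  rw [mem_range]
  omega

lemma W_split (f : ℕ → ℝ) (x h' r : ℕ) : W f x (h' + r) = W f x h' + W f (x + h') r := by
  unfold W
  rw [sum_range_add]
  congr 1
  refine sum_congr rfl fun j _ => ?_
  congr 1
  omega

/-- the energy of the difference of the angles, changing the length -/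
lemma th_len (f : ℕ → ℝ) (t : ℝ) (N h h' : ℕ) (hh' : 1 ≤ h') (hhh : h' ≤ h) (hhN : h ≤ N)
    (hE : ∀ r : ℕ, r ≤ h → BB f (3 * N) r ≤ 2 * r * ((3 * N : ℕ) : ℝ)) :
    ∑ x ∈ Ico N (2 * N), (th f t h x - th f t h' x) ^ 2 ≤
      24 * (t ^ 2 / kap) * (((h : ℝ) - h') / h) * N := by
  have hkap := kap_pos
  have hh0' : (0 : ℝ) < h' := by exact_mod_cast hh'
  have hhhR : (h' : ℝ) ≤ h := by exact_mod_cast hhh
  have hh0 : (0 : ℝ) < h := by linarith
  obtain ⟨r, hr⟩ := Nat.exists_eq_add_of_le hhh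
  have hrR : (r : ℝ) = (h : ℝ) - h' := by
    rw [hr]
    push_cast
    ring
  set α := t / Real.sqrt (kap * h) with hα
  set β := t / Real.sqrt (kap * h') with hβ
  have e1 : ∀ x, (th f t h x - th f t h' x) ^ 2 ≤
      2 * α ^ 2 * W f (x + h') r ^ 2 + 2 * (α - β) ^ 2 * W f x h' ^ 2 := by
    intro x
    have e2 : th f t h x - th f t h' x = α * W f (x + h') r + (α - β) * W f x h' := by
      unfold th
      rw [hr, W_split, ← hr]
      ring
    rw [e2]
    nlinarith [sq_nonneg (α * W f (x + h') r - (α - β) * W f x h')]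
  refine (sum_le_sum fun x _ => e1 x).trans ?_
  rw [sum_add_distrib, ← mul_sum, ← mul_sum]
  have b1 : ∑ x ∈ Ico N (2 * N), W f (x + h') r ^ 2 ≤ 6 * ((h : ℝ) - h') * N := by
    refine (shift_energy f N h' r (by omega)).trans ((hE r (by omega)).trans (le_of_eq ?_))
    rw [hrR]
    push_cast
    ring
  have b2 : ∑ x ∈ Ico N (2 * N), W f x h' ^ 2 ≤ 6 * h' * N := by
    have := shift_energy f N 0 h' (by omega)
    simp only [add_zero] at this
    refine this.trans ((hE h' hhh).trans (le_of_eq ?_))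
    push_cast
    ring
  have c1 : α ^ 2 = t ^ 2 / kap / h := by
    rw [hα, div_pow, Real.sq_sqrt (by positivity)]
    field_simp
  have c2 : (α - β) ^ 2 ≤ t ^ 2 / kap * (((h : ℝ) - h') / h) / h' := by
    have d1 : α = t / Real.sqrt kap / Real.sqrt h := by
      rw [hα, Real.sqrt_mul hkap.le, div_div]
    have d2 : β = t / Real.sqrt kap / Real.sqrt h' := by
      rw [hβ, Real.sqrt_mul hkap.le, div_div]
    have s1 : 0 < Real.sqrt h := Real.sqrt_pos.2 hh0
    have s2 : 0 < Real.sqrt h' := Real.sqrt_pos.2 hh0'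
    have s3 : Real.sqrt h' ≤ Real.sqrt h := Real.sqrt_le_sqrt hhhR
    have s4 : Real.sqrt h ^ 2 = h := Real.sq_sqrt hh0.le
    have s5 : Real.sqrt h' ^ 2 = h' := Real.sq_sqrt hh0'.le
    have sk : Real.sqrt kap ^ 2 = kap := Real.sq_sqrt hkap.le
    have sk0 : 0 < Real.sqrt kap := Real.sqrt_pos.2 hkap
    have d3 : (α - β) ^ 2 = t ^ 2 / kap * (Real.sqrt h - Real.sqrt h') ^ 2 / (h * h') := by
      rw [d1, d2]
      have : t / Real.sqrt kap / Real.sqrt h - t / Real.sqrt kap / Real.sqrt h' =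
          -(t / Real.sqrt kap * (Real.sqrt h - Real.sqrt h') / (Real.sqrt h * Real.sqrt h')) := by
        field_simp
        ring
      rw [this, neg_sq, div_pow, mul_pow, div_pow, mul_pow, sk, s4, s5]
    rw [d3]
    have d4 : (Real.sqrt h - Real.sqrt h') ^ 2 ≤ (h : ℝ) - h' := by
      nlinarith
    calc t ^ 2 / kap * (Real.sqrt h - Real.sqrt h') ^ 2 / (h * h') ≤
          t ^ 2 / kap * ((h : ℝ) - h') / (h * h') := by
          refine div_le_div_of_nonneg_right ?_ (by positivity)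
          exact mul_le_mul_of_nonneg_left d4 (by positivity)
      _ = t ^ 2 / kap * (((h : ℝ) - h') / h) / h' := by
          field_simp
  calc 2 * α ^ 2 * ∑ x ∈ Ico N (2 * N), W f (x + h') r ^ 2 +
        2 * (α - β) ^ 2 * ∑ x ∈ Ico N (2 * N), W f x h' ^ 2
      ≤ 2 * (t ^ 2 / kap / h) * (6 * ((h : ℝ) - h') * N) +
        2 * (t ^ 2 / kap * (((h : ℝ) - h') / h) / h') * (6 * h' * N) := by
        refine add_le_add ?_ ?_
        · rw [c1]
          exact mul_le_mul_of_nonneg_left b1 (by positivity)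
        · refine mul_le_mul (mul_le_mul_of_nonneg_left c2 (by norm_num)) b2
            (sum_nonneg fun _ _ => sq_nonneg _) ?_
          have : 0 ≤ (h : ℝ) - h' := by linarith
          positivity
    _ = 24 * (t ^ 2 / kap) * (((h : ℝ) - h') / h) * N := by
        field_simp
        ring

/-- the energy of the difference of the angles, changing the frequency -/
lemma th_freq (f : ℕ → ℝ) (t t' : ℝ) (N h : ℕ) (hh : 1 ≤ h)
    (hE : BB f (3 * N) h ≤ 2 * h * ((3 * N : ℕ) : ℝ)) :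
    ∑ x ∈ Ico N (2 * N), (th f t h x - th f t' h x) ^ 2 ≤ 6 / kap * (t - t') ^ 2 * N := by
  have hkap := kap_pos
  have hh0 : (0 : ℝ) < h := by exact_mod_cast hh
  have e1 : ∀ x, (th f t h x - th f t' h x) ^ 2 = (t - t') ^ 2 / (kap * h) * W f x h ^ 2 := by
    intro x
    unfold th
    have : t / Real.sqrt (kap * h) * W f x h - t' / Real.sqrt (kap * h) * W f x h =
        (t - t') / Real.sqrt (kap * h) * W f x h := by ring
    rw [this, mul_pow, div_pow, Real.sq_sqrt (by positivity)]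
  simp_rw [e1]
  rw [← mul_sum]
  have b2 : ∑ x ∈ Ico N (2 * N), W f x h ^ 2 ≤ 6 * h * N := by
    have := shift_energy f N 0 h (by omega)
    simp only [add_zero] at this
    refine this.trans (hE.trans (le_of_eq ?_))
    push_cast
    ring
  calc (t - t') ^ 2 / (kap * h) * ∑ x ∈ Ico N (2 * N), W f x h ^ 2 ≤
        (t - t') ^ 2 / (kap * h) * (6 * h * N) := mul_le_mul_of_nonneg_left b2 (by positivity)
    _ = 6 / kap * (t - t') ^ 2 * N := by
        field_simp

end Pool.Agent.Q163.CL
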