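import Pool.Agent.Q163.CL.Conv
import Pool.Agent.Q163.GC.Real

set_option autoImplicit false

/-!
# Real windows and the law
-/

namespace Pool.Agent.Q163.CL

open Finset Filter Topology MeasureTheory Pool.Agent.Q163.GC

lemma Mf_meas (f : ℕ → ℝ) (H : ℝ) : Measurable fun x => Mf f x H := by
  classical
  refine measurable_of_tendsto_metrizable
    (f := fun (K : ℕ) (x : ℝ) => ∑ n ∈ range K, if |(n : ℝ) - x| < H / 2 then f n else 0) ?_ ?_
  · intro K
    refine Finset.measurable_fun_sum _ fun n _ => ?_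
    refine Measurable.ite ?_ measurable_const measurable_const
    exact measurableSet_lt ((measurable_const.sub measurable_id).abs) measurable_const
  · rw [tendsto_pi_nhds]
    intro x
    refine tendsto_const_nhds.congr' ?_
    filter_upwards [eventually_ge_atTop (⌈x + H⌉₊ + 1)] with K hK
    unfold Mf
    rw [sum_filter]
    refine sum_subset (range_subset_range.2 hK) fun n _ hn => ?_
    rw [mem_range, not_lt] at hn
    rw [if_neg]
    intro hc
    have h1 : x + H ≤ ⌈x + H⌉₊ := Nat.le_ceil _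
    have h2 : ((⌈x + H⌉₊ + 1 : ℕ) : ℝ) ≤ n := by exact_mod_cast hn
    push_cast at h2
    have h3 := (abs_lt.1 hc).2
    have h4 := lt_of_le_of_lt (abs_nonneg _) hc
    linarith

lemma real_int (f : ℕ → ℝ) (g : ℝ → ℝ) (hg : ∀ x, |g x| ≤ 1) (X H : ℝ) (hH : 0 ≤ H)
    (hHX : H + 2 ≤ X) :
    |(∫ x in X..2 * X, g (Mf f x H)) -
      ((1 - (H - ⌊H⌋₊)) * ∑ m ∈ Ico ⌊X - H / 2⌋₊ (2 * ⌊X - H / 2⌋₊), g (W f m ⌊H⌋₊) +
        (H - ⌊H⌋₊) * ∑ m ∈ Ico ⌊X - H / 2⌋₊ (2 * ⌊X - H / 2⌋₊), g (W f m (⌊H⌋₊ + 1)))| ≤ H + 3 := by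
  set A := X - H / 2 with hA
  set N := ⌊A⌋₊ with hN
  set B := 2 * X - H / 2 with hB
  have hA0 : 0 ≤ A := by rw [hA]; linarith
  have a1 : (N : ℝ) ≤ A := Nat.floor_le hA0
  have a2 : A < N + 1 := Nat.lt_floor_add_one A
  have e1 : ∫ x in X..2 * X, g (Mf f x H) = ∫ a in A..B, g (Mf f (a + H / 2) H) := by
    rw [intervalIntegral.integral_comp_add_right (fun x => g (Mf f x H)) (H / 2)]
    congr 1
    · rw [hA]; ring
    · rw [hB]; ring
  obtain ⟨i1, i2⟩ := int_int f g H hH N (2 * N) (by omega)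
  obtain ⟨K, hK⟩ := exists_nat_ge (2 * X + 1)
  have hint : IntervalIntegrable (fun a => g (Mf f (a + H / 2) H)) volume ((0 : ℕ) : ℝ) (K : ℝ) :=
    (int_int f g H hH 0 K (Nat.zero_le _)).1
  have hsub : ∀ p q : ℝ, 0 ≤ p → p ≤ K → 0 ≤ q → q ≤ K →
      IntervalIntegrable (fun a => g (Mf f (a + H / 2) H)) volume p q := by
    intro p q hp hpK hq hqK
    refine hint.mono_set ?_
    rw [Nat.cast_zero, Set.uIcc_of_le (by linarith : (0 : ℝ) ≤ K)]
    exact Set.uIcc_subset_Icc ⟨hp, hpK⟩ ⟨hq, hqK⟩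
  have hN0 : (0 : ℝ) ≤ N := Nat.cast_nonneg _
  have hB0 : 0 ≤ B := by rw [hB]; linarith
  have hAK : A ≤ K := by rw [hA]; linarith
  have hBK : B ≤ K := by rw [hB]; linarith
  have hNK : (N : ℝ) ≤ K := by linarith
  have h2N : ((2 * N : ℕ) : ℝ) = 2 * N := by push_cast; ring
  have h2NK : ((2 * N : ℕ) : ℝ) ≤ K := by
    rw [h2N]
    rw [hA] at a1
    linarith
  have h2N0 : 0 ≤ ((2 * N : ℕ) : ℝ) := Nat.cast_nonneg _
  have e2 : ∫ a in A..B, g (Mf f (a + H / 2) H) =
      (∫ a in A..(N : ℝ), g (Mf f (a + H / 2) H)) +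
      (∫ a in (N : ℝ)..((2 * N : ℕ) : ℝ), g (Mf f (a + H / 2) H)) +
      ∫ a in ((2 * N : ℕ) : ℝ)..B, g (Mf f (a + H / 2) H) := by
    rw [intervalIntegral.integral_add_adjacent_intervals (hsub _ _ hA0 hAK hN0 hNK)
      (hsub _ _ hN0 hNK h2N0 h2NK), intervalIntegral.integral_add_adjacent_intervals
      (hsub _ _ hA0 hAK h2N0 h2NK) (hsub _ _ h2N0 h2NK hB0 hBK)]
  have b1 : |∫ a in A..(N : ℝ), g (Mf f (a + H / 2) H)| ≤ 1 * |(N : ℝ) - A| := by
    have := intervalIntegral.norm_integral_le_of_norm_le_const (a := A) (b := (N : ℝ)) (C := 1)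
      (f := fun a => g (Mf f (a + H / 2) H)) (fun x _ => hg _)
    exact this
  have b2 : |∫ a in ((2 * N : ℕ) : ℝ)..B, g (Mf f (a + H / 2) H)| ≤ 1 * |B - ((2 * N : ℕ) : ℝ)| := by
    have := intervalIntegral.norm_integral_le_of_norm_le_const (a := ((2 * N : ℕ) : ℝ)) (b := B)
      (C := 1) (f := fun a => g (Mf f (a + H / 2) H)) (fun x _ => hg _)
    exact this
  have b3 : |(N : ℝ) - A| ≤ 1 := by
    rw [abs_le]
    constructor <;> linarith
  have b4 : |B - ((2 * N : ℕ) : ℝ)| ≤ H + 2 := by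
    rw [h2N, abs_le]
    rw [hA] at a1 a2
    rw [hB]
    constructor <;> linarith
  rw [e1, e2, ← i2]
  have e3 : ∀ x y z : ℝ, x + y + z - y = x + z := fun x y z => by ring
  rw [e3]
  refine (abs_add_le _ _).trans ?_
  linarith

/-- the normalised windows -/
theorem real_conv {f : ℕ → ℝ} (hU : UConv f) (ε : ℝ) (hε : 0 < ε) (hε1 : ε < 1 / 2) (t : ℝ)
    (η : ℝ) (hη : 0 < η) : ∀ᶠ X : ℝ in atTop, ∀ H : ℝ, X ^ ε < H → H < X ^ (1 - ε) →
      |1 / X * (∫ x in X..2 * X, Real.cos (t / Real.sqrt (kap * H) * Mf f x H)) -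
        Real.exp (-t ^ 2 / 2)| ≤ η ∧
      |1 / X * (∫ x in X..2 * X, Real.sin (t / Real.sqrt (kap * H) * Mf f x H))| ≤ η := by
  have hkap := kap_pos
  have hT : Tendsto (fun X : ℝ => ⌊X / 4⌋₊) atTop atTop :=
    tendsto_nat_floor_atTop.comp (tendsto_id.atTop_div_const (by norm_num))
  obtain ⟨N0, hN0⟩ := eventually_atTop.1 (hU (ε / 2) (by positivity) (by linarith) (2 * |t|)
    (η / 4) (by positivity))
  have ev1 : ∀ᶠ X : ℝ in atTop, 8 ≤ X ^ (ε / 2) :=
    (tendsto_rpow_atTop (by positivity)).eventually_ge_atTop 8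
  have ev2 : ∀ᶠ X : ℝ in atTop, t ^ 2 / 2 * (4 / η) + 2 ≤ X ^ ε :=
    (tendsto_rpow_atTop hε).eventually_ge_atTop _
  have ev3 : ∀ᶠ X : ℝ in atTop, 12 * (4 / η) + 8 ≤ X ^ ε :=
    (tendsto_rpow_atTop hε).eventually_ge_atTop _
  filter_upwards [ev1, ev2, ev3, hT.eventually_ge_atTop N0, eventually_ge_atTop (16 : ℝ)] with
    X c1 c2 c3 c4 c5 H hH1 hH2
  have hX0 : 0 < X := by linarith
  have hXe : X ^ (1 - ε) * X ^ ε = X := by
    rw [← Real.rpow_add hX0]
    norm_num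
  have hXe2 : X ^ ε = X ^ (ε / 2) * X ^ (ε / 2) := by
    rw [← Real.rpow_add hX0]
    congr 1
    ring
  have hX64 : 64 ≤ X ^ ε := by
    rw [hXe2]
    nlinarith
  have hH64 : 64 < H := by linarith
  have hH0 : 0 < H := by linarith
  have hHX : H * X ^ ε ≤ X := by
    calc H * X ^ ε ≤ X ^ (1 - ε) * X ^ ε := mul_le_mul_of_nonneg_right hH2.le (by positivity)
      _ = X := hXe
  have hHX64 : H * 64 ≤ X := le_trans (mul_le_mul_of_nonneg_left hX64 hH0.le) hHX
  set A := X - H / 2 with hA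
  set N := ⌊A⌋₊ with hN
  have hA0 : 0 ≤ A := by rw [hA]; linarith
  have a1 : (N : ℝ) ≤ A := Nat.floor_le hA0
  have a2 : A < N + 1 := Nat.lt_floor_add_one A
  have hNX : (N : ℝ) ≤ X := by rw [hA] at a1; linarith
  have hNlow : X - H ≤ N := by rw [hA] at a2; linarith
  have hN4 : X / 4 ≤ N := by linarith
  have hNN0 : N0 ≤ N := c4.trans (Nat.floor_le_of_le hN4)
  have hNp : (0 : ℝ) < N := by linarith
  have hN1 : (1 : ℝ) ≤ N := by linarith
  set k := ⌊H⌋₊ with hk
  have k1 : (k : ℝ) ≤ H := Nat.floor_le hH0.le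
  have k2 : H < k + 1 := Nat.lt_floor_add_one H
  have hk0 : (0 : ℝ) < k := by linarith
  have hlow : (N : ℝ) ^ (ε / 2) ≤ k := by
    calc (N : ℝ) ^ (ε / 2) ≤ X ^ (ε / 2) := Real.rpow_le_rpow hNp.le hNX (by positivity)
      _ ≤ X ^ ε - 1 := by
          rw [hXe2]
          nlinarith
      _ ≤ k := by linarith
  have hup : (k : ℝ) + 1 ≤ (N : ℝ) ^ (1 - ε / 2) := by
    have h3 : (X / 4) ^ (1 - ε / 2) ≤ (N : ℝ) ^ (1 - ε / 2) :=
      Real.rpow_le_rpow (by positivity) hN4 (by linarith)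
    refine le_trans ?_ h3
    rw [Real.div_rpow hX0.le (by norm_num), le_div_iff₀ (by positivity)]
    have h4 : (4 : ℝ) ^ (1 - ε / 2) ≤ 4 := by
      calc (4 : ℝ) ^ (1 - ε / 2) ≤ (4 : ℝ) ^ (1 : ℝ) :=
            Real.rpow_le_rpow_of_exponent_le (by norm_num) (by linarith)
        _ = 4 := Real.rpow_one _
    have h5 : X ^ (1 - ε / 2) = X ^ (1 - ε) * X ^ (ε / 2) := by
      rw [← Real.rpow_add hX0]
      congr 1
      ring
    rw [h5]
    calc ((k : ℝ) + 1) * (4 : ℝ) ^ (1 - ε / 2) ≤ (2 * H) * 4 :=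
          mul_le_mul (by linarith) h4 (by positivity) (by positivity)
      _ = H * 8 := by ring
      _ ≤ X ^ (1 - ε) * X ^ (ε / 2) := mul_le_mul hH2.le c1 (by norm_num) (by positivity)
  -- the two frequencies
  have hfreq : ∀ j : ℕ, (k : ℝ) ≤ j → (j : ℝ) ≤ k + 1 → 
      |Cm (th f (t * Real.sqrt (j / H)) j) N - Real.exp (-t ^ 2 / 2)| ≤ η / 2 ∧
      |Sm (th f (t * Real.sqrt (j / H)) j) N| ≤ η / 2 := by
    intro j hj1 hj2
    have hj0 : (0 : ℝ) < j := by linarith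
    have hjH : (j : ℝ) / H ≤ 2 := by
      rw [div_le_iff₀ hH0]
      linarith
    have hs2 : Real.sqrt (j / H) ≤ 2 := by
      rw [Real.sqrt_le_left (by norm_num)]
      linarith
    have ht : |t * Real.sqrt (j / H)| ≤ 2 * |t| := by
      rw [abs_mul, abs_of_nonneg (Real.sqrt_nonneg _), mul_comm]
      exact mul_le_mul_of_nonneg_right hs2 (abs_nonneg t)
    obtain ⟨u1, u2⟩ := hN0 N hNN0 j (hlow.trans hj1) (hj2.trans hup) _ ht
    have hexp : |Real.exp (-(t * Real.sqrt (j / H)) ^ 2 / 2) - Real.exp (-t ^ 2 / 2)| ≤ η / 4 := by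
      have e1 : -(t * Real.sqrt (j / H)) ^ 2 / 2 = -(t ^ 2 * (j / H) / 2) := by
        rw [mul_pow, Real.sq_sqrt (by positivity)]
        ring
      have e2 : -t ^ 2 / 2 = -(t ^ 2 / 2) := by ring
      rw [e1, e2]
      refine (exp_diff (by positivity) (by positivity)).trans ?_
      have e3 : t ^ 2 * (j / H) / 2 - t ^ 2 / 2 = t ^ 2 / 2 * ((j - H) / H) := by
        field_simp
      rw [e3, abs_mul, abs_of_nonneg (by positivity : 0 ≤ t ^ 2 / 2), abs_div, abs_of_pos hH0]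
      have e4 : |(j : ℝ) - H| ≤ 1 := by
        rw [abs_le]
        constructor <;> linarith
      have e5 : t ^ 2 / 2 * (4 / η) ≤ H := by linarith
      calc t ^ 2 / 2 * (|(j : ℝ) - H| / H) ≤ t ^ 2 / 2 * (1 / H) :=
            mul_le_mul_of_nonneg_left (div_le_div_of_nonneg_right e4 hH0.le) (by positivity)
        _ ≤ η / 4 := by
            rw [mul_one_div, div_le_iff₀ hH0]
            have := mul_le_mul_of_nonneg_left e5 (by positivity : 0 ≤ η / 4)
            have e6 : η / 4 * (t ^ 2 / 2 * (4 / η)) = t ^ 2 / 2 := by field_simp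
            linarith
    constructor
    · have e : Cm (th f (t * Real.sqrt (j / H)) j) N - Real.exp (-t ^ 2 / 2) =
        (Cm (th f (t * Real.sqrt (j / H)) j) N - Real.exp (-(t * Real.sqrt (j / H)) ^ 2 / 2)) +
        (Real.exp (-(t * Real.sqrt (j / H)) ^ 2 / 2) - Real.exp (-t ^ 2 / 2)) := by ring
      rw [e]
      refine (abs_add_le _ _).trans ?_
      linarith
    · linarith
  have hang : ∀ j : ℕ, (0 : ℝ) < j → ∀ m, t / Real.sqrt (kap * H) * W f m j =
      th f (t * Real.sqrt (j / H)) j m := by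
    intro j hj m
    unfold th
    congr 1
    rw [Real.sqrt_div hj.le, Real.sqrt_mul hkap.le, Real.sqrt_mul hkap.le]
    have s1 : 0 < Real.sqrt j := Real.sqrt_pos.2 hj
    have s2 : 0 < Real.sqrt H := Real.sqrt_pos.2 hH0
    have s3 : 0 < Real.sqrt kap := Real.sqrt_pos.2 hkap
    field_simp
  obtain ⟨p1, p2⟩ := hfreq k le_rfl (by linarith)
  obtain ⟨p3, p4⟩ := hfreq (k + 1) (by push_cast; linarith) (by push_cast; linarith)
  have hk1 : (0 : ℝ) < ((k + 1 : ℕ) : ℝ) := by positivity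
  have hfr0 : 0 ≤ H - k := by linarith
  have hfr1 : 0 ≤ 1 - (H - k) := by linarith
  have hHX2 : (H + 3) / X ≤ η / 8 := by
    rw [div_le_iff₀ hX0]
    have e1 : 12 * (4 / η) ≤ X ^ ε := by linarith
    have e2 : H * (12 * (4 / η)) ≤ X := le_trans (mul_le_mul_of_nonneg_left e1 hH0.le) hHX
    have e3 : η / 8 * (H * (12 * (4 / η))) = 6 * H := by field_simp; ring
    have := mul_le_mul_of_nonneg_left e2 (by positivity : 0 ≤ η / 8)
    linarith
  have hNX2 : 1 - N / X ≤ η / 8 := by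
    have e1 : 1 - N / X = (X - N) / X := by field_simp
    rw [e1]
    refine le_trans (div_le_div_of_nonneg_right ?_ hX0.le) hHX2
    linarith
  have hNX3 : N / X ≤ 1 := by
    rw [div_le_one hX0]
    exact hNX
  have hNX4 : 0 ≤ N / X := by positivity
  constructor
  · have r1 := real_int f (fun w => Real.cos (t / Real.sqrt (kap * H) * w))
      (fun w => Real.abs_cos_le_one _) X H hH0.le (by linarith)
    rw [← hA, ← hN, ← hk] at r1
    simp only [hang k hk0, hang (k + 1) hk1] at r1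
    have s1 : ∑ m ∈ Ico N (2 * N), Real.cos (th f (t * Real.sqrt (k / H)) k m) =
        N * Cm (th f (t * Real.sqrt (k / H)) k) N := by
      unfold Cm
      field_simp
    have s2 : ∑ m ∈ Ico N (2 * N), Real.cos (th f (t * Real.sqrt (((k + 1 : ℕ) : ℝ) / H)) (k + 1) m) =
        N * Cm (th f (t * Real.sqrt (((k + 1 : ℕ) : ℝ) / H)) (k + 1)) N := by
      unfold Cm
      field_simp
    rw [s1, s2] at r1
    set I := ∫ x in X..2 * X, Real.cos (t / Real.sqrt (kap * H) * Mf f x H)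
    set C1 := Cm (th f (t * Real.sqrt (k / H)) k) N
    set C2 := Cm (th f (t * Real.sqrt (((k + 1 : ℕ) : ℝ) / H)) (k + 1)) N
    set φ := Real.exp (-t ^ 2 / 2) with hφ
    have hφ0 : 0 ≤ φ := (Real.exp_pos _).le
    have hφ1 : φ ≤ 1 := Real.exp_le_one_iff.2 (by nlinarith [sq_nonneg t])
    have d1 : |1 / X * (I - ((1 - (H - k)) * (N * C1) + (H - k) * (N * C2)))| ≤ η / 8 := by
      rw [abs_mul, abs_of_pos (by positivity : 0 < 1 / X)]
      calc 1 / X * |I - ((1 - (H - k)) * (N * C1) + (H - k) * (N * C2))| ≤ 1 / X * (H + 3) :=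
            mul_le_mul_of_nonneg_left r1 (by positivity)
        _ = (H + 3) / X := by ring
        _ ≤ η / 8 := hHX2
    have d2 : |(1 - (H - k)) * (C1 - φ) + (H - k) * (C2 - φ)| ≤ η / 2 := by
      refine (abs_add_le _ _).trans ?_
      rw [abs_mul, abs_mul, abs_of_nonneg hfr0, abs_of_nonneg hfr1]
      have := mul_le_mul_of_nonneg_left p1 hfr1
      have := mul_le_mul_of_nonneg_left p3 hfr0
      linarith
    have e : 1 / X * I - φ = 1 / X * (I - ((1 - (H - k)) * (N * C1) + (H - k) * (N * C2))) +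
        N / X * ((1 - (H - k)) * (C1 - φ) + (H - k) * (C2 - φ)) - (1 - N / X) * φ := by
      field_simp
      ring
    rw [e]
    have d3 : |N / X * ((1 - (H - k)) * (C1 - φ) + (H - k) * (C2 - φ))| ≤ η / 2 := by
      rw [abs_mul, abs_of_nonneg hNX4]
      calc N / X * |(1 - (H - k)) * (C1 - φ) + (H - k) * (C2 - φ)| ≤ 1 * (η / 2) :=
            mul_le_mul hNX3 d2 (abs_nonneg _) zero_le_one
        _ = η / 2 := one_mul _
    have d4 : |(1 - N / X) * φ| ≤ η / 8 := by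
      rw [abs_mul, abs_of_nonneg hφ0, abs_of_nonneg (by linarith : 0 ≤ 1 - N / X)]
      calc (1 - N / X) * φ ≤ η / 8 * 1 := mul_le_mul hNX2 hφ1 hφ0 (by positivity)
        _ = η / 8 := mul_one _
    refine (abs_sub _ _).trans ?_
    have := abs_add_le (1 / X * (I - ((1 - (H - k)) * (N * C1) + (H - k) * (N * C2))))
      (N / X * ((1 - (H - k)) * (C1 - φ) + (H - k) * (C2 - φ)))
    linarith
  · have r1 := real_int f (fun w => Real.sin (t / Real.sqrt (kap * H) * w))
      (fun w => Real.abs_sin_le_one _) X H hH0.le (by linarith)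
    rw [← hA, ← hN, ← hk] at r1
    simp only [hang k hk0, hang (k + 1) hk1] at r1
    have s1 : ∑ m ∈ Ico N (2 * N), Real.sin (th f (t * Real.sqrt (k / H)) k m) =
        N * Sm (th f (t * Real.sqrt (k / H)) k) N := by
      unfold Sm
      field_simp
    have s2 : ∑ m ∈ Ico N (2 * N), Real.sin (th f (t * Real.sqrt (((k + 1 : ℕ) : ℝ) / H)) (k + 1) m) =
        N * Sm (th f (t * Real.sqrt (((k + 1 : ℕ) : ℝ) / H)) (k + 1)) N := by
      unfold Sm
      field_simp
    rw [s1, s2] at r1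
    set I := ∫ x in X..2 * X, Real.sin (t / Real.sqrt (kap * H) * Mf f x H)
    set C1 := Sm (th f (t * Real.sqrt (k / H)) k) N
    set C2 := Sm (th f (t * Real.sqrt (((k + 1 : ℕ) : ℝ) / H)) (k + 1)) N
    have d1 : |1 / X * (I - ((1 - (H - k)) * (N * C1) + (H - k) * (N * C2)))| ≤ η / 8 := by
      rw [abs_mul, abs_of_pos (by positivity : 0 < 1 / X)]
      calc 1 / X * |I - ((1 - (H - k)) * (N * C1) + (H - k) * (N * C2))| ≤ 1 / X * (H + 3) :=
            mul_le_mul_of_nonneg_left r1 (by positivity)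
        _ = (H + 3) / X := by ring
        _ ≤ η / 8 := hHX2
    have d2 : |(1 - (H - k)) * C1 + (H - k) * C2| ≤ η / 2 := by
      refine (abs_add_le _ _).trans ?_
      rw [abs_mul, abs_mul, abs_of_nonneg hfr0, abs_of_nonneg hfr1]
      have := mul_le_mul_of_nonneg_left p2 hfr1
      have := mul_le_mul_of_nonneg_left p4 hfr0
      linarith
    have e : 1 / X * I = 1 / X * (I - ((1 - (H - k)) * (N * C1) + (H - k) * (N * C2))) +
        N / X * ((1 - (H - k)) * C1 + (H - k) * C2) := by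
      field_simp
      ring
    rw [e]
    have d3 : |N / X * ((1 - (H - k)) * C1 + (H - k) * C2)| ≤ η / 2 := by
      rw [abs_mul, abs_of_nonneg hNX4]
      calc N / X * |(1 - (H - k)) * C1 + (H - k) * C2| ≤ 1 * (η / 2) :=
            mul_le_mul hNX3 d2 (abs_nonneg _) zero_le_one
        _ = η / 2 := one_mul _
    refine (abs_add_le _ _).trans ?_
    linarith

end Pool.Agent.Q163.CL
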