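import Pool.Agent.Q163.RX.Mgf

set_option autoImplicit false

/-!
# The characteristic function of a sum of signs with predictable coefficients
-/

namespace Pool.Agent.Q163.CL

open Finset MeasureTheory Pool.Agent.Q163.RP Pool.Agent.Q163.RX

/-- the function does not depend on the coins `p ≥ q` -/
def Pred (q : ℕ) (G : (ℕ → Bool) → ℝ) : Prop := ∀ p, q ≤ p → ∀ ω, G (fl p ω) = G ω

lemma es_fl_self (p : ℕ) (ω : ℕ → Bool) : es p (fl p ω) = -es p ω := by
  unfold es fl sgn
  rw [if_pos rfl]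
  cases ω p <;> simp

lemma es_fl_ne {p q : ℕ} (h : q ≠ p) (ω : ℕ → Bool) : es q (fl p ω) = es q ω := by
  unfold es fl
  rw [if_neg h]

lemma es_cases (p : ℕ) (ω : ℕ → Bool) : es p ω = 1 ∨ es p ω = -1 := signs.sign p ω

lemma es_sq (p : ℕ) (ω : ℕ → Bool) : es p ω ^ 2 = 1 := by
  rcases es_cases p ω with h | h <;> rw [h] <;> norm_num

lemma meas_es (p : ℕ) : Measurable (es p) := signs.meas p

/-- the martingale product -/
noncomputable def PP (T : ℕ → (ℕ → Bool) → ℝ) (K : ℕ) (ω : ℕ → Bool) : ℂ :=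
  ∏ q ∈ range K, (1 + Complex.I * ((es q ω * T q ω : ℝ) : ℂ))

lemma meas_PP (T : ℕ → (ℕ → Bool) → ℝ) (hm : ∀ q, Measurable (T q)) (K : ℕ) :
    Measurable (PP T K) := by
  unfold PP
  refine Finset.measurable_fun_prod _ fun q _ => ?_
  exact (measurable_const (a := (1 : ℂ))).add
    ((Complex.measurable_ofReal.comp ((meas_es q).mul (hm q))).const_mul _)

lemma norm_PP_le (T : ℕ → (ℕ → Bool) → ℝ) (hb : ∀ q ω, |T q ω| ≤ 2) (K : ℕ) (ω : ℕ → Bool) :
    ‖PP T K ω‖ ≤ 3 ^ K := by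
  unfold PP
  rw [norm_prod]
  calc ∏ q ∈ range K, ‖1 + Complex.I * ((es q ω * T q ω : ℝ) : ℂ)‖ ≤ ∏ _q ∈ range K, (3 : ℝ) := by
        refine prod_le_prod (fun _ _ => norm_nonneg _) fun q _ => ?_
        refine (norm_add_le _ _).trans ?_
        rw [norm_one, norm_mul, Complex.norm_I, one_mul, Complex.norm_real, Real.norm_eq_abs,
          abs_mul]
        have : |es q ω| = 1 := by rcases es_cases q ω with h | h <;> rw [h] <;> norm_num
        rw [this, one_mul]
        linarith [hb q ω]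
    _ = 3 ^ K := by rw [prod_const, card_range]

lemma int_PP (T : ℕ → (ℕ → Bool) → ℝ) (hm : ∀ q, Measurable (T q)) (hb : ∀ q ω, |T q ω| ≤ 2)
    (K : ℕ) : Integrable (PP T K) cm :=
  Integrable.of_bound (meas_PP T hm K).aestronglyMeasurable (3 ^ K)
    (Filter.Eventually.of_forall fun ω => norm_PP_le T hb K ω)

/-- the martingale property -/
theorem mart (T : ℕ → (ℕ → Bool) → ℝ) (hp : ∀ q, Pred q (T q)) (hm : ∀ q, Measurable (T q))
    (hb : ∀ q ω, |T q ω| ≤ 2) (K : ℕ) : ∫ ω, PP T K ω ∂cm = 1 := by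
  induction K with
  | zero =>
    have : ∀ ω, PP T 0 ω = 1 := fun ω => by
      unfold PP
      simp
    simp_rw [this]
    simp
  | succ K ih =>
    have e1 : ∀ ω, PP T (K + 1) ω = PP T K ω * (1 + Complex.I * ((es K ω * T K ω : ℝ) : ℂ)) := by
      intro ω
      unfold PP
      rw [prod_range_succ]
    have e2 : ∀ ω, PP T K (fl K ω) = PP T K ω := by
      intro ω
      unfold PP
      refine prod_congr rfl fun q hq => ?_
      have hqK : q < K := mem_range.1 hq
      rw [es_fl_ne (by omega), hp q K (by omega)]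
    have e3 : ∀ ω, PP T (K + 1) (fl K ω) =
        PP T K ω * (1 - Complex.I * ((es K ω * T K ω : ℝ) : ℂ)) := by
      intro ω
      rw [e1, e2, es_fl_self, hp K K le_rfl]
      push_cast
      ring
    have e4 : ∫ ω, PP T (K + 1) (fl K ω) ∂cm = ∫ ω, PP T (K + 1) ω ∂cm :=
      (mp_fl K).integral_comp' (f := ⟨⟨fl K, fl K, fun ω => by
        funext i
        unfold fl
        split_ifs <;> simp, fun ω => by
        funext i
        unfold fl
        split_ifs <;> simp⟩, (mp_fl K).measurable, (mp_fl K).measurable⟩) _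
    have e5 : (∫ ω, PP T (K + 1) ω ∂cm) + ∫ ω, PP T (K + 1) ω ∂cm = 2 := by
      nth_rewrite 1 [← e4]
      rw [← integral_add]
      · have : ∀ ω, PP T (K + 1) (fl K ω) + PP T (K + 1) ω = 2 * PP T K ω := by
          intro ω
          rw [e3, e1]
          ring
        simp_rw [this]
        rw [integral_const_mul, ih, mul_one]
      · exact (mp_fl K).integrable_comp_of_integrable (int_PP T hm hb (K + 1))
      · exact int_PP T hm hb (K + 1)
    have e6 : (2 : ℂ) * ∫ ω, PP T (K + 1) ω ∂cm = 2 * 1 := by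
      rw [two_mul, e5, mul_one]
    exact mul_left_cancel₀ two_ne_zero e6

lemma cos_lower {x : ℝ} (hx : |x| ≤ 1) : Real.exp (-x ^ 2) ≤ Real.cos x := by
  have h1 := Real.one_sub_sq_div_two_le_cos (x := x)
  have h2 : x ^ 2 ≤ 1 := by
    rw [← sq_abs]
    exact pow_le_one₀ (abs_nonneg _) hx
  have h3 : 1 + x ^ 2 ≤ Real.exp (x ^ 2) := by
    have := Real.add_one_le_exp (x ^ 2)
    linarith
  have h4 : Real.exp (-x ^ 2) ≤ 1 / (1 + x ^ 2) := by
    rw [Real.exp_neg, ← one_div]
    exact one_div_le_one_div_of_le (by positivity) h3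
  refine h4.trans (le_trans ?_ h1)
  rw [div_le_iff₀ (by positivity)]
  nlinarith [sq_nonneg x]

lemma cos_exp {x : ℝ} (hx : |x| ≤ 1) : |Real.cos x - Real.exp (-x ^ 2 / 2)| ≤ x ^ 4 := by
  have h2 : x ^ 2 ≤ 1 := by
    rw [← sq_abs]
    exact pow_le_one₀ (abs_nonneg _) hx
  have h3 := Real.cos_bound hx
  have h4 := Real.abs_exp_sub_one_sub_id_le (x := -x ^ 2 / 2) (by
    rw [abs_le]
    constructor <;> nlinarith [sq_nonneg x])
  rw [abs_le] at h3 h4 ⊢
  have h5 : |x| ^ 4 = x ^ 4 := by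
    rw [← abs_pow]
    exact abs_of_nonneg (by positivity)
  rw [h5] at h3
  have h6 : (-x ^ 2 / 2) ^ 2 = x ^ 4 / 4 := by ring
  rw [h6] at h4
  have h7 : 0 ≤ x ^ 4 := by positivity
  constructor
  · linarith [h3.1, h4.2]
  · linarith [h3.2, h4.1]

lemma cos_pos' {x : ℝ} (hx : |x| ≤ 1) : 0 < Real.cos x :=
  lt_of_lt_of_le (Real.exp_pos _) (cos_lower hx)

lemma tan_le {x : ℝ} (hx : |x| ≤ 1) : |Real.tan x| ≤ 2 := by
  have h1 := Real.one_sub_sq_div_two_le_cos (x := x)
  have h2 : x ^ 2 ≤ 1 := by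
    rw [← sq_abs]
    exact pow_le_one₀ (abs_nonneg _) hx
  have h3 : 1 / 2 ≤ Real.cos x := by linarith
  rw [Real.tan_eq_sin_div_cos, abs_div, abs_of_pos (by linarith : 0 < Real.cos x),
    div_le_iff₀ (by linarith)]
  have := Real.abs_sin_le_one x
  linarith

lemma prod_diff (K : ℕ) (a b : ℕ → ℝ) (ha : ∀ q, |a q| ≤ 1) (hb : ∀ q, |b q| ≤ 1) :
    |∏ q ∈ range K, a q - ∏ q ∈ range K, b q| ≤ ∑ q ∈ range K, |a q - b q| := by
  induction K with
  | zero => simp
  | succ K ih =>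
    rw [prod_range_succ, prod_range_succ, sum_range_succ]
    have e1 : (∏ q ∈ range K, a q) * a K - (∏ q ∈ range K, b q) * b K =
        (∏ q ∈ range K, a q - ∏ q ∈ range K, b q) * a K + (∏ q ∈ range K, b q) * (a K - b K) := by
      ring
    rw [e1]
    refine (abs_add_le _ _).trans ?_
    rw [abs_mul, abs_mul]
    refine add_le_add ?_ ?_
    · calc |∏ q ∈ range K, a q - ∏ q ∈ range K, b q| * |a K|
          ≤ (∑ q ∈ range K, |a q - b q|) * 1 :=
            mul_le_mul ih (ha K) (abs_nonneg _) (sum_nonneg fun _ _ => abs_nonneg _)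
        _ = ∑ q ∈ range K, |a q - b q| := mul_one _
    · have h1 : |∏ q ∈ range K, b q| ≤ 1 := by
        rw [abs_prod]
        exact prod_le_one (fun _ _ => abs_nonneg _) fun q _ => hb q
      calc |∏ q ∈ range K, b q| * |a K - b K| ≤ 1 * |a K - b K| :=
            mul_le_mul_of_nonneg_right h1 (abs_nonneg _)
        _ = |a K - b K| := one_mul _

lemma exp_diff {a b : ℝ} (ha : 0 ≤ a) (hb : 0 ≤ b) : |Real.exp (-a) - Real.exp (-b)| ≤ |a - b| := by
  wlog h : a ≤ b generalizing a b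
  · have := this hb ha (le_of_not_ge h)
    rwa [abs_sub_comm, abs_sub_comm b a] at this
  have h1 : Real.exp (-b) ≤ Real.exp (-a) := Real.exp_le_exp.2 (by linarith)
  rw [abs_of_nonneg (by linarith), abs_sub_comm, abs_of_nonneg (by linarith : 0 ≤ b - a)]
  have h2 := Real.add_one_le_exp (a - b)
  have h3 : Real.exp (-b) = Real.exp (-a) * Real.exp (a - b) := by
    rw [← Real.exp_add]
    congr 1
    ring
  have h4 : Real.exp (-a) ≤ 1 := Real.exp_le_one_iff.2 (by linarith)
  rw [h3]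
  nlinarith [Real.exp_pos (-a), Real.exp_pos (a - b)]

/-- small predictable coefficients with bounded sum of squares -/
theorem small (K : ℕ) (g : ℕ → (ℕ → Bool) → ℝ) (hp : ∀ q, Pred q (g q))
    (hm : ∀ q, Measurable (g q)) (hb : ∀ q ω, |g q ω| ≤ 1) (s : ℝ) (hs : 0 ≤ s)
    (hsum : ∀ ω, ∑ q ∈ range K, g q ω ^ 2 ≤ 2 * s) :
    ‖(∫ ω, Complex.exp (Complex.I * ((∑ q ∈ range K, es q ω * g q ω : ℝ) : ℂ)) ∂cm) -
      ((Real.exp (-(s / 2)) : ℝ) : ℂ)‖ ≤
      Real.exp (2 * s) * ∫ ω, (∑ q ∈ range K, g q ω ^ 4 + 1 / 2 * |∑ q ∈ range K, g q ω ^ 2 - s|) ∂cm := by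
  set T : ℕ → (ℕ → Bool) → ℝ := fun q ω => Real.tan (g q ω) with hT
  have hTp : ∀ q, Pred q (T q) := fun q p hqp ω => by
    rw [hT]
    simp only
    rw [hp q p hqp]
  have hTm : ∀ q, Measurable (T q) := fun q => by
    have : T q = fun ω => Real.sin (g q ω) / Real.cos (g q ω) := by
      funext ω
      rw [hT]
      exact Real.tan_eq_sin_div_cos _
    rw [this]
    exact (Real.measurable_sin.comp (hm q)).div (Real.measurable_cos.comp (hm q))
  have hTb : ∀ q ω, |T q ω| ≤ 2 := fun q ω => tan_le (hb q ω)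
  set D : (ℕ → Bool) → ℝ := fun ω => ∏ q ∈ range K, Real.cos (g q ω) with hD
  have hDm : Measurable D := Finset.measurable_fun_prod _ fun q _ => Real.measurable_cos.comp (hm q)
  have hDpos : ∀ ω, 0 < D ω := fun ω => prod_pos fun q _ => cos_pos' (hb q ω)
  have hD1 : ∀ ω, |D ω| ≤ 1 := fun ω => by
    rw [hD]
    simp only
    rw [abs_prod]
    exact prod_le_one (fun _ _ => abs_nonneg _) fun q _ => Real.abs_cos_le_one _
  have hDlow : ∀ ω, Real.exp (-(2 * s)) ≤ D ω := by
    intro ω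
    calc Real.exp (-(2 * s)) ≤ Real.exp (-∑ q ∈ range K, g q ω ^ 2) :=
          Real.exp_le_exp.2 (by linarith [hsum ω])
      _ = ∏ q ∈ range K, Real.exp (-g q ω ^ 2) := by
          rw [← Real.exp_sum, sum_neg_distrib]
      _ ≤ D ω := prod_le_prod (fun _ _ => (Real.exp_pos _).le) fun q _ => cos_lower (hb q ω)
  have hfac : ∀ ω, Complex.exp (Complex.I * ((∑ q ∈ range K, es q ω * g q ω : ℝ) : ℂ)) =
      ((D ω : ℝ) : ℂ) * PP T K ω := by
    intro ω
    unfold PP
    rw [hD]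
    push_cast
    rw [mul_sum, Complex.exp_sum, ← prod_mul_distrib]
    refine prod_congr rfl fun q _ => ?_
    have hc : Real.cos (g q ω) ≠ 0 := (cos_pos' (hb q ω)).ne'
    have h1 : Complex.exp (Complex.I * ((es q ω : ℂ) * (g q ω : ℂ))) =
        ((Real.cos (es q ω * g q ω) : ℝ) : ℂ) + Complex.I * ((Real.sin (es q ω * g q ω) : ℝ) : ℂ) := by
      rw [mul_comm Complex.I, ← Complex.ofReal_mul, Complex.exp_mul_I, ← Complex.ofReal_cos,
        ← Complex.ofReal_sin, mul_comm Complex.I]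
    rw [h1]
    have h2 : Real.cos (es q ω * g q ω) = Real.cos (g q ω) := by
      rcases es_cases q ω with h | h <;> rw [h] <;> simp
    have h3 : Real.sin (es q ω * g q ω) = es q ω * Real.sin (g q ω) := by
      rcases es_cases q ω with h | h <;> rw [h] <;> simp
    have h4 : Real.cos (g q ω) * T q ω = Real.sin (g q ω) := by
      rw [hT]
      simp only
      rw [Real.tan_eq_sin_div_cos]
      field_simp
    rw [h2, h3, ← h4]
    push_cast
    ring
  have hnorm : ∀ ω, D ω * ‖PP T K ω‖ = 1 := by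
    intro ω
    have h1 := congrArg norm (hfac ω)
    rw [mul_comm Complex.I, Complex.norm_exp_ofReal_mul_I, norm_mul, Complex.norm_real,
      Real.norm_eq_abs, abs_of_pos (hDpos ω)] at h1
    exact h1.symm
  have hPle : ∀ ω, ‖PP T K ω‖ ≤ Real.exp (2 * s) := by
    intro ω
    have h1 := hnorm ω
    have h2 := hDlow ω
    have h3 : Real.exp (-(2 * s)) * ‖PP T K ω‖ ≤ 1 := by
      rw [← h1]
      exact mul_le_mul_of_nonneg_right h2 (norm_nonneg _)
    rw [Real.exp_neg, inv_mul_le_iff₀ (Real.exp_pos _), mul_one] at h3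
    exact h3
  set e0 : ℝ := Real.exp (-(s / 2)) with he0
  have hPm := meas_PP T hTm K
  have hPi := int_PP T hTm hTb K
  have hDPi : Integrable (fun ω => ((D ω : ℝ) : ℂ) * PP T K ω) cm := by
    refine Integrable.of_bound
      ((Complex.measurable_ofReal.comp hDm).mul hPm).aestronglyMeasurable 1
      (Filter.Eventually.of_forall fun ω => ?_)
    rw [norm_mul, Complex.norm_real, Real.norm_eq_abs, abs_of_pos (hDpos ω), hnorm]
  have key : (∫ ω, Complex.exp (Complex.I * ((∑ q ∈ range K, es q ω * g q ω : ℝ) : ℂ)) ∂cm) -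
      ((e0 : ℝ) : ℂ) = ∫ ω, (((D ω - e0 : ℝ)) : ℂ) * PP T K ω ∂cm := by
    simp_rw [hfac]
    have h1 : ((e0 : ℝ) : ℂ) = ∫ ω, ((e0 : ℝ) : ℂ) * PP T K ω ∂cm := by
      rw [integral_const_mul, mart T hTp hTm hTb K, mul_one]
    nth_rewrite 1 [h1]
    rw [← integral_sub hDPi (hPi.const_mul _)]
    refine integral_congr_ae (Filter.Eventually.of_forall fun ω => ?_)
    simp only
    push_cast
    ring
  have hsq_m : Measurable fun ω => ∑ q ∈ range K, g q ω ^ 4 + 1 / 2 * |∑ q ∈ range K, g q ω ^ 2 - s| := by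
    refine (Finset.measurable_fun_sum _ fun q _ => (hm q).pow_const 4).add ?_
    exact (((Finset.measurable_fun_sum _ fun q _ => (hm q).pow_const 2).sub_const s).abs).const_mul _
  have hsq_i : Integrable (fun ω => ∑ q ∈ range K, g q ω ^ 4 +
      1 / 2 * |∑ q ∈ range K, g q ω ^ 2 - s|) cm := by
    refine Integrable.of_bound hsq_m.aestronglyMeasurable (K + (K + s))
      (Filter.Eventually.of_forall fun ω => ?_)
    have a1 : ∑ q ∈ range K, g q ω ^ 4 ≤ K := by
      refine (sum_le_sum (g := fun _ => (1 : ℝ)) fun q _ => ?_).trans (by simp)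
      have : g q ω ^ 4 = |g q ω| ^ 4 := by
        rw [← abs_pow, abs_of_nonneg (by positivity)]
      rw [this]
      exact pow_le_one₀ (abs_nonneg _) (hb q ω)
    have a2 : ∑ q ∈ range K, g q ω ^ 2 ≤ K := by
      refine (sum_le_sum (g := fun _ => (1 : ℝ)) fun q _ => ?_).trans (by simp)
      rw [← sq_abs]
      exact pow_le_one₀ (abs_nonneg _) (hb q ω)
    have a3 : 0 ≤ ∑ q ∈ range K, g q ω ^ 4 := sum_nonneg fun _ _ => by positivity
    have a4 : 0 ≤ ∑ q ∈ range K, g q ω ^ 2 := sum_nonneg fun _ _ => by positivity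
    have a5 : |∑ q ∈ range K, g q ω ^ 2 - s| ≤ K + s := by
      rw [abs_le]
      constructor <;> linarith
    rw [Real.norm_eq_abs, abs_of_nonneg (by positivity)]
    have : 0 ≤ |∑ q ∈ range K, g q ω ^ 2 - s| := abs_nonneg _
    linarith
  rw [key]
  refine (norm_integral_le_integral_norm _).trans ?_
  rw [← integral_const_mul]
  refine integral_mono_of_nonneg (Filter.Eventually.of_forall fun _ => norm_nonneg _)
    (hsq_i.const_mul _) (Filter.Eventually.of_forall fun ω => ?_)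
  simp only
  rw [norm_mul, Complex.norm_real, Real.norm_eq_abs, mul_comm]
  have h1 : |D ω - e0| ≤ ∑ q ∈ range K, g q ω ^ 4 + 1 / 2 * |∑ q ∈ range K, g q ω ^ 2 - s| := by
    have b1 : |D ω - ∏ q ∈ range K, Real.exp (-g q ω ^ 2 / 2)| ≤ ∑ q ∈ range K, g q ω ^ 4 := by
      refine (prod_diff K _ _ (fun q => Real.abs_cos_le_one _) fun q => ?_).trans
        (sum_le_sum fun q _ => cos_exp (hb q ω))
      rw [abs_of_pos (Real.exp_pos _)]
      exact Real.exp_le_one_iff.2 (by nlinarith [sq_nonneg (g q ω)])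
    have b2 : ∏ q ∈ range K, Real.exp (-g q ω ^ 2 / 2) =
        Real.exp (-((∑ q ∈ range K, g q ω ^ 2) / 2)) := by
      rw [← Real.exp_sum]
      congr 1
      rw [sum_div, ← sum_neg_distrib]
      exact sum_congr rfl fun q _ => by ring
    have b3 : |Real.exp (-((∑ q ∈ range K, g q ω ^ 2) / 2)) - e0| ≤
        1 / 2 * |∑ q ∈ range K, g q ω ^ 2 - s| := by
      refine (exp_diff (div_nonneg (sum_nonneg fun _ _ => sq_nonneg _) (by norm_num))
        (by positivity)).trans ?_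
      rw [← sub_div, abs_div, abs_of_pos (by norm_num : (0 : ℝ) < 2)]
      exact le_of_eq (by ring)
    rw [b2] at b1
    have e1 : D ω - e0 = (D ω - Real.exp (-((∑ q ∈ range K, g q ω ^ 2) / 2))) +
        (Real.exp (-((∑ q ∈ range K, g q ω ^ 2) / 2)) - e0) := by ring
    rw [e1]
    exact (abs_add_le _ _).trans (add_le_add b1 b3)
  exact mul_le_mul (hPle ω) h1 (abs_nonneg _) (Real.exp_pos _).le

/-- the truncated coefficients -/
noncomputable def tr (s : ℝ) (G : ℕ → (ℕ → Bool) → ℝ) (q : ℕ) (ω : ℕ → Bool) : ℝ :=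
  if ∑ i ∈ range (q + 1), G i ω ^ 2 ≤ 2 * s ∧ |G q ω| ≤ 1 then G q ω else 0

lemma tr_pred (s : ℝ) (G : ℕ → (ℕ → Bool) → ℝ) (hp : ∀ q, Pred q (G q)) (q : ℕ) :
    Pred q (tr s G q) := by
  intro p hqp ω
  unfold tr
  have h1 : ∑ i ∈ range (q + 1), G i (fl p ω) ^ 2 = ∑ i ∈ range (q + 1), G i ω ^ 2 := by
    refine sum_congr rfl fun i hi => ?_
    rw [hp i p (by have := mem_range.1 hi; omega)]
  rw [h1, hp q p hqp]

lemma tr_meas (s : ℝ) (G : ℕ → (ℕ → Bool) → ℝ) (hm : ∀ q, Measurable (G q)) (q : ℕ) :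
    Measurable (tr s G q) := by
  have h1 : MeasurableSet {ω : ℕ → Bool | ∑ i ∈ range (q + 1), G i ω ^ 2 ≤ 2 * s} :=
    measurableSet_le (Finset.measurable_fun_sum _ fun i _ => (hm i).pow_const 2) measurable_const
  have h2 : MeasurableSet {ω : ℕ → Bool | |G q ω| ≤ 1} :=
    measurableSet_le (hm q).abs measurable_const
  exact Measurable.ite (h1.inter h2) (hm q) measurable_const

lemma tr_le (s : ℝ) (G : ℕ → (ℕ → Bool) → ℝ) (q : ℕ) (ω : ℕ → Bool) : |tr s G q ω| ≤ 1 := by
  unfold tr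
  split_ifs with h
  · exact h.2
  · simp

lemma tr_sq_le (s : ℝ) (G : ℕ → (ℕ → Bool) → ℝ) (q : ℕ) (ω : ℕ → Bool) :
    tr s G q ω ^ 2 ≤ G q ω ^ 2 := by
  unfold tr
  split_ifs with h
  · exact le_rfl
  · nlinarith [sq_nonneg (G q ω)]

lemma tr_four_le (s : ℝ) (G : ℕ → (ℕ → Bool) → ℝ) (q : ℕ) (ω : ℕ → Bool) :
    tr s G q ω ^ 4 ≤ G q ω ^ 4 := by
  unfold tr
  split_ifs with h
  · exact le_rfl
  · have : 0 ≤ G q ω ^ 4 := by positivity
    norm_num
    exact this

lemma tr_sum (s : ℝ) (hs : 0 ≤ s) (G : ℕ → (ℕ → Bool) → ℝ) (K : ℕ) (ω : ℕ → Bool) :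
    ∑ q ∈ range K, tr s G q ω ^ 2 ≤ 2 * s := by
  induction K with
  | zero =>
    rw [sum_range_zero]
    linarith
  | succ K ih =>
    by_cases h : ∑ i ∈ range (K + 1), G i ω ^ 2 ≤ 2 * s ∧ |G K ω| ≤ 1
    · exact (sum_le_sum fun q _ => tr_sq_le s G q ω).trans h.1
    · rw [sum_range_succ]
      have : tr s G K ω = 0 := by
        unfold tr
        rw [if_neg h]
      rw [this]
      norm_num
      exact ih

/-- **A quantitative central limit theorem for signs with predictable coefficients.** -/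
theorem mcl (K : ℕ) (G : ℕ → (ℕ → Bool) → ℝ) (hp : ∀ q, Pred q (G q))
    (hm : ∀ q, Measurable (G q)) (B : ℝ) (hb : ∀ q ω, |G q ω| ≤ B) (s : ℝ) (hs : 0 < s) :
    ‖(∫ ω, Complex.exp (Complex.I * ((∑ q ∈ range K, es q ω * G q ω : ℝ) : ℂ)) ∂cm) -
      ((Real.exp (-(s / 2)) : ℝ) : ℂ)‖ ≤
      (2 / s + 2 + Real.exp (2 * s) * (2 + s)) *
        ((∫ ω, |∑ q ∈ range K, G q ω ^ 2 - s| ∂cm) + ∫ ω, ∑ q ∈ range K, G q ω ^ 4 ∂cm) := by
  have hB : 0 ≤ B := (abs_nonneg _).trans (hb 0 fun _ => true)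
  set V : (ℕ → Bool) → ℝ := fun ω => |∑ q ∈ range K, G q ω ^ 2 - s| with hV
  set R : (ℕ → Bool) → ℝ := fun ω => ∑ q ∈ range K, G q ω ^ 4 with hR
  have hV0 : ∀ ω, 0 ≤ V ω := fun ω => abs_nonneg _
  have hR0 : ∀ ω, 0 ≤ R ω := fun ω => sum_nonneg fun _ _ => by positivity
  have hVm : Measurable V :=
    ((Finset.measurable_fun_sum _ fun q _ => (hm q).pow_const 2).sub_const s).abs
  have hRm : Measurable R := Finset.measurable_fun_sum _ fun q _ => (hm q).pow_const 4
  have hVi : Integrable V cm := by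
    refine Integrable.of_bound hVm.aestronglyMeasurable (K * B ^ 2 + s)
      (Filter.Eventually.of_forall fun ω => ?_)
    have a2 : ∑ q ∈ range K, G q ω ^ 2 ≤ K * B ^ 2 := by
      refine (sum_le_sum (g := fun _ => B ^ 2) fun q _ => ?_).trans (by simp)
      rw [← sq_abs]
      exact pow_le_pow_left₀ (abs_nonneg _) (hb q ω) 2
    have a4 : 0 ≤ ∑ q ∈ range K, G q ω ^ 2 := sum_nonneg fun _ _ => by positivity
    rw [Real.norm_eq_abs, hV, abs_abs, abs_le]
    constructor
    · have : 0 ≤ K * B ^ 2 := by positivity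
      linarith
    · linarith
  have hRi : Integrable R cm := by
    refine Integrable.of_bound hRm.aestronglyMeasurable (K * B ^ 4)
      (Filter.Eventually.of_forall fun ω => ?_)
    rw [Real.norm_eq_abs, abs_of_nonneg (hR0 ω)]
    refine (sum_le_sum (g := fun _ => B ^ 4) fun q _ => ?_).trans (by simp)
    have : G q ω ^ 4 = |G q ω| ^ 4 := by
      rw [← abs_pow, abs_of_nonneg (by positivity)]
    rw [this]
    exact pow_le_pow_left₀ (abs_nonneg _) (hb q ω) 4
  -- the bad event is bounded by `V / s + R`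
  have hbad : ∀ ω, (∀ q ∈ range K, tr s G q ω = G q ω) ∨ 1 ≤ V ω / s + R ω := by
    intro ω
    by_cases h1 : ∑ q ∈ range K, G q ω ^ 2 ≤ 2 * s
    · by_cases h2 : ∀ q ∈ range K, |G q ω| ≤ 1
      · left
        intro q hq
        unfold tr
        rw [if_pos]
        refine ⟨le_trans ?_ h1, h2 q hq⟩
        exact sum_le_sum_of_subset_of_nonneg (range_subset_range.2 (mem_range.1 hq))
          fun _ _ _ => sq_nonneg _
      · right
        push Not at h2
        obtain ⟨q, hq, h3⟩ := h2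
        have h4 : 1 ≤ G q ω ^ 4 := by
          have : G q ω ^ 4 = |G q ω| ^ 4 := by
            rw [← abs_pow, abs_of_nonneg (by positivity)]
          rw [this]
          exact one_le_pow₀ h3.le
        have h5 : G q ω ^ 4 ≤ R ω :=
          single_le_sum (f := fun q => G q ω ^ 4) (fun _ _ => by positivity) hq
        have : 0 ≤ V ω / s := div_nonneg (hV0 ω) hs.le
        linarith
    · right
      have h2 : s ≤ V ω := by
        rw [hV]
        refine le_trans ?_ (le_abs_self _)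
        linarith
      have h3 : 1 ≤ V ω / s := by rwa [one_le_div hs]
      linarith [hR0 ω]
  have hsm := small K (tr s G) (tr_pred s G hp) (tr_meas s G hm) (tr_le s G) s hs.le
    (tr_sum s hs.le G K)
  set E1 : (ℕ → Bool) → ℂ := fun ω =>
    Complex.exp (Complex.I * ((∑ q ∈ range K, es q ω * G q ω : ℝ) : ℂ)) with hE1
  set E2 : (ℕ → Bool) → ℂ := fun ω =>
    Complex.exp (Complex.I * ((∑ q ∈ range K, es q ω * tr s G q ω : ℝ) : ℂ)) with hE2
  have hEm : ∀ g : ℕ → (ℕ → Bool) → ℝ, (∀ q, Measurable (g q)) → Integrable (fun ω =>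
      Complex.exp (Complex.I * ((∑ q ∈ range K, es q ω * g q ω : ℝ) : ℂ))) cm := by
    intro g hg
    refine Integrable.of_bound ?_ 1 (Filter.Eventually.of_forall fun ω => ?_)
    · refine (Complex.measurable_exp.comp (Measurable.const_mul (Complex.measurable_ofReal.comp
        (Finset.measurable_fun_sum _ fun q _ => (meas_es q).mul (hg q))) _)).aestronglyMeasurable
    · rw [mul_comm Complex.I, Complex.norm_exp_ofReal_mul_I]
  have hi1 : Integrable E1 cm := hEm G hm
  have hi2 : Integrable E2 cm := hEm (tr s G) (tr_meas s G hm)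
  have hn1 : ∀ ω, ‖E1 ω‖ = 1 := fun ω => by
    rw [hE1]
    simp only
    rw [mul_comm Complex.I, Complex.norm_exp_ofReal_mul_I]
  have hn2 : ∀ ω, ‖E2 ω‖ = 1 := fun ω => by
    rw [hE2]
    simp only
    rw [mul_comm Complex.I, Complex.norm_exp_ofReal_mul_I]
  have hdiff : ‖(∫ ω, E1 ω ∂cm) - ∫ ω, E2 ω ∂cm‖ ≤ ∫ ω, 2 * (V ω / s + R ω) ∂cm := by
    rw [← integral_sub hi1 hi2]
    refine (norm_integral_le_integral_norm _).trans ?_
    refine integral_mono_of_nonneg (Filter.Eventually.of_forall fun _ => norm_nonneg _)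
      (((hVi.div_const s).add hRi).const_mul 2) (Filter.Eventually.of_forall fun ω => ?_)
    simp only
    rcases hbad ω with h | h
    · have : E1 ω = E2 ω := by
        rw [hE1, hE2]
        simp only
        have h3 : ∑ q ∈ range K, es q ω * tr s G q ω = ∑ q ∈ range K, es q ω * G q ω :=
          sum_congr rfl fun q hq => by rw [h q hq]
        rw [h3]
      rw [this, sub_self, norm_zero]
      have a1 := hR0 ω
      have a2 : 0 ≤ V ω / s := div_nonneg (hV0 ω) hs.le
      linarith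
    · refine (norm_sub_le _ _).trans ?_
      rw [hn1, hn2]
      linarith
  have hsecond : ∫ ω, (∑ q ∈ range K, tr s G q ω ^ 4 +
      1 / 2 * |∑ q ∈ range K, tr s G q ω ^ 2 - s|) ∂cm ≤
      ∫ ω, (R ω + 1 / 2 * (V ω + s * (V ω / s + R ω))) ∂cm := by
    refine integral_mono_of_nonneg (Filter.Eventually.of_forall fun ω => ?_)
      (hRi.add ((hVi.add (((hVi.div_const s).add hRi).const_mul s)).const_mul (1 / 2)))
      (Filter.Eventually.of_forall fun ω => ?_)
    · simp only [Pi.zero_apply]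
      exact add_nonneg (sum_nonneg fun _ _ => by positivity) (by positivity)
    · simp only
      refine add_le_add (sum_le_sum fun q _ => tr_four_le s G q ω) ?_
      refine mul_le_mul_of_nonneg_left ?_ (by norm_num)
      have a1 := hR0 ω
      have a2 : 0 ≤ V ω / s := div_nonneg (hV0 ω) hs.le
      rcases hbad ω with h | h
      · have : ∑ q ∈ range K, tr s G q ω ^ 2 = ∑ q ∈ range K, G q ω ^ 2 :=
          sum_congr rfl fun q hq => by rw [h q hq]
        rw [this]
        have : 0 ≤ s * (V ω / s + R ω) := mul_nonneg hs.le (by linarith)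
        have hVe : V ω = |∑ q ∈ range K, G q ω ^ 2 - s| := rfl
        linarith
      · have b1 := tr_sum s hs.le G K ω
        have b2 : 0 ≤ ∑ q ∈ range K, tr s G q ω ^ 2 := sum_nonneg fun _ _ => sq_nonneg _
        have b3 : |∑ q ∈ range K, tr s G q ω ^ 2 - s| ≤ s := by
          rw [abs_le]
          constructor <;> linarith
        have b4 : s * 1 ≤ s * (V ω / s + R ω) := mul_le_mul_of_nonneg_left h hs.le
        have := hV0 ω
        linarith
  have c1 : ∫ ω, 2 * (V ω / s + R ω) ∂cm = 2 * ((∫ ω, V ω ∂cm) / s + ∫ ω, R ω ∂cm) := by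
    rw [integral_const_mul, integral_add (hVi.div_const s) hRi, integral_div]
  have c2 : ∫ ω, (R ω + 1 / 2 * (V ω + s * (V ω / s + R ω))) ∂cm =
      (∫ ω, R ω ∂cm) + 1 / 2 * ((∫ ω, V ω ∂cm) + s * ((∫ ω, V ω ∂cm) / s + ∫ ω, R ω ∂cm)) := by
    have i3 : Integrable (fun ω => s * (V ω / s + R ω)) cm :=
      ((hVi.div_const s).add hRi).const_mul s
    have i4 : Integrable (fun ω => V ω + s * (V ω / s + R ω)) cm := hVi.add i3
    rw [integral_add hRi (i4.const_mul _), integral_const_mul, integral_add hVi i3,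
      integral_const_mul, integral_add (hVi.div_const s) hRi, integral_div]
  rw [c1] at hdiff
  rw [c2] at hsecond
  set v := ∫ ω, V ω ∂cm with hv
  set r := ∫ ω, R ω ∂cm with hr
  have hv0 : 0 ≤ v := integral_nonneg hV0
  have hr0 : 0 ≤ r := integral_nonneg hR0
  have hex : 0 < Real.exp (2 * s) := Real.exp_pos _
  have d1 : s * (v / s + r) = v + s * r := by
    field_simp
  rw [d1] at hsecond
  have d2 : ‖(∫ ω, E2 ω ∂cm) - ((Real.exp (-(s / 2)) : ℝ) : ℂ)‖ ≤
      Real.exp (2 * s) * (r + 1 / 2 * (v + (v + s * r))) :=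
    hsm.trans (mul_le_mul_of_nonneg_left hsecond hex.le)
  have d3 : (∫ ω, E1 ω ∂cm) - ((Real.exp (-(s / 2)) : ℝ) : ℂ) =
      ((∫ ω, E1 ω ∂cm) - ∫ ω, E2 ω ∂cm) + ((∫ ω, E2 ω ∂cm) - ((Real.exp (-(s / 2)) : ℝ) : ℂ)) := by
    ring
  rw [d3]
  refine (norm_add_le _ _).trans ((add_le_add hdiff d2).trans ?_)
  have d4 : 2 * (v / s + r) = 2 / s * v + 2 * r := by ring
  rw [d4]
  have d5 : 0 ≤ 2 / s := by positivity
  nlinarith [mul_nonneg d5 hr0, mul_nonneg hex.le hv0, mul_nonneg hex.le hr0,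
    mul_nonneg (mul_nonneg hex.le hs.le) hr0, mul_nonneg (mul_nonneg hex.le hs.le) hv0]

end Pool.Agent.Q163.CL
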