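import Pool.Agent.Q163.CL.Var

set_option autoImplicit false

/-!
# The second moment of the empirical characteristic function
-/

namespace Pool.Agent.Q163.CL

open Finset Filter Topology MeasureTheory Pool.Agent.Q163.RP Pool.Agent.Q163.RX Pool.Agent.Q163.GC

noncomputable def kap : ℝ := 6 / Real.pi ^ 2

lemma kap_pos : 0 < kap := by
  unfold kap
  positivity

lemma kap_le : kap ≤ 1 := by
  unfold kap
  have := Real.pi_gt_three
  rw [div_le_one (by positivity)]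
  nlinarith

lemma WI_meas (a : ℕ → ℝ) (I : Finset ℕ) : Measurable (WI a I) := by
  unfold WI
  exact Finset.measurable_fun_sum _ fun n _ => (meas_ch _).const_mul _

lemma cos_of_cf {X : (ℕ → Bool) → ℝ} (hX : Measurable X) {c R : ℝ}
    (h : ‖(∫ ω, Complex.exp (Complex.I * ((X ω : ℝ) : ℂ)) ∂cm) - ((c : ℝ) : ℂ)‖ ≤ R) :
    |∫ ω, Real.cos (X ω) ∂cm - c| ≤ R := by
  have hint : Integrable (fun ω => Complex.exp (Complex.I * ((X ω : ℝ) : ℂ))) cm := by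
    refine Integrable.of_bound ?_ 1 (Eventually.of_forall fun ω => ?_)
    · exact (Complex.measurable_exp.comp
        ((Complex.measurable_ofReal.comp hX).const_mul Complex.I)).aestronglyMeasurable
    · rw [mul_comm, Complex.norm_exp_ofReal_mul_I]
  have e1 : ∫ ω, Real.cos (X ω) ∂cm =
      (∫ ω, Complex.exp (Complex.I * ((X ω : ℝ) : ℂ)) ∂cm).re := by
    have h1 := integral_re hint
    have h2 : ∀ ω, RCLike.re (Complex.exp (Complex.I * ((X ω : ℝ) : ℂ))) = Real.cos (X ω) := by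
      intro ω
      rw [mul_comm]
      exact Complex.exp_ofReal_mul_I_re _
    simp_rw [h2] at h1
    exact h1
  rw [e1]
  refine le_trans ?_ h
  have h3 := Complex.abs_re_le_norm ((∫ ω, Complex.exp (Complex.I * ((X ω : ℝ) : ℂ)) ∂cm) - ((c : ℝ) : ℂ))
  rwa [Complex.sub_re, Complex.ofReal_re] at h3

/-- the constant -/
noncomputable def AA (s : ℝ) : ℝ := 2 / s + 2 + Real.exp (2 * s) * (2 + s)

lemma AA_nonneg {s : ℝ} (hs : 0 < s) : 0 ≤ AA s := by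
  unfold AA
  positivity

noncomputable def rr (a : ℕ → ℝ) (v : ℝ) (I : Finset ℕ) : ℝ :=
  Real.sqrt (2 * (UU I I).card + (QQ4 I I).card) + |∑ n ∈ I, a n ^ 2 - v|

noncomputable def ff (I : Finset ℕ) : ℝ := 3 * (UU I I).card + (QQ4 I I).card

noncomputable def qq (I J : Finset ℕ) : ℝ := Real.sqrt ((UU I J).card + (QQ4 I J).card)

lemma ff_nonneg (I : Finset ℕ) : 0 ≤ ff I := by unfold ff; positivity

lemma rr_nonneg (a : ℕ → ℝ) (v : ℝ) (I : Finset ℕ) : 0 ≤ rr a v I := by unfold rr; positivity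

lemma qq_nonneg (I J : Finset ℕ) : 0 ≤ qq I J := by unfold qq; positivity

lemma two_win (a : ℕ → ℝ) (ha : ∀ n, |a n| ≤ 1) (ha0 : ∀ n, a n ≠ 0 → Squarefree n)
    (I J : Finset ℕ) (hI : ∀ n ∈ I, 2 ≤ n) (hJ : ∀ n ∈ J, 2 ≤ n) (hIJ : Disjoint I J)
    (τ v : ℝ) (hs : 0 < τ ^ 2 * (v + v)) :
    |∫ ω, Real.cos (τ * WI a I ω - τ * WI a J ω) ∂cm - Real.exp (-(τ ^ 2 * (v + v) / 2))| ≤
      AA (τ ^ 2 * (v + v)) * (τ ^ 2 * (rr a v I + rr a v J + 2 * qq I J) +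
        8 * τ ^ 4 * (ff I + ff J)) := by
  have h1 := cf a ha ha0 I J hI hJ hIJ τ v v hs
  have h2 := cos_of_cf (X := fun ω => τ * (WI a I ω - WI a J ω))
    (((WI_meas a I).sub (WI_meas a J)).const_mul τ) h1
  have e1 : ∀ ω, τ * WI a I ω - τ * WI a J ω = τ * (WI a I ω - WI a J ω) := fun ω => by ring
  simp_rw [e1]
  exact h2

lemma one_win (a : ℕ → ℝ) (ha : ∀ n, |a n| ≤ 1) (ha0 : ∀ n, a n ≠ 0 → Squarefree n)
    (I : Finset ℕ) (hI : ∀ n ∈ I, 2 ≤ n) (τ v : ℝ) (hs : 0 < τ ^ 2 * v) :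
    |∫ ω, Real.cos (τ * WI a I ω) ∂cm - Real.exp (-(τ ^ 2 * v / 2))| ≤
      AA (τ ^ 2 * v) * (τ ^ 2 * rr a v I + 8 * τ ^ 4 * ff I) := by
  have h1 := cf a ha ha0 I ∅ hI (fun n hn => absurd hn (notMem_empty n)) (disjoint_empty_right I)
    τ v 0 (by rwa [add_zero])
  have h2 := cos_of_cf (X := fun ω => τ * (WI a I ω - WI a ∅ ω))
    (((WI_meas a I).sub (WI_meas a ∅)).const_mul τ) h1
  have e0 : ∀ ω, WI a ∅ ω = 0 := fun ω => by unfold WI; simp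
  have e1 : UU (∅ : Finset ℕ) ∅ = ∅ := by unfold UU; simp
  have e2 : QQ4 (∅ : Finset ℕ) ∅ = ∅ := by unfold QQ4; simp
  have e3 : UU I ∅ = ∅ := by unfold UU; simp
  have e4 : QQ4 I ∅ = ∅ := by unfold QQ4; simp
  simp_rw [e0, sub_zero] at h2
  rw [e1, e2, e3, e4, add_zero] at h2
  simp only [card_empty, Nat.cast_zero, mul_zero, add_zero, Real.sqrt_zero, sum_empty,
    abs_zero] at h2
  unfold AA rr ff
  exact h2

/-- the means of cosine and sine -/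
noncomputable def Cm (θ : ℕ → ℝ) (N : ℕ) : ℝ := (∑ x ∈ Ico N (2 * N), Real.cos (θ x)) / N

noncomputable def Sm (θ : ℕ → ℝ) (N : ℕ) : ℝ := (∑ x ∈ Ico N (2 * N), Real.sin (θ x)) / N

lemma expand (θ : ℕ → ℝ) (N : ℕ) (φ : ℝ) :
    (Cm θ N - φ) ^ 2 + Sm θ N ^ 2 =
      (∑ x ∈ Ico N (2 * N), ∑ y ∈ Ico N (2 * N), Real.cos (θ x - θ y)) / (N : ℝ) ^ 2 -
        2 * φ * ((∑ x ∈ Ico N (2 * N), Real.cos (θ x)) / N) + φ ^ 2 := by
  have e1 : ∑ x ∈ Ico N (2 * N), ∑ y ∈ Ico N (2 * N), Real.cos (θ x - θ y) =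
      (∑ x ∈ Ico N (2 * N), Real.cos (θ x)) ^ 2 + (∑ x ∈ Ico N (2 * N), Real.sin (θ x)) ^ 2 := by
    rw [sq, sq, sum_mul_sum, sum_mul_sum, ← sum_add_distrib]
    refine sum_congr rfl fun x _ => ?_
    rw [← sum_add_distrib]
    exact sum_congr rfl fun y _ => Real.cos_sub _ _
  rw [e1]
  unfold Cm Sm
  ring

lemma second (N : ℕ) (θ : ℕ → (ℕ → Bool) → ℝ) (hθ : ∀ x, Measurable (θ x)) (φ : ℝ)
    (hφ : 0 ≤ φ) (E : ℕ → ℕ → ℝ) (F : ℕ → ℝ)
    (h1 : ∀ x ∈ Ico N (2 * N), ∀ y ∈ Ico N (2 * N), ∫ ω, Real.cos (θ x ω - θ y ω) ∂cm ≤ φ ^ 2 + E x y)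
    (h2 : ∀ x ∈ Ico N (2 * N), φ - F x ≤ ∫ ω, Real.cos (θ x ω) ∂cm) (hN : 1 ≤ N) :
    ∫ ω, ((Cm (fun x => θ x ω) N - φ) ^ 2 + Sm (fun x => θ x ω) N ^ 2) ∂cm ≤
      (∑ x ∈ Ico N (2 * N), ∑ y ∈ Ico N (2 * N), E x y) / (N : ℝ) ^ 2 +
        2 * φ * ((∑ x ∈ Ico N (2 * N), F x) / N) := by
  have hN0 : (0 : ℝ) < N := by exact_mod_cast hN
  have hcard : ((Ico N (2 * N)).card : ℝ) = N := by
    rw [Nat.card_Ico]
    congr 1
    omega
  have hic : ∀ X : (ℕ → Bool) → ℝ, Measurable X → Integrable (fun ω => Real.cos (X ω)) cm :=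
    fun X hX => Integrable.of_bound (Real.measurable_cos.comp hX).aestronglyMeasurable 1
      (Eventually.of_forall fun ω => Real.abs_cos_le_one _)
  simp_rw [expand]
  have i1 : ∀ x ∈ Ico N (2 * N), ∀ y ∈ Ico N (2 * N),
      Integrable (fun ω => Real.cos (θ x ω - θ y ω)) cm := fun x _ y _ => hic _ ((hθ x).sub (hθ y))
  have i2 : ∀ x ∈ Ico N (2 * N), Integrable (fun ω => Real.cos (θ x ω)) cm := fun x _ => hic _ (hθ x)
  have i3 : Integrable (fun ω => (∑ x ∈ Ico N (2 * N), ∑ y ∈ Ico N (2 * N),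
      Real.cos (θ x ω - θ y ω)) / (N : ℝ) ^ 2) cm :=
    (integrable_finsetSum _ fun x hx => integrable_finsetSum _ fun y hy => i1 x hx y hy).div_const _
  have i4 : Integrable (fun ω => 2 * φ * ((∑ x ∈ Ico N (2 * N), Real.cos (θ x ω)) / N)) cm :=
    ((integrable_finsetSum _ fun x hx => i2 x hx).div_const _).const_mul _
  have i5 : Integrable (fun ω => (∑ x ∈ Ico N (2 * N), ∑ y ∈ Ico N (2 * N),
      Real.cos (θ x ω - θ y ω)) / (N : ℝ) ^ 2 -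
      2 * φ * ((∑ x ∈ Ico N (2 * N), Real.cos (θ x ω)) / N)) cm := i3.sub i4
  rw [integral_add i5 (integrable_const _), integral_sub i3 i4, integral_div, integral_const_mul,
    integral_div, integral_finsetSum _ (fun x hx => integrable_finsetSum _ fun y hy => i1 x hx y hy),
    integral_finsetSum _ i2, integral_const, smul_eq_mul, probReal_univ, one_mul]
  have e1 : ∑ x ∈ Ico N (2 * N), ∫ ω, ∑ y ∈ Ico N (2 * N), Real.cos (θ x ω - θ y ω) ∂cm ≤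
      (N : ℝ) ^ 2 * φ ^ 2 + ∑ x ∈ Ico N (2 * N), ∑ y ∈ Ico N (2 * N), E x y := by
    calc ∑ x ∈ Ico N (2 * N), ∫ ω, ∑ y ∈ Ico N (2 * N), Real.cos (θ x ω - θ y ω) ∂cm
        = ∑ x ∈ Ico N (2 * N), ∑ y ∈ Ico N (2 * N), ∫ ω, Real.cos (θ x ω - θ y ω) ∂cm :=
          sum_congr rfl fun x hx => integral_finsetSum _ (i1 x hx)
      _ ≤ ∑ x ∈ Ico N (2 * N), ∑ y ∈ Ico N (2 * N), (φ ^ 2 + E x y) :=
          sum_le_sum fun x hx => sum_le_sum fun y hy => h1 x hx y hy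
      _ = (N : ℝ) ^ 2 * φ ^ 2 + ∑ x ∈ Ico N (2 * N), ∑ y ∈ Ico N (2 * N), E x y := by
          simp_rw [sum_add_distrib, sum_const, nsmul_eq_mul, hcard]
          ring
  have e2 : N * φ - ∑ x ∈ Ico N (2 * N), F x ≤ ∑ x ∈ Ico N (2 * N), ∫ ω, Real.cos (θ x ω) ∂cm := by
    calc N * φ - ∑ x ∈ Ico N (2 * N), F x = ∑ x ∈ Ico N (2 * N), (φ - F x) := by
          rw [sum_sub_distrib, sum_const, nsmul_eq_mul, hcard]
      _ ≤ _ := sum_le_sum h2
  have e3 : (∑ x ∈ Ico N (2 * N), ∫ ω, ∑ y ∈ Ico N (2 * N), Real.cos (θ x ω - θ y ω) ∂cm) / (N : ℝ) ^ 2 ≤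
      φ ^ 2 + (∑ x ∈ Ico N (2 * N), ∑ y ∈ Ico N (2 * N), E x y) / (N : ℝ) ^ 2 := by
    rw [div_le_iff₀ (by positivity), add_mul, div_mul_cancel₀ _ (by positivity)]
    linarith
  have e4 : φ - (∑ x ∈ Ico N (2 * N), F x) / N ≤ (∑ x ∈ Ico N (2 * N), ∫ ω, Real.cos (θ x ω) ∂cm) / N := by
    rw [le_div_iff₀ hN0, sub_mul, div_mul_cancel₀ _ hN0.ne']
    linarith
  have e5 := mul_le_mul_of_nonneg_left e4 (by linarith : 0 ≤ 2 * φ)
  nlinarith

lemma sum_sqrt_le {ι : Type*} (s : Finset ι) (c : ι → ℝ) (hc : ∀ i, 0 ≤ c i) :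
    ∑ i ∈ s, Real.sqrt (c i) ≤ Real.sqrt (s.card * ∑ i ∈ s, c i) := by
  refine Real.le_sqrt_of_sq_le ?_
  have h1 := sum_mul_sq_le_sq_mul_sq s (fun _ => (1 : ℝ)) (fun i => Real.sqrt (c i))
  simp only [one_mul, one_pow, sum_const, nsmul_eq_mul, mul_one] at h1
  refine h1.trans (le_of_eq ?_)
  congr 1
  exact sum_congr rfl fun i _ => Real.sq_sqrt (hc i)

lemma ev_log (K : ℝ) (k : ℕ) (ε : ℝ) (hε : 0 < ε) :
    ∀ᶠ N : ℕ in atTop, K * Real.log N ^ k ≤ (N : ℝ) ^ ε := by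
  have h1 := (isLittleO_log_rpow_rpow_atTop (k : ℝ) hε).bound
    (by positivity : (0 : ℝ) < 1 / (|K| + 1))
  have h2 := tendsto_natCast_atTop_atTop.eventually h1
  filter_upwards [h2, eventually_ge_atTop 1] with N h3 h4
  have hN : (1 : ℝ) ≤ N := by exact_mod_cast h4
  rw [Real.norm_eq_abs, Real.norm_eq_abs, abs_of_nonneg (by positivity : 0 ≤ (N : ℝ) ^ ε),
    Real.rpow_natCast, abs_of_nonneg (pow_nonneg (Real.log_nonneg hN) k)] at h3
  have h5 : 0 ≤ Real.log N ^ k := pow_nonneg (Real.log_nonneg hN) k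
  calc K * Real.log N ^ k ≤ (|K| + 1) * Real.log N ^ k :=
        mul_le_mul_of_nonneg_right (by linarith [le_abs_self K]) h5
    _ ≤ (|K| + 1) * (1 / (|K| + 1) * (N : ℝ) ^ ε) := mul_le_mul_of_nonneg_left h3 (by positivity)
    _ = (N : ℝ) ^ ε := by
        have : |K| + 1 ≠ 0 := by positivity
        field_simp

/-- the error terms on average -/
theorem errs (a : ℕ → ℝ) (ha : ∀ n, a n ^ 2 = Pool.Agent.Y293.SF.mu n ^ 2) (ε : ℝ) (hε : 0 < ε) :
    ∀ᶠ N : ℕ in atTop, 1 ≤ Real.log N ∧ ∀ h : ℕ, (N : ℝ) ^ ε ≤ h → (h : ℝ) ≤ (N : ℝ) ^ (1 - ε) →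
      (∑ x ∈ Ico N (2 * N), rr a (kap * h) (Iw x h) ≤ 12 * N * h / Real.log N ^ 4) ∧
      (∑ x ∈ Ico N (2 * N), ff (Iw x h) ≤ 10 * N * (h : ℝ) ^ 2 / Real.log N ^ 8) ∧
      (∑ x ∈ Ico N (2 * N), ∑ y ∈ Ico N (2 * N), qq (Iw x h) (Iw y h) ≤
        2 * (N : ℝ) ^ 2 * h / Real.log N ^ 4) ∧ 2 * (h : ℝ) ≤ N / Real.log N ^ 4 ∧ 1 ≤ h := by
  obtain ⟨C, hC, hQB⟩ := sum_QB (ε / 2) (by positivity)
  have t2 : Tendsto (fun N : ℕ => Real.log N) atTop atTop :=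
    Real.tendsto_log_atTop.comp tendsto_natCast_atTop_atTop
  filter_upwards [sum_UU ε hε, ev_log 1 8 ε hε, ev_log 2 4 ε hε, ev_log (324 * 9) 10 ε hε,
    ev_log (C * (3 : ℝ) ^ (ε / 2) * 9) 10 (ε / 2) (by positivity), eventually_ge_atTop 1,
    t2.eventually (eventually_ge_atTop 2)] with N h1 h2 h2' h3 h4 h5 h6
  refine ⟨by linarith, fun h hh1 hh2 => ?_⟩
  have hNR : (1 : ℝ) ≤ N := by exact_mod_cast h5
  have hN0 : (0 : ℝ) < N := by linarith
  have hhN : h ≤ N := by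
    have : (h : ℝ) ≤ N := by
      calc (h : ℝ) ≤ (N : ℝ) ^ (1 - ε) := hh2
        _ ≤ (N : ℝ) ^ (1 : ℝ) := Real.rpow_le_rpow_of_exponent_le hNR (by linarith)
        _ = N := Real.rpow_one _
    exact_mod_cast this
  obtain ⟨u1, u2⟩ := h1 h hh1 hhN
  set L := Real.log N with hL
  have hL0 : 0 < L := by linarith
  have hNe : (N : ℝ) ^ (1 - ε) * (N : ℝ) ^ ε = N := by
    rw [← Real.rpow_add hN0]
    norm_num
  have hh0 : (0 : ℝ) < h := lt_of_lt_of_le (by positivity) hh1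
  have hh1' : 1 ≤ h := by exact_mod_cast hh0
  have hlog3 : 1 + Real.log (3 * N) ≤ 3 * L := by
    rw [Real.log_mul (by norm_num) hN0.ne', ← hL]
    have : Real.log 3 ≤ 2 := by
      have := Real.log_le_sub_one_of_pos (by norm_num : (0 : ℝ) < 3)
      linarith
    linarith
  have hlog3' : 0 ≤ 1 + Real.log (3 * N) := by
    have := Real.log_nonneg (by linarith : (1 : ℝ) ≤ 3 * N)
    linarith
  have hlogsq : (1 + Real.log (3 * N)) ^ 2 ≤ 9 * L ^ 2 := by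
    calc (1 + Real.log (3 * N)) ^ 2 ≤ (3 * L) ^ 2 := pow_le_pow_left₀ hlog3' hlog3 2
      _ = 9 * L ^ 2 := by ring
  -- diagonal quadruples
  have q1 : ∑ x ∈ Ico N (2 * N), ((QQ4 (Iw x h) (Iw x h)).card : ℝ) ≤ N * (h : ℝ) ^ 2 / L ^ 8 := by
    refine (sum_QA N h h5 hhN).trans ?_
    rw [le_div_iff₀ (by positivity)]
    calc 324 * (h : ℝ) ^ 3 * (1 + Real.log (3 * N)) ^ 2 * L ^ 8
        ≤ 324 * (h : ℝ) ^ 3 * (9 * L ^ 2) * L ^ 8 := by
          refine mul_le_mul_of_nonneg_right ?_ (by positivity)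
          exact mul_le_mul_of_nonneg_left hlogsq (by positivity)
      _ = (h : ℝ) ^ 2 * (h * (324 * 9 * L ^ 10)) := by ring
      _ ≤ (h : ℝ) ^ 2 * ((N : ℝ) ^ (1 - ε) * (N : ℝ) ^ ε) := by
          refine mul_le_mul_of_nonneg_left ?_ (by positivity)
          exact mul_le_mul hh2 h3 (by positivity) (by positivity)
      _ = N * (h : ℝ) ^ 2 := by rw [hNe]; ring
  have q2 : ∑ x ∈ Ico N (2 * N), ∑ y ∈ Ico N (2 * N), ((QQ4 (Iw x h) (Iw y h)).card : ℝ) ≤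
      (N : ℝ) ^ 2 * (h : ℝ) ^ 2 / L ^ 8 := by
    refine (hQB N h h5 hhN).trans ?_
    rw [le_div_iff₀ (by positivity)]
    have e1 : (3 * (N : ℝ)) ^ (ε / 2) = (3 : ℝ) ^ (ε / 2) * (N : ℝ) ^ (ε / 2) :=
      Real.mul_rpow (by norm_num) hN0.le
    have e2 : (N : ℝ) ^ ε = (N : ℝ) ^ (ε / 2) * (N : ℝ) ^ (ε / 2) := by
      rw [← Real.rpow_add hN0]
      congr 1
      ring
    rw [e1]
    calc C * (h : ℝ) ^ 3 * N * ((3 : ℝ) ^ (ε / 2) * (N : ℝ) ^ (ε / 2)) *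
          (1 + Real.log (3 * N)) ^ 2 * L ^ 8
        ≤ C * (h : ℝ) ^ 3 * N * ((3 : ℝ) ^ (ε / 2) * (N : ℝ) ^ (ε / 2)) * (9 * L ^ 2) * L ^ 8 := by
          refine mul_le_mul_of_nonneg_right ?_ (by positivity)
          exact mul_le_mul_of_nonneg_left hlogsq (by positivity)
      _ = N * (h : ℝ) ^ 2 * (h * ((N : ℝ) ^ (ε / 2) * (C * (3 : ℝ) ^ (ε / 2) * 9 * L ^ 10))) := by ring
      _ ≤ N * (h : ℝ) ^ 2 * ((N : ℝ) ^ (1 - ε) * ((N : ℝ) ^ (ε / 2) * (N : ℝ) ^ (ε / 2))) := by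
          refine mul_le_mul_of_nonneg_left ?_ (by positivity)
          refine mul_le_mul hh2 ?_ (by positivity) (by positivity)
          exact mul_le_mul_of_nonneg_left h4 (by positivity)
      _ = (N : ℝ) ^ 2 * (h : ℝ) ^ 2 := by
          rw [← e2, hNe]
          ring
  have hcard : ((Ico N (2 * N)).card : ℝ) = N := by
    rw [Nat.card_Ico]
    congr 1
    omega
  have hsq : Real.sqrt h ≤ h / L ^ 4 := by
    have a1 : L ^ 4 ≤ Real.sqrt h := by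
      refine Real.le_sqrt_of_sq_le ?_
      have a2 : (L ^ 4) ^ 2 = 1 * L ^ 8 := by ring
      rw [a2]
      exact h2.trans hh1
    rw [le_div_iff₀ (by positivity)]
    calc Real.sqrt h * L ^ 4 ≤ Real.sqrt h * Real.sqrt h :=
          mul_le_mul_of_nonneg_left a1 (Real.sqrt_nonneg _)
      _ = h := Real.mul_self_sqrt hh0.le
  refine ⟨?_, ?_, ?_, ?_, hh1'⟩
  · unfold rr
    rw [sum_add_distrib]
    have b1 : ∑ x ∈ Ico N (2 * N), |∑ n ∈ Iw x h, a n ^ 2 - kap * h| ≤ 9 * N * Real.sqrt h := by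
      refine le_trans (le_of_eq ?_) (sum_VW N h hh1' hhN)
      refine sum_congr rfl fun x _ => ?_
      unfold VW kap
      simp_rw [ha]
    have b2 := sum_sqrt_le (Ico N (2 * N))
      (fun x => 2 * ((UU (Iw x h) (Iw x h)).card : ℝ) + (QQ4 (Iw x h) (Iw x h)).card)
      (fun x => by positivity)
    have b3 : Real.sqrt ((Ico N (2 * N)).card * ∑ x ∈ Ico N (2 * N),
        (2 * ((UU (Iw x h) (Iw x h)).card : ℝ) + (QQ4 (Iw x h) (Iw x h)).card)) ≤ 3 * N * h / L ^ 4 := by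
      refine Real.sqrt_le_iff.2 ⟨by positivity, ?_⟩
      rw [hcard, sum_add_distrib, ← mul_sum]
      calc (N : ℝ) * (2 * ∑ x ∈ Ico N (2 * N), ((UU (Iw x h) (Iw x h)).card : ℝ) +
            ∑ x ∈ Ico N (2 * N), ((QQ4 (Iw x h) (Iw x h)).card : ℝ))
          ≤ N * (2 * (3 * N * (h : ℝ) ^ 2 / L ^ 8) + N * (h : ℝ) ^ 2 / L ^ 8) :=
            mul_le_mul_of_nonneg_left (add_le_add (mul_le_mul_of_nonneg_left u1 (by norm_num)) q1)
              hN0.le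
        _ = 7 * ((N : ℝ) ^ 2 * (h : ℝ) ^ 2 / L ^ 8) := by ring
        _ ≤ 9 * ((N : ℝ) ^ 2 * (h : ℝ) ^ 2 / L ^ 8) :=
            mul_le_mul_of_nonneg_right (by norm_num) (by positivity)
        _ = (3 * N * h / L ^ 4) ^ 2 := by ring
    calc _ ≤ 3 * N * h / L ^ 4 + 9 * N * Real.sqrt h := add_le_add (b2.trans b3) b1
      _ ≤ 3 * N * h / L ^ 4 + 9 * N * (h / L ^ 4) :=
          add_le_add_right (mul_le_mul_of_nonneg_left hsq (by positivity)) _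
      _ = 12 * N * h / L ^ 4 := by ring
  · unfold ff
    rw [sum_add_distrib, ← mul_sum]
    calc 3 * ∑ x ∈ Ico N (2 * N), ((UU (Iw x h) (Iw x h)).card : ℝ) +
          ∑ x ∈ Ico N (2 * N), ((QQ4 (Iw x h) (Iw x h)).card : ℝ)
        ≤ 3 * (3 * N * (h : ℝ) ^ 2 / L ^ 8) + N * (h : ℝ) ^ 2 / L ^ 8 :=
          add_le_add (mul_le_mul_of_nonneg_left u1 (by norm_num)) q1
      _ = 10 * N * (h : ℝ) ^ 2 / L ^ 8 := by ring
  · unfold qq
    have b1 : ∑ x ∈ Ico N (2 * N), ∑ y ∈ Ico N (2 * N),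
        Real.sqrt ((UU (Iw x h) (Iw y h)).card + (QQ4 (Iw x h) (Iw y h)).card) =
        ∑ t ∈ Ico N (2 * N) ×ˢ Ico N (2 * N),
          Real.sqrt ((UU (Iw t.1 h) (Iw t.2 h)).card + (QQ4 (Iw t.1 h) (Iw t.2 h)).card) := by
      rw [sum_product]
    rw [b1]
    refine (sum_sqrt_le _ (fun t : ℕ × ℕ => ((UU (Iw t.1 h) (Iw t.2 h)).card : ℝ) +
      (QQ4 (Iw t.1 h) (Iw t.2 h)).card) (fun t => by positivity)).trans ?_
    refine Real.sqrt_le_iff.2 ⟨by positivity, ?_⟩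
    rw [card_product]
    push_cast
    rw [hcard, sum_add_distrib, sum_product, sum_product]
    calc (N : ℝ) * N * (∑ x ∈ Ico N (2 * N), ∑ y ∈ Ico N (2 * N), ((UU (Iw x h) (Iw y h)).card : ℝ) +
          ∑ x ∈ Ico N (2 * N), ∑ y ∈ Ico N (2 * N), ((QQ4 (Iw x h) (Iw y h)).card : ℝ))
        ≤ N * N * (3 * (N : ℝ) ^ 2 * (h : ℝ) ^ 2 / L ^ 8 + (N : ℝ) ^ 2 * (h : ℝ) ^ 2 / L ^ 8) :=
          mul_le_mul_of_nonneg_left (add_le_add u2 q2) (by positivity)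
      _ = (2 * (N : ℝ) ^ 2 * h / L ^ 4) ^ 2 := by ring
  · rw [le_div_iff₀ (by positivity)]
    calc 2 * (h : ℝ) * L ^ 4 = h * (2 * L ^ 4) := by ring
      _ ≤ (N : ℝ) ^ (1 - ε) * (N : ℝ) ^ ε := mul_le_mul hh2 h2' (by positivity) (by positivity)
      _ = N := hNe

lemma near_card (N h : ℕ) (x : ℕ) :
    (((Ico N (2 * N)).filter fun y => ¬ (x + h ≤ y ∨ y + h ≤ x)).card : ℝ) ≤ 2 * h := by
  have h1 : ((Ico N (2 * N)).filter fun y => ¬ (x + h ≤ y ∨ y + h ≤ x)).card ≤ 2 * h := by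
    calc ((Ico N (2 * N)).filter fun y => ¬ (x + h ≤ y ∨ y + h ≤ x)).card
        ≤ (Ico (x - h) x ∪ Ico x (x + h)).card := by
          refine card_le_card fun y hy => ?_
          have := (mem_filter.1 hy).2
          rw [mem_union, mem_Ico, mem_Ico]
          omega
      _ ≤ (Ico (x - h) x).card + (Ico x (x + h)).card := card_union_le _ _
      _ ≤ 2 * h := by
          rw [Nat.card_Ico, Nat.card_Ico]
          omega
  exact_mod_cast h1

/-- **The second moment.** -/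
theorem moment (a : ℕ → ℝ) (ha : ∀ n, a n ^ 2 = Pool.Agent.Y293.SF.mu n ^ 2) (ε : ℝ) (hε : 0 < ε)
    (t : ℝ) (ht : t ≠ 0) : ∃ C : ℝ, 0 ≤ C ∧ ∀ᶠ N : ℕ in atTop, ∀ h : ℕ,
      (N : ℝ) ^ ε ≤ h → (h : ℝ) ≤ (N : ℝ) ^ (1 - ε) →
      ∫ ω, ((Cm (fun x => t / Real.sqrt (kap * h) * WI a (Iw x h) ω) N - Real.exp (-t ^ 2 / 2)) ^ 2 +
        Sm (fun x => t / Real.sqrt (kap * h) * WI a (Iw x h) ω) N ^ 2) ∂cm ≤ C / Real.log N ^ 4 := by
  have ha1 : ∀ n, |a n| ≤ 1 := by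
    intro n
    have h1 : a n ^ 2 ≤ 1 := by
      rw [ha, ← sq_abs]
      exact pow_le_one₀ (abs_nonneg _) (Pool.Agent.Y293.SF.abs_mu_le n)
    exact abs_le_one_iff_mul_self_le_one.2 (by rwa [← sq])
  have ha0 : ∀ n, a n ≠ 0 → Squarefree n := by
    intro n hn
    refine mu_ne n fun h0 => hn ?_
    have h1 := ha n
    rw [h0] at h1
    exact pow_eq_zero_iff two_ne_zero |>.1 (by rw [h1]; norm_num)
  set b : ℝ := t ^ 2 / kap with hb
  have hkap := kap_pos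
  have hb0 : 0 < b := by positivity
  set φ : ℝ := Real.exp (-t ^ 2 / 2) with hφ
  have hφ0 : 0 < φ := Real.exp_pos _
  set A := AA (2 * t ^ 2) with hA
  set A' := AA (t ^ 2) with hA'
  have hA0 : 0 ≤ A := AA_nonneg (by positivity)
  have hA0' : 0 ≤ A' := AA_nonneg (by positivity)
  refine ⟨A * (28 * b + 160 * b ^ 2) + 1 + 2 * φ * (A' * (12 * b + 80 * b ^ 2)), by positivity, ?_⟩
  filter_upwards [errs a ha ε hε, eventually_ge_atTop 1] with N h1 h5 h hh1 hh2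
  obtain ⟨hL1, h1⟩ := h1
  obtain ⟨r1, r2, r3, r4, hh⟩ := h1 h hh1 hh2
  set L := Real.log N with hL
  have hL0 : 0 < L := by linarith
  have hN0 : (0 : ℝ) < N := by exact_mod_cast h5
  have hh0 : (0 : ℝ) < h := by exact_mod_cast hh
  set τ := t / Real.sqrt (kap * h) with hτ
  have hτ2 : τ ^ 2 * (kap * h) = t ^ 2 := by
    rw [hτ, div_pow, Real.sq_sqrt (by positivity)]
    field_simp
  have hτ2' : τ ^ 2 * h = b := by
    rw [hb, eq_div_iff hkap.ne', ← hτ2]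
    ring
  have hs1 : τ ^ 2 * (kap * h + kap * h) = 2 * t ^ 2 := by
    rw [← hτ2]
    ring
  have hIw : ∀ x ∈ Ico N (2 * N), ∀ n ∈ Iw x h, 2 ≤ n := by
    intro x hx n hn
    have := (mem_Ico.1 hx).1
    have := (mem_Iw.1 hn).1
    omega
  set R : ℕ → ℕ → ℝ := fun x y => A * (τ ^ 2 * (rr a (kap * h) (Iw x h) + rr a (kap * h) (Iw y h) +
    2 * qq (Iw x h) (Iw y h)) + 8 * τ ^ 4 * (ff (Iw x h) + ff (Iw y h))) with hR
  have hR0 : ∀ x y, 0 ≤ R x y := by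
    intro x y
    rw [hR]
    have := rr_nonneg a (kap * h) (Iw x h)
    have := rr_nonneg a (kap * h) (Iw y h)
    have := qq_nonneg (Iw x h) (Iw y h)
    have := ff_nonneg (Iw x h)
    have := ff_nonneg (Iw y h)
    positivity
  have key := second N (fun x ω => τ * WI a (Iw x h) ω) (fun x => (WI_meas a _).const_mul τ) φ
    hφ0.le (fun x y => R x y + if ¬ (x + h ≤ y ∨ y + h ≤ x) then 1 else 0)
    (fun x => A' * (τ ^ 2 * rr a (kap * h) (Iw x h) + 8 * τ ^ 4 * ff (Iw x h)))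
    (fun x hx y hy => by
      by_cases hc : x + h ≤ y ∨ y + h ≤ x
      · have h2 := two_win a ha1 ha0 (Iw x h) (Iw y h) (hIw x hx) (hIw y hy)
          (by
            rw [disjoint_left]
            intro n hn hn'
            rw [mem_Iw] at hn hn'
            omega) τ (kap * h) (by rw [hs1]; positivity)
        rw [hs1] at h2
        have e1 : Real.exp (-(2 * t ^ 2 / 2)) = φ ^ 2 := by
          rw [hφ, ← Real.exp_nat_mul]
          congr 1
          push_cast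
          ring
        rw [e1] at h2
        rw [if_neg (not_not.2 hc), add_zero]
        have := (abs_le.1 h2).2
        linarith
      · rw [if_pos hc]
        have h2 : ∫ ω, Real.cos (τ * WI a (Iw x h) ω - τ * WI a (Iw y h) ω) ∂cm ≤ 1 := by
          have h3 : ∫ ω, Real.cos (τ * WI a (Iw x h) ω - τ * WI a (Iw y h) ω) ∂cm ≤
              ∫ _ω, (1 : ℝ) ∂cm := by
            refine integral_mono (Integrable.of_bound ?_ 1 (Eventually.of_forall fun ω =>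
              Real.abs_cos_le_one _)) (integrable_const _) fun ω => Real.cos_le_one _
            exact (Real.measurable_cos.comp (((WI_meas a _).const_mul τ).sub
              ((WI_meas a _).const_mul τ))).aestronglyMeasurable
          rwa [integral_const, smul_eq_mul, probReal_univ, one_mul] at h3
        have := hR0 x y
        have : 0 ≤ φ ^ 2 := sq_nonneg _
        linarith)
    (fun x hx => by
      have h2 := one_win a ha1 ha0 (Iw x h) (hIw x hx) τ (kap * h) (by rw [hτ2]; positivity)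
      rw [hτ2] at h2
      have e1 : Real.exp (-(t ^ 2 / 2)) = φ := by
        rw [hφ]
        congr 1
        ring
      rw [e1] at h2
      have := (abs_le.1 h2).1
      linarith) h5
  refine key.trans ?_
  have hcard : ((Ico N (2 * N)).card : ℝ) = N := by
    rw [Nat.card_Ico]
    congr 1
    omega
  have hτh4 : τ ^ 4 * (h : ℝ) ^ 2 = b ^ 2 := by
    rw [← hτ2']
    ring
  have e1 : ∑ x ∈ Ico N (2 * N), ∑ y ∈ Ico N (2 * N), R x y =
      A * (τ ^ 2 * (2 * N * ∑ x ∈ Ico N (2 * N), rr a (kap * h) (Iw x h) +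
        2 * ∑ x ∈ Ico N (2 * N), ∑ y ∈ Ico N (2 * N), qq (Iw x h) (Iw y h)) +
        8 * τ ^ 4 * (2 * N * ∑ x ∈ Ico N (2 * N), ff (Iw x h))) := by
    rw [hR]
    simp only [← mul_sum, sum_add_distrib, sum_const, nsmul_eq_mul, hcard]
    ring
  have e2 : ∑ x ∈ Ico N (2 * N), ∑ y ∈ Ico N (2 * N), R x y ≤
      A * (28 * b + 160 * b ^ 2) * ((N : ℝ) ^ 2 / L ^ 4) := by
    rw [e1, mul_assoc A (28 * b + 160 * b ^ 2)]
    refine mul_le_mul_of_nonneg_left ?_ hA0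
    calc τ ^ 2 * (2 * N * ∑ x ∈ Ico N (2 * N), rr a (kap * h) (Iw x h) +
          2 * ∑ x ∈ Ico N (2 * N), ∑ y ∈ Ico N (2 * N), qq (Iw x h) (Iw y h)) +
          8 * τ ^ 4 * (2 * N * ∑ x ∈ Ico N (2 * N), ff (Iw x h))
        ≤ τ ^ 2 * (2 * N * (12 * N * h / L ^ 4) + 2 * (2 * (N : ℝ) ^ 2 * h / L ^ 4)) +
          8 * τ ^ 4 * (2 * N * (10 * N * (h : ℝ) ^ 2 / L ^ 8)) := by
          refine add_le_add (mul_le_mul_of_nonneg_left (add_le_add ?_ ?_) (sq_nonneg τ)) ?_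
          · exact mul_le_mul_of_nonneg_left r1 (by positivity)
          · exact mul_le_mul_of_nonneg_left r3 (by norm_num)
          · exact mul_le_mul_of_nonneg_left (mul_le_mul_of_nonneg_left r2 (by positivity))
              (by positivity)
      _ = 28 * (τ ^ 2 * h) * ((N : ℝ) ^ 2 / L ^ 4) +
          160 * (τ ^ 4 * (h : ℝ) ^ 2) * ((N : ℝ) ^ 2 / L ^ 8) := by ring
      _ ≤ 28 * b * ((N : ℝ) ^ 2 / L ^ 4) + 160 * b ^ 2 * ((N : ℝ) ^ 2 / L ^ 4) := by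
          rw [hτ2', hτh4]
          refine add_le_add le_rfl (mul_le_mul_of_nonneg_left ?_ (by positivity))
          exact div_le_div_of_nonneg_left (by positivity) (by positivity)
            (pow_le_pow_right₀ hL1 (by norm_num))
      _ = (28 * b + 160 * b ^ 2) * ((N : ℝ) ^ 2 / L ^ 4) := by ring
  have e3 : ∑ x ∈ Ico N (2 * N), ∑ y ∈ Ico N (2 * N),
      (if ¬ (x + h ≤ y ∨ y + h ≤ x) then (1 : ℝ) else 0) ≤ (N : ℝ) ^ 2 / L ^ 4 := by
    calc ∑ x ∈ Ico N (2 * N), ∑ y ∈ Ico N (2 * N),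
          (if ¬ (x + h ≤ y ∨ y + h ≤ x) then (1 : ℝ) else 0)
        ≤ ∑ _x ∈ Ico N (2 * N), 2 * (h : ℝ) := by
          refine sum_le_sum fun x _ => ?_
          rw [← sum_filter, sum_const, nsmul_eq_mul, mul_one]
          exact near_card N h x
      _ = N * (2 * h) := by rw [sum_const, nsmul_eq_mul, hcard]
      _ ≤ N * (N / L ^ 4) := mul_le_mul_of_nonneg_left r4 hN0.le
      _ = (N : ℝ) ^ 2 / L ^ 4 := by ring
  have e4 : ∑ x ∈ Ico N (2 * N), A' * (τ ^ 2 * rr a (kap * h) (Iw x h) + 8 * τ ^ 4 * ff (Iw x h)) ≤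
      A' * (12 * b + 80 * b ^ 2) * (N / L ^ 4) := by
    rw [← mul_sum, mul_assoc A' (12 * b + 80 * b ^ 2)]
    refine mul_le_mul_of_nonneg_left ?_ hA0'
    rw [sum_add_distrib, ← mul_sum, ← mul_sum]
    calc τ ^ 2 * ∑ x ∈ Ico N (2 * N), rr a (kap * h) (Iw x h) +
          8 * τ ^ 4 * ∑ x ∈ Ico N (2 * N), ff (Iw x h)
        ≤ τ ^ 2 * (12 * N * h / L ^ 4) + 8 * τ ^ 4 * (10 * N * (h : ℝ) ^ 2 / L ^ 8) :=
          add_le_add (mul_le_mul_of_nonneg_left r1 (sq_nonneg τ))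
            (mul_le_mul_of_nonneg_left r2 (by positivity))
      _ = 12 * (τ ^ 2 * h) * (N / L ^ 4) + 80 * (τ ^ 4 * (h : ℝ) ^ 2) * (N / L ^ 8) := by ring
      _ ≤ 12 * b * (N / L ^ 4) + 80 * b ^ 2 * (N / L ^ 4) := by
          rw [hτ2', hτh4]
          refine add_le_add le_rfl (mul_le_mul_of_nonneg_left ?_ (by positivity))
          exact div_le_div_of_nonneg_left hN0.le (by positivity)
            (pow_le_pow_right₀ hL1 (by norm_num))
      _ = (12 * b + 80 * b ^ 2) * (N / L ^ 4) := by ring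
  have e5 : (∑ x ∈ Ico N (2 * N), ∑ y ∈ Ico N (2 * N),
      (R x y + if ¬ (x + h ≤ y ∨ y + h ≤ x) then (1 : ℝ) else 0)) / (N : ℝ) ^ 2 ≤
      (A * (28 * b + 160 * b ^ 2) + 1) / L ^ 4 := by
    rw [div_le_iff₀ (by positivity)]
    simp only [sum_add_distrib]
    calc _ ≤ A * (28 * b + 160 * b ^ 2) * ((N : ℝ) ^ 2 / L ^ 4) + (N : ℝ) ^ 2 / L ^ 4 :=
          add_le_add e2 e3
      _ = (A * (28 * b + 160 * b ^ 2) + 1) / L ^ 4 * (N : ℝ) ^ 2 := by ring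
  have e6 : (∑ x ∈ Ico N (2 * N), A' * (τ ^ 2 * rr a (kap * h) (Iw x h) +
      8 * τ ^ 4 * ff (Iw x h))) / N ≤ A' * (12 * b + 80 * b ^ 2) / L ^ 4 := by
    rw [div_le_iff₀ hN0]
    calc _ ≤ A' * (12 * b + 80 * b ^ 2) * (N / L ^ 4) := e4
      _ = A' * (12 * b + 80 * b ^ 2) / L ^ 4 * N := by ring
  calc _ ≤ (A * (28 * b + 160 * b ^ 2) + 1) / L ^ 4 +
        2 * φ * (A' * (12 * b + 80 * b ^ 2) / L ^ 4) :=
        add_le_add e5 (mul_le_mul_of_nonneg_left e6 (by positivity))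
    _ = _ := by ring

end Pool.Agent.Q163.CL
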