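import Pool.Agent.Q163.CL.Cf

set_option autoImplicit false

/-!
# Quadruples of squarefree numbers in short windows with square product
-/

namespace Pool.Agent.Q163.CL

open Finset Pool.Agent.Q163.GC

/-- the window -/
def Iw (x h : ℕ) : Finset ℕ := Ioc x (x + h)

lemma mem_Iw {x h n : ℕ} : n ∈ Iw x h ↔ x < n ∧ n ≤ x + h := mem_Ioc

lemma card_Iw (x h : ℕ) : (Iw x h).card = h := by
  unfold Iw
  rw [Nat.card_Ioc]
  omega

lemma WI_Iw (a : ℕ → ℝ) (x h : ℕ) (ω : ℕ → Bool) :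
    WI a (Iw x h) ω = W (fun n => a n * ch ω n) x h := by
  unfold WI W Iw
  have : Ioc x (x + h) = Ico (x + 1) (x + 1 + h) := by
    ext n
    rw [mem_Ioc, mem_Ico]
    omega
  rw [this, sum_Ico_eq_sum_range, Nat.add_sub_cancel_left]
  refine sum_congr rfl fun j _ => ?_
  have e : x + 1 + j = x + j + 1 := by omega
  rw [e]

/-- six parameters for a quadruple -/
lemma param {n1 n2 n3 n4 : ℕ} (h1 : Squarefree n1) (h2 : Squarefree n2) (h3 : Squarefree n3)
    (h4 : Squarefree n4) (h : IsSquare (n1 * n2 * (n3 * n4))) :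
    ∃ g u v w z g' : ℕ, n1 = g * u * v ∧ n2 = g * w * z ∧ n3 = g' * u * w ∧ n4 = g' * v * z := by
  have hc := core_eq (q := (n1, n2)) (q' := (n3, n4)) h1 h2 h3 h4 h
  obtain ⟨e1, e2⟩ := red_mul (q := (n1, n2))
  obtain ⟨e3, e4⟩ := red_mul (q := (n3, n4))
  unfold cr at hc
  set g := (n1, n2).1.gcd (n1, n2).2
  set g' := (n3, n4).1.gcd (n3, n4).2
  set A := (red (n1, n2)).1
  set B := (red (n1, n2)).2
  set A' := (red (n3, n4)).1
  set B' := (red (n3, n4)).2
  simp only at e1 e2 e3 e4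
  have hA0 : A ≠ 0 := by
    intro h0
    rw [h0, mul_zero] at e1
    exact h1.ne_zero e1.symm
  have hu0 : 0 < A.gcd A' := Nat.gcd_pos_of_pos_left _ (Nat.pos_of_ne_zero hA0)
  obtain ⟨v, hv⟩ := Nat.gcd_dvd_left A A'
  obtain ⟨w, hw⟩ := Nat.gcd_dvd_right A A'
  set u := A.gcd A' with hu
  have hcop : Nat.Coprime v w := by
    have := Nat.coprime_div_gcd_div_gcd (m := A) (n := A') hu0
    rw [← hu] at this
    have ev : A / u = v := by
      conv_lhs => rw [hv]
      exact Nat.mul_div_cancel_left _ hu0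
    have ew : A' / u = w := by
      conv_lhs => rw [hw]
      exact Nat.mul_div_cancel_left _ hu0
    rwa [ev, ew] at this
  have h5 : v * B = w * B' := by
    have : u * (v * B) = u * (w * B') := by
      rw [← mul_assoc, ← mul_assoc, ← hv, ← hw]
      exact hc
    exact Nat.eq_of_mul_eq_mul_left hu0 this
  have h6 : w ∣ B := (hcop.symm).dvd_of_dvd_mul_left (h5 ▸ Dvd.intro _ rfl)
  obtain ⟨z, hz⟩ := h6
  have hw0 : w ≠ 0 := by
    intro h0
    rw [h0, mul_zero] at hw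
    rw [hw, mul_zero] at e3
    exact h3.ne_zero e3.symm
  have h7 : B' = v * z := by
    have : w * B' = w * (v * z) := by
      rw [← h5, hz]
      ring
    exact Nat.eq_of_mul_eq_mul_left (Nat.pos_of_ne_zero hw0) this
  refine ⟨g, u, v, w, z, g', ?_, ?_, ?_, ?_⟩
  · rw [← e1, hv]
    ring
  · rw [← e2, hz]
    ring
  · rw [← e3, hw]
    ring
  · rw [← e4, h7]
    ring

/-- two factors with nearly equal cofactors -/
lemma close {N h v w n1 n2 n3 n4 : ℕ} (hN : 1 ≤ N) (h1 : N ≤ n1) (h4 : N ≤ n4)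
    (h2 : n2 ≤ n1 + h) (h3 : n3 ≤ n4 + h) (he : w ^ 2 * (n1 * n4) = v ^ 2 * (n2 * n3)) :
    N * w ≤ v * (N + h) := by
  have h5 : N * n2 ≤ n1 * (N + h) := by nlinarith
  have h6 : N * n3 ≤ n4 * (N + h) := by nlinarith
  have h7 : (N * w) ^ 2 * (n1 * n4) ≤ (v * (N + h)) ^ 2 * (n1 * n4) := by
    calc (N * w) ^ 2 * (n1 * n4) = N ^ 2 * (w ^ 2 * (n1 * n4)) := by ring
      _ = v ^ 2 * ((N * n2) * (N * n3)) := by rw [he]; ring
      _ ≤ v ^ 2 * ((n1 * (N + h)) * (n4 * (N + h))) :=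
          Nat.mul_le_mul_left _ (Nat.mul_le_mul h5 h6)
      _ = (v * (N + h)) ^ 2 * (n1 * n4) := by ring
  have h8 : 0 < n1 * n4 := Nat.mul_pos (by omega) (by omega)
  have h9 := Nat.le_of_mul_le_mul_right h7 h8
  exact (Nat.pow_le_pow_iff_left two_ne_zero).1 h9

/-- the neighbourhood of `v` -/
def nb (N h v : ℕ) : Finset ℕ := Icc (v - v * h / N) (v + v * h / N)

lemma mem_nb {N h v w : ℕ} (hN : 1 ≤ N) (h1 : N * w ≤ v * (N + h)) (h2 : N * v ≤ w * (N + h)) :
    w ∈ nb N h v := by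
  unfold nb
  rw [mem_Icc]
  have key : ∀ a b : ℕ, b ≤ v → N * a ≤ b * (N + h) → a - b ≤ v * h / N := by
    intro a b hb hab
    have h3 : (a - b) ≤ v * h / N := by
      rw [Nat.le_div_iff_mul_le (by omega)]
      calc (a - b) * N = N * a - N * b := by rw [Nat.sub_mul, mul_comm a, mul_comm b]
        _ ≤ b * (N + h) - N * b := Nat.sub_le_sub_right hab _
        _ = b * h := by
            rw [mul_add, mul_comm N b, Nat.add_sub_cancel_left]
        _ ≤ v * h := Nat.mul_le_mul_right _ hb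
    exact h3
  have k1 := key w v le_rfl h1
  constructor
  · rcases le_or_gt v w with h3 | h3
    · exact (Nat.sub_le _ _).trans h3
    · have k2 := key v w h3.le h2
      generalize v * h / N = m at k1 k2 ⊢
      omega
  · generalize v * h / N = m at k1 ⊢
    omega

lemma card_nb (N h v : ℕ) : (nb N h v).card ≤ 2 * (v * h / N) + 1 := by
  unfold nb
  rw [Nat.card_Icc]
  generalize v * h / N = m
  omega

lemma card_nb_erase (N h v : ℕ) : ((nb N h v).erase v).card ≤ 2 * (v * h / N) := by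
  rw [card_erase_of_mem]
  · have := card_nb N h v
    omega
  · unfold nb
    rw [mem_Icc]
    exact ⟨Nat.sub_le _ _, Nat.le_add_right _ _⟩

open Classical in
/-- quadruples in a common window above `N` -/
noncomputable def TA (N h : ℕ) : Finset ((ℕ × ℕ) × (ℕ × ℕ)) :=
  ((Ioc N (3 * N) ×ˢ Ioc N (3 * N)) ×ˢ (Ioc N (3 * N) ×ˢ Ioc N (3 * N))).filter fun t =>
    (t.1.1 ≠ t.1.2 ∧ t.1.1 ≠ t.2.1 ∧ t.1.1 ≠ t.2.2) ∧
    (Squarefree t.1.1 ∧ Squarefree t.1.2 ∧ Squarefree t.2.1 ∧ Squarefree t.2.2) ∧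
    IsSquare (t.1.1 * t.1.2 * (t.2.1 * t.2.2)) ∧
    ∃ x, ∀ n ∈ ({t.1.1, t.1.2, t.2.1, t.2.2} : Finset ℕ), x < n ∧ n ≤ x + h

/-- triples with product at most `M` -/
def T3 (M : ℕ) : Finset (ℕ × ℕ × ℕ) :=
  ((Icc 1 M) ×ˢ ((Icc 1 M) ×ˢ (Icc 1 M))).filter fun t => t.1 * t.2.1 * t.2.2 ≤ M

lemma card_T3 (M : ℕ) : ((T3 M).card : ℝ) ≤ M * (1 + Real.log M) ^ 2 := by
  have h1 : (T3 M).card = ∑ g ∈ Icc 1 M, ∑ u ∈ Icc 1 M, M / (g * u) := by
    unfold T3
    rw [card_filter, sum_product]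
    refine sum_congr rfl fun g hg => ?_
    rw [sum_product]
    refine sum_congr rfl fun u hu => ?_
    rw [← card_filter]
    have hg1 := (mem_Icc.1 hg).1
    have hu1 := (mem_Icc.1 hu).1
    have hgu : 0 < g * u := Nat.mul_pos hg1 hu1
    have : (Icc 1 M).filter (fun v => g * u * v ≤ M) = Icc 1 (M / (g * u)) := by
      ext v
      rw [mem_filter, mem_Icc, mem_Icc, Nat.le_div_iff_mul_le hgu]
      constructor
      · rintro ⟨⟨a, b⟩, c⟩
        exact ⟨a, by rw [mul_comm]; exact c⟩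
      · rintro ⟨a, c⟩
        rw [mul_comm] at c
        refine ⟨⟨a, le_trans ?_ c⟩, c⟩
        exact Nat.le_mul_of_pos_left _ hgu
    rw [this, Nat.card_Icc, Nat.add_sub_cancel]
  rw [h1]
  push_cast
  calc ∑ g ∈ Icc 1 M, ∑ u ∈ Icc 1 M, ((M / (g * u) : ℕ) : ℝ)
      ≤ ∑ g ∈ Icc 1 M, ∑ u ∈ Icc 1 M, (M : ℝ) * ((1 / g) * (1 / u)) := by
        refine sum_le_sum fun g _ => sum_le_sum fun u _ => ?_
        refine (Nat.cast_div_le).trans (le_of_eq ?_)
        push_cast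
        rw [div_mul_div_comm, one_mul, mul_one_div]
    _ = M * ((∑ g ∈ Icc 1 M, (1 : ℝ) / g) * ∑ u ∈ Icc 1 M, (1 : ℝ) / u) := by
        rw [sum_mul_sum, mul_sum]
        refine sum_congr rfl fun g _ => ?_
        rw [mul_sum]
    _ ≤ M * (1 + Real.log M) ^ 2 := by
        rw [sq]
        have h4 := harm M
        have h5 : 0 ≤ ∑ x ∈ Icc 1 M, (1 : ℝ) / x := sum_nonneg fun _ _ => by positivity
        exact mul_le_mul_of_nonneg_left (mul_le_mul h4 h4 h5 (h5.trans h4)) (by positivity)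

/-- the possible second halves -/
def sec2 (N h : ℕ) (t : ℕ × ℕ × ℕ) : Finset (ℕ × ℕ × ℕ) :=
  ((nb N h t.2.2).erase t.2.2 ×ˢ ((nb N h t.2.1).erase t.2.1 ×ˢ nb N h t.1)) ∪
  ((nb N h t.2.2).erase t.2.2 ×ˢ (nb N h t.2.1 ×ˢ (nb N h t.1).erase t.1)) ∪
  (nb N h t.2.2 ×ˢ ((nb N h t.2.1).erase t.2.1 ×ˢ (nb N h t.1).erase t.1))

lemma card_sec2 (N h : ℕ) (hN : 1 ≤ N) (hh : h ≤ N) (t : ℕ × ℕ × ℕ) (ht : t ∈ T3 (3 * N)) :
    ((sec2 N h t).card : ℝ) ≤ 108 * (h : ℝ) ^ 2 / N := by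
  obtain ⟨g, u, v⟩ := t
  unfold T3 at ht
  rw [mem_filter, mem_product, mem_product, mem_Icc, mem_Icc, mem_Icc] at ht
  simp only at ht
  have hNR : (0 : ℝ) < N := by exact_mod_cast hN
  have hhR : (h : ℝ) ≤ N := by exact_mod_cast hh
  have hh0 : (0 : ℝ) ≤ h := Nat.cast_nonneg _
  set A : ℝ := ((v * h / N : ℕ) : ℝ) with hA
  set B : ℝ := ((u * h / N : ℕ) : ℝ) with hB
  set C : ℝ := ((g * h / N : ℕ) : ℝ) with hC
  have hA1 : A ≤ v * h / N := by
    rw [hA]
    refine (Nat.cast_div_le).trans (le_of_eq ?_)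
    push_cast
    rfl
  have hB1 : B ≤ u * h / N := by
    rw [hB]
    refine (Nat.cast_div_le).trans (le_of_eq ?_)
    push_cast
    rfl
  have hC1 : C ≤ g * h / N := by
    rw [hC]
    refine (Nat.cast_div_le).trans (le_of_eq ?_)
    push_cast
    rfl
  have hA0 : 0 ≤ A := Nat.cast_nonneg _
  have hB0 : 0 ≤ B := Nat.cast_nonneg _
  have hC0 : 0 ≤ C := Nat.cast_nonneg _
  have h1 : (sec2 N h (g, u, v)).card ≤
      (2 * (v * h / N)) * ((2 * (u * h / N)) * (2 * (g * h / N) + 1)) +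
      (2 * (v * h / N)) * ((2 * (u * h / N) + 1) * (2 * (g * h / N))) +
      (2 * (v * h / N) + 1) * ((2 * (u * h / N)) * (2 * (g * h / N))) := by
    unfold sec2
    refine (card_union_le _ _).trans (Nat.add_le_add ((card_union_le _ _).trans
      (Nat.add_le_add ?_ ?_)) ?_)
    · rw [card_product, card_product]
      exact Nat.mul_le_mul (card_nb_erase _ _ _) (Nat.mul_le_mul (card_nb_erase _ _ _) (card_nb _ _ _))
    · rw [card_product, card_product]
      exact Nat.mul_le_mul (card_nb_erase _ _ _) (Nat.mul_le_mul (card_nb _ _ _) (card_nb_erase _ _ _))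
    · rw [card_product, card_product]
      exact Nat.mul_le_mul (card_nb _ _ _) (Nat.mul_le_mul (card_nb_erase _ _ _) (card_nb_erase _ _ _))
  have h2 : ((sec2 N h (g, u, v)).card : ℝ) ≤
      (2 * A) * ((2 * B) * (2 * C + 1)) + (2 * A) * ((2 * B + 1) * (2 * C)) +
      (2 * A + 1) * ((2 * B) * (2 * C)) := by
    rw [hA, hB, hC]
    exact_mod_cast h1
  refine h2.trans ?_
  have hguv : (g : ℝ) * u * v ≤ 3 * N := by exact_mod_cast ht.2
  have hg1 : (1 : ℝ) ≤ g := by exact_mod_cast ht.1.1.1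
  have hu1 : (1 : ℝ) ≤ u := by exact_mod_cast ht.1.2.1.1
  have hv1 : (1 : ℝ) ≤ v := by exact_mod_cast ht.1.2.2.1
  have huv : (u : ℝ) * v ≤ 3 * N := by
    have : (0 : ℝ) ≤ (u : ℝ) * v := by positivity
    nlinarith
  have hgv : (g : ℝ) * v ≤ 3 * N := by
    have : (0 : ℝ) ≤ (g : ℝ) * v := by positivity
    nlinarith
  have hgu : (g : ℝ) * u ≤ 3 * N := by
    have : (0 : ℝ) ≤ (g : ℝ) * u := by positivity
    nlinarith
  have two : ∀ p q : ℝ, 0 ≤ p → 0 ≤ q → p * q ≤ 3 * N → (p * h / N) * (q * h / N) ≤ 3 * h ^ 2 / N := by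
    intro p q hp hq hpq
    rw [div_mul_div_comm, div_le_div_iff₀ (by positivity) hNR]
    calc p * h * (q * h) * N = (p * q) * (h ^ 2 * N) := by ring
      _ ≤ (3 * N) * (h ^ 2 * N) := mul_le_mul_of_nonneg_right hpq (by positivity)
      _ = 3 * h ^ 2 * (N * N) := by ring
  have k1 : A * B ≤ 3 * h ^ 2 / N := (mul_le_mul hA1 hB1 hB0 (by positivity)).trans
    (two v u (by positivity) (by positivity) (by rw [mul_comm]; exact huv))
  have k2 : A * C ≤ 3 * h ^ 2 / N := (mul_le_mul hA1 hC1 hC0 (by positivity)).trans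
    (two v g (by positivity) (by positivity) (by rw [mul_comm]; exact hgv))
  have k3 : B * C ≤ 3 * h ^ 2 / N := (mul_le_mul hB1 hC1 hC0 (by positivity)).trans
    (two u g (by positivity) (by positivity) (by rw [mul_comm]; exact hgu))
  have k4 : A * B * C ≤ 3 * h ^ 2 / N := by
    have : A * B * C ≤ (v * h / N) * (u * h / N) * (g * h / N) :=
      mul_le_mul (mul_le_mul hA1 hB1 hB0 (by positivity)) hC1 hC0 (by positivity)
    refine this.trans ?_
    rw [div_mul_div_comm, div_mul_div_comm, div_le_div_iff₀ (by positivity) hNR]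
    calc (v : ℝ) * h * (u * h) * (g * h) * N = ((g : ℝ) * u * v) * (h ^ 2 * N) * h := by ring
      _ ≤ (3 * N) * (h ^ 2 * N) * N :=
          mul_le_mul (mul_le_mul_of_nonneg_right hguv (by positivity)) hhR hh0 (by positivity)
      _ = 3 * h ^ 2 * (N * N * N) := by ring
  have e1 : (2 * A) * ((2 * B) * (2 * C + 1)) + (2 * A) * ((2 * B + 1) * (2 * C)) +
      (2 * A + 1) * ((2 * B) * (2 * C)) = 24 * (A * B * C) + 4 * (A * B) + 4 * (A * C) +
      4 * (B * C) := by ring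
  rw [e1]
  have e2 : 108 * (h : ℝ) ^ 2 / N = 36 * (3 * h ^ 2 / N) := by ring
  rw [e2]
  linarith

/-- **Quadruples in a common window.** -/
theorem card_TA (N h : ℕ) (hN : 1 ≤ N) (hh : h ≤ N) :
    ((TA N h).card : ℝ) ≤ 324 * (h : ℝ) ^ 2 * (1 + Real.log (3 * N)) ^ 2 := by
  classical
  have hNR : (0 : ℝ) < N := by exact_mod_cast hN
  -- choose parameters
  have hpar : ∀ t ∈ TA N h, ∃ s : (ℕ × ℕ × ℕ) × (ℕ × ℕ × ℕ), s.1 ∈ T3 (3 * N) ∧
      s.2 ∈ sec2 N h s.1 ∧ t = ((s.1.1 * s.1.2.1 * s.1.2.2, s.1.1 * s.2.1 * s.2.2.1),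
        (s.2.2.2 * s.1.2.1 * s.2.1, s.2.2.2 * s.1.2.2 * s.2.2.1)) := by
    intro t ht
    unfold TA at ht
    rw [mem_filter, mem_product, mem_product, mem_product, mem_Ioc, mem_Ioc, mem_Ioc, mem_Ioc] at ht
    obtain ⟨⟨⟨⟨l1, r1⟩, ⟨l2, r2⟩⟩, ⟨⟨l3, r3⟩, ⟨l4, r4⟩⟩⟩, ⟨d1, d2, d3⟩, ⟨s1, s2, s3, s4⟩, hsq, x, hx⟩ := ht
    have x1 := hx t.1.1 (by simp)
    have x2 := hx t.1.2 (by simp)
    have x3 := hx t.2.1 (by simp)
    have x4 := hx t.2.2 (by simp)
    obtain ⟨g, u, v, w, z, g', e1, e2, e3, e4⟩ := param s1 s2 s3 s4 hsq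
    have p1 : 0 < g * u * v := by omega
    have p3 : 0 < g' * u * w := by omega
    have p4 : 0 < g' * v * z := by omega
    have hg : 0 < g := Nat.pos_of_mul_pos_right (Nat.pos_of_mul_pos_right p1)
    have hu : 0 < u := Nat.pos_of_mul_pos_left (Nat.pos_of_mul_pos_right p1)
    have hv : 0 < v := Nat.pos_of_mul_pos_left p1
    have hw : 0 < w := Nat.pos_of_mul_pos_left p3
    have hz : 0 < z := Nat.pos_of_mul_pos_left p4
    have hg' : 0 < g' := Nat.pos_of_mul_pos_right (Nat.pos_of_mul_pos_right p3)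
    have q1 : w ^ 2 * (t.1.1 * t.2.2) = v ^ 2 * (t.1.2 * t.2.1) := by
      rw [e1, e2, e3, e4]
      ring
    have q2 : z ^ 2 * (t.1.1 * t.2.1) = u ^ 2 * (t.1.2 * t.2.2) := by
      rw [e1, e2, e3, e4]
      ring
    have q3 : g' ^ 2 * (t.1.1 * t.1.2) = g ^ 2 * (t.2.1 * t.2.2) := by
      rw [e1, e2, e3, e4]
      ring
    have a1 : w ∈ nb N h v := mem_nb hN
      (close hN l1.le l4.le (n2 := t.1.2) (n3 := t.2.1) (by omega) (by omega) q1)
      (close hN l2.le l3.le (n2 := t.1.1) (n3 := t.2.2) (by omega) (by omega) q1.symm)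
    have a2 : z ∈ nb N h u := mem_nb hN
      (close hN l1.le l3.le (n2 := t.1.2) (n3 := t.2.2) (by omega) (by omega) q2)
      (close hN l2.le l4.le (n2 := t.1.1) (n3 := t.2.1) (by omega) (by omega) q2.symm)
    have a3 : g' ∈ nb N h g := mem_nb hN
      (close hN l1.le l2.le (n2 := t.2.1) (n3 := t.2.2) (by omega) (by omega) q3)
      (close hN l3.le l4.le (n2 := t.1.1) (n3 := t.1.2) (by omega) (by omega) q3.symm)
    have b1 : ¬ (w = v ∧ z = u) := by
      rintro ⟨c1, c2⟩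
      apply d1
      rw [e1, e2, c1, c2]
      ring
    have b2 : ¬ (w = v ∧ g' = g) := by
      rintro ⟨c1, c2⟩
      apply d2
      rw [e1, e3, c1, c2]
    have b3 : ¬ (z = u ∧ g' = g) := by
      rintro ⟨c1, c2⟩
      apply d3
      rw [e1, e4, c1, c2]
      ring
    refine ⟨((g, u, v), (w, z, g')), ?_, ?_, ?_⟩
    · unfold T3
      rw [mem_filter, mem_product, mem_product, mem_Icc, mem_Icc, mem_Icc]
      have hle : g * u * v ≤ 3 * N := by omega
      refine ⟨⟨⟨hg, ?_⟩, ⟨hu, ?_⟩, ⟨hv, ?_⟩⟩, hle⟩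
      · exact le_trans (by
          calc g = g * 1 * 1 := by ring
            _ ≤ g * u * v := Nat.mul_le_mul (Nat.mul_le_mul_left _ hu) hv) hle
      · exact le_trans (by
          calc u = 1 * u * 1 := by ring
            _ ≤ g * u * v := Nat.mul_le_mul (Nat.mul_le_mul_right _ hg) hv) hle
      · exact le_trans (by
          calc v = 1 * 1 * v := by ring
            _ ≤ g * u * v := Nat.mul_le_mul_right _ (Nat.mul_le_mul hg hu)) hle
    · unfold sec2
      simp only [mem_union, mem_product, mem_erase]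
      by_cases c1 : w = v
      · right
        exact ⟨a1, ⟨fun c => b1 ⟨c1, c⟩, a2⟩, ⟨fun c => b2 ⟨c1, c⟩, a3⟩⟩
      · left
        by_cases c2 : z = u
        · right
          exact ⟨⟨c1, a1⟩, a2, ⟨fun c => b3 ⟨c2, c⟩, a3⟩⟩
        · left
          exact ⟨⟨c1, a1⟩, ⟨c2, a2⟩, a3⟩
    · exact Prod.ext (Prod.ext e1 e2) (Prod.ext e3 e4)
  have h1 : (TA N h).card ≤ ((T3 (3 * N)).sigma fun t => sec2 N h t).card := by
    refine card_le_card_of_surjOn (fun s => ((s.1.1 * s.1.2.1 * s.1.2.2, s.1.1 * s.2.1 * s.2.2.1),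
        (s.2.2.2 * s.1.2.1 * s.2.1, s.2.2.2 * s.1.2.2 * s.2.2.1))) ?_
    intro t ht
    obtain ⟨s, hs1, hs2, hs3⟩ := hpar t ht
    exact ⟨⟨s.1, s.2⟩, mem_coe.2 (mem_sigma.2 ⟨hs1, hs2⟩), hs3.symm⟩
  rw [card_sigma] at h1
  have h2 : ((TA N h).card : ℝ) ≤ ∑ t ∈ T3 (3 * N), ((sec2 N h t).card : ℝ) := by exact_mod_cast h1
  refine h2.trans ((sum_le_sum fun t ht => card_sec2 N h hN hh t ht).trans ?_)
  rw [sum_const, nsmul_eq_mul]
  have h3 := card_T3 (3 * N)
  push_cast at h3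
  calc ((T3 (3 * N)).card : ℝ) * (108 * (h : ℝ) ^ 2 / N)
      ≤ (3 * N * (1 + Real.log (3 * N)) ^ 2) * (108 * (h : ℝ) ^ 2 / N) :=
        mul_le_mul_of_nonneg_right h3 (by positivity)
    _ = 324 * (h : ℝ) ^ 2 * (1 + Real.log (3 * N)) ^ 2 := by
        field_simp
        ring

/-- summation over the windows -/
theorem sum_QA (N h : ℕ) (hN : 1 ≤ N) (hh : h ≤ N) :
    ∑ x ∈ Ico N (2 * N), ((QQ4 (Iw x h) (Iw x h)).card : ℝ) ≤
      324 * (h : ℝ) ^ 3 * (1 + Real.log (3 * N)) ^ 2 := by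
  classical
  have h1 : ∑ x ∈ Ico N (2 * N), (QQ4 (Iw x h) (Iw x h)).card ≤ h * (TA N h).card := by
    have e1 : ∀ x ∈ Ico N (2 * N), (QQ4 (Iw x h) (Iw x h)).card =
        ∑ t ∈ TA N h, if t ∈ QQ4 (Iw x h) (Iw x h) then 1 else 0 := by
      intro x hx
      rw [← sum_filter, ← card_eq_sum_ones]
      congr 1
      ext t
      rw [mem_filter]
      constructor
      · intro ht
        refine ⟨?_, ht⟩
        unfold QQ4 at ht
        rw [mem_filter, mem_product, mem_product, mem_product, mem_Iw, mem_Iw, mem_Iw, mem_Iw] at ht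
        rw [mem_Ico] at hx
        unfold TA
        rw [mem_filter, mem_product, mem_product, mem_product, mem_Ioc, mem_Ioc, mem_Ioc, mem_Ioc]
        obtain ⟨⟨⟨a1, a2⟩, ⟨a3, a4⟩⟩, b1, b2, b3⟩ := ht
        refine ⟨⟨⟨⟨by omega, by omega⟩, ⟨by omega, by omega⟩⟩, ⟨⟨by omega, by omega⟩,
          ⟨by omega, by omega⟩⟩⟩, b1, b2, b3, x, ?_⟩
        intro n hn
        simp only [mem_insert, mem_singleton] at hn
        rcases hn with rfl | rfl | rfl | rfl <;> assumption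
      · exact fun ht => ht.2
    rw [sum_congr rfl e1, sum_comm]
    have e2 : ∀ t ∈ TA N h, ∑ x ∈ Ico N (2 * N), (if t ∈ QQ4 (Iw x h) (Iw x h) then 1 else 0) ≤ h := by
      intro t _
      rw [← sum_filter, ← card_eq_sum_ones]
      calc ((Ico N (2 * N)).filter fun x => t ∈ QQ4 (Iw x h) (Iw x h)).card
          ≤ (Ico (t.1.1 - h) t.1.1).card := by
            refine card_le_card fun x hx => ?_
            have h2 := (mem_filter.1 hx).2
            unfold QQ4 at h2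
            rw [mem_filter, mem_product, mem_product, mem_Iw] at h2
            rw [mem_Ico]
            omega
        _ ≤ h := by
            rw [Nat.card_Ico]
            omega
    refine (sum_le_sum e2).trans ?_
    rw [sum_const, smul_eq_mul, mul_comm]
  have h2 : ∑ x ∈ Ico N (2 * N), ((QQ4 (Iw x h) (Iw x h)).card : ℝ) ≤ h * (TA N h).card := by
    exact_mod_cast h1
  refine h2.trans ?_
  calc (h : ℝ) * (TA N h).card ≤ h * (324 * (h : ℝ) ^ 2 * (1 + Real.log (3 * N)) ^ 2) :=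
        mul_le_mul_of_nonneg_left (card_TA N h hN hh) (Nat.cast_nonneg _)
    _ = _ := by ring

/-- sorted pair -/
def srt (q : ℕ × ℕ) : ℕ × ℕ := (min q.1 q.2, max q.1 q.2)

/-- pairs of windows -/
theorem sum_QB (δ : ℝ) (hδ : 0 < δ) : ∃ C : ℝ, 1 ≤ C ∧ ∀ N h : ℕ, 1 ≤ N → h ≤ N →
    ∑ x ∈ Ico N (2 * N), ∑ y ∈ Ico N (2 * N), ((QQ4 (Iw x h) (Iw y h)).card : ℝ) ≤
      C * (h : ℝ) ^ 3 * N * (3 * (N : ℝ)) ^ δ * (1 + Real.log (3 * N)) ^ 2 := by
  classical
  obtain ⟨C, hC, hcnt⟩ := count δ hδ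
  refine ⟨12 * C, by linarith, fun N h hN hh => ?_⟩
  set E := (prs (3 * N) h ×ˢ prs (3 * N) h).filter fun t => cr (red t.1) = cr (red t.2) with hE
  have h1 : ∑ x ∈ Ico N (2 * N), ∑ y ∈ Ico N (2 * N), (QQ4 (Iw x h) (Iw y h)).card ≤
      (4 * h * h) * E.card := by
    rw [← sum_product' (s := Ico N (2 * N)) (t := Ico N (2 * N))
      (f := fun x y => (QQ4 (Iw x h) (Iw y h)).card), ← card_sigma]
    refine card_le_mul_card_image_of_maps_to (f := fun s => (srt s.2.1, srt s.2.2)) ?_ _ ?_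
    · rintro ⟨⟨x, y⟩, t⟩ hs
      rw [mem_sigma, mem_product, mem_Ico, mem_Ico] at hs
      obtain ⟨⟨hx, hy⟩, ht⟩ := hs
      simp only at hx hy ht
      unfold QQ4 at ht
      rw [mem_filter, mem_product, mem_product, mem_product, mem_Iw, mem_Iw, mem_Iw, mem_Iw] at ht
      obtain ⟨⟨⟨a1, a2⟩, ⟨a3, a4⟩⟩, ⟨b1, b2, b3⟩, ⟨s1, s2, s3, s4⟩, hsq⟩ := ht
      have b4 : t.2.1 ≠ t.2.2 := by
        intro h0
        apply b1
        refine sq_cancel (n := t.2.1) s3.ne_zero s1 s2 ?_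
        have : t.2.1 * t.1.1 * (t.2.1 * t.1.2) = t.1.1 * t.1.2 * (t.2.1 * t.2.2) := by
          rw [← h0]
          ring
        rw [this]
        exact hsq
      have key : ∀ q : ℕ × ℕ, ∀ x, N ≤ x → x < 2 * N → x < q.1 → q.1 ≤ x + h → x < q.2 →
          q.2 ≤ x + h → q.1 ≠ q.2 → Squarefree q.1 → Squarefree q.2 →
          srt q ∈ prs (3 * N) h ∧ (srt q).1 * (srt q).2 = q.1 * q.2 ∧ Squarefree (srt q).1 ∧
            Squarefree (srt q).2 := by
        intro q x c1 c2 c3 c4 c5 c6 c7 c8 c9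
        rw [mem_prs]
        unfold srt
        dsimp only
        rcases lt_or_gt_of_ne c7 with h4 | h4
        · rw [min_eq_left h4.le, max_eq_right h4.le]
          exact ⟨⟨⟨by omega, by omega⟩, ⟨by omega, by omega⟩, by omega, by omega, c8, c9⟩, rfl,
            c8, c9⟩
        · rw [min_eq_right h4.le, max_eq_left h4.le]
          exact ⟨⟨⟨by omega, by omega⟩, ⟨by omega, by omega⟩, by omega, by omega, c9, c8⟩,
            mul_comm _ _, c9, c8⟩
      obtain ⟨k1, k2, k3, k4⟩ := key t.1 x hx.1 hx.2 a1.1 a1.2 a2.1 a2.2 b1 s1 s2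
      obtain ⟨l1, l2, l3, l4⟩ := key t.2 y hy.1 hy.2 a3.1 a3.2 a4.1 a4.2 b4 s3 s4
      rw [hE, mem_filter, mem_product]
      refine ⟨⟨k1, l1⟩, ?_⟩
      exact core_eq k3 k4 l3 l4 (by rw [k2, l2]; exact hsq)
    · rintro ⟨q, q'⟩ _
      calc (((Ico N (2 * N) ×ˢ Ico N (2 * N)).sigma fun p => QQ4 (Iw p.1 h) (Iw p.2 h)).filter
            fun s => (srt s.2.1, srt s.2.2) = (q, q')).card
          ≤ (((Ico (q.2 - h) q.2 ×ˢ Ico (q'.2 - h) q'.2)) ×ˢ
              (({q, q.swap} : Finset (ℕ × ℕ)) ×ˢ ({q', q'.swap} : Finset (ℕ × ℕ)))).card := by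
            refine card_le_card_of_injOn (fun s => (s.1, s.2)) ?_ ?_
            · rintro ⟨⟨x, y⟩, t⟩ hs
              rw [mem_coe, mem_filter, mem_sigma] at hs
              obtain ⟨⟨-, ht⟩, he⟩ := hs
              simp only [Prod.mk.injEq] at ht he
              unfold QQ4 at ht
              rw [mem_filter, mem_product, mem_product, mem_product, mem_Iw, mem_Iw, mem_Iw,
                mem_Iw] at ht
              obtain ⟨⟨⟨a1, a2⟩, ⟨a3, a4⟩⟩, -⟩ := ht
              obtain ⟨he1, he2⟩ := he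
              have key : ∀ r r' : ℕ × ℕ, ∀ x, srt r = r' → x < r.1 → r.1 ≤ x + h → x < r.2 →
                  r.2 ≤ x + h → x ∈ Ico (r'.2 - h) r'.2 ∧ r ∈ ({r', r'.swap} : Finset (ℕ × ℕ)) := by
                intro r r' x hr c1 c2 c3 c4
                rw [← hr]
                unfold srt
                rw [mem_Ico, mem_insert, mem_singleton]
                dsimp only [Prod.swap]
                rcases le_total r.1 r.2 with h4 | h4
                · rw [min_eq_left h4, max_eq_right h4]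
                  exact ⟨⟨by omega, by omega⟩, Or.inl rfl⟩
                · rw [min_eq_right h4, max_eq_left h4]
                  exact ⟨⟨by omega, by omega⟩, Or.inr rfl⟩
              obtain ⟨k1, k2⟩ := key t.1 q x he1 a1.1 a1.2 a2.1 a2.2
              obtain ⟨l1, l2⟩ := key t.2 q' y he2 a3.1 a3.2 a4.1 a4.2
              rw [mem_coe, mem_product, mem_product, mem_product]
              exact ⟨⟨k1, l1⟩, ⟨k2, l2⟩⟩
            · rintro ⟨p, t⟩ _ ⟨p', t'⟩ _ he
              simp only [Prod.mk.injEq] at he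
              obtain ⟨rfl, rfl⟩ := he
              rfl
        _ ≤ (h * h) * (2 * 2) := by
            rw [card_product, card_product, card_product, Nat.card_Ico, Nat.card_Ico]
            exact Nat.mul_le_mul (Nat.mul_le_mul (by omega) (by omega))
              (Nat.mul_le_mul card_le_two card_le_two)
        _ = 4 * h * h := by ring
  have h2 : ∑ x ∈ Ico N (2 * N), ∑ y ∈ Ico N (2 * N), ((QQ4 (Iw x h) (Iw y h)).card : ℝ) ≤
      (4 * h * h) * E.card := by exact_mod_cast h1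
  refine h2.trans ?_
  have h3 := hcnt (3 * N) h
  push_cast at h3
  calc (4 * (h : ℝ) * h) * E.card
      ≤ (4 * h * h) * (C * (3 * (N : ℝ)) ^ δ * (3 * N * h * (1 + Real.log (3 * N)) ^ 2)) :=
        mul_le_mul_of_nonneg_left h3 (by positivity)
    _ = _ := by ring

end Pool.Agent.Q163.CL
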