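import Pool.Agent.Q163.CL.Quad

set_option autoImplicit false

/-!
# Pairs with the same largest prime factor in short windows
-/

namespace Pool.Agent.Q163.CL

open Finset Filter Topology Pool.Agent.Q163.GC

/-- multiples in a window -/
lemma card_mult (p y h : ℕ) (hp : 0 < p) :
    ((Iw y h).filter fun m => p ∣ m).card ≤ h / p + 1 := by
  calc ((Iw y h).filter fun m => p ∣ m).card ≤ (Ioc (y / p) ((y + h) / p)).card := by
        refine card_le_card_of_injOn (fun m => m / p) ?_ ?_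
        · intro m hm
          obtain ⟨h1, h2⟩ := mem_filter.1 (mem_coe.1 hm)
          obtain ⟨k, rfl⟩ := h2
          rw [mem_Iw] at h1
          simp only
          rw [Nat.mul_div_cancel_left _ hp, mem_coe, mem_Ioc]
          constructor
          · rw [Nat.div_lt_iff_lt_mul hp, mul_comm]
            exact h1.1
          · rw [Nat.le_div_iff_mul_le hp, mul_comm]
            exact h1.2
        · intro m hm m' hm' he
          obtain ⟨-, h2⟩ := mem_filter.1 (mem_coe.1 hm)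
          obtain ⟨-, h3⟩ := mem_filter.1 (mem_coe.1 hm')
          simp only at he
          rw [← Nat.mul_div_cancel' h2, ← Nat.mul_div_cancel' h3, he]
    _ = (y + h) / p - y / p := Nat.card_Ioc _ _
    _ ≤ h / p + 1 := by
        have h1 : (y + h) / p < y / p + h / p + 2 := by
          rw [Nat.div_lt_iff_lt_mul hp]
          have a1 := Nat.lt_mul_div_succ y hp
          have a2 := Nat.lt_mul_div_succ h hp
          calc y + h < p * (y / p + 1) + p * (h / p + 1) := by omega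
            _ = (y / p + h / p + 2) * p := by ring
        generalize (y + h) / p = u at *
        generalize y / p = v at *
        generalize h / p = w at *
        omega

/-- squarefree numbers without large prime factors -/
def sm (s : Finset ℕ) (y0 : ℕ) : Finset ℕ := s.filter fun n => Squarefree n ∧ lp n ≤ y0

lemma card_UU (x y h y0 : ℕ) (hy0 : 1 ≤ y0) :
    (UU (Iw x h) (Iw y h)).card ≤ (sm (Iw x h) y0).card * h + h * (h / y0 + 1) := by
  classical
  have h1 : UU (Iw x h) (Iw y h) ⊆ (sm (Iw x h) y0 ×ˢ Iw y h) ∪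
      ((Iw x h).filter fun n => y0 < lp n).biUnion fun n =>
        ((Iw y h).filter fun m => lp n ∣ m).image fun m => (n, m) := by
    intro t ht
    unfold UU at ht
    obtain ⟨a1, a2, a3, a4⟩ := mem_filter.1 ht
    obtain ⟨b1, b2⟩ := mem_product.1 a1
    rw [mem_union]
    by_cases hc : lp t.1 ≤ y0
    · left
      exact mem_product.2 ⟨mem_filter.2 ⟨b1, a3, hc⟩, b2⟩
    · right
      rw [mem_biUnion]
      refine ⟨t.1, mem_filter.2 ⟨b1, not_le.1 hc⟩, ?_⟩
      rw [mem_image]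
      refine ⟨t.2, mem_filter.2 ⟨b2, ?_⟩, rfl⟩
      rw [a2]
      have h2 : 2 ≤ t.2 := by
        by_contra h3
        have : lp t.2 = 0 := by
          unfold lp
          have : t.2 = 0 ∨ t.2 = 1 := by omega
          rcases this with h | h <;> rw [h] <;> simp
        rw [a2, this] at hc
        omega
      exact (Nat.mem_primeFactors.1 (lp_mem h2)).2.1
  refine (card_le_card h1).trans ((card_union_le _ _).trans (Nat.add_le_add ?_ ?_))
  · rw [card_product, card_Iw]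
  · refine card_biUnion_le.trans ?_
    refine (sum_le_sum (g := fun _ => h / y0 + 1) fun n hn => ?_).trans ?_
    · refine card_image_le.trans ?_
      have h2 : y0 < lp n := (mem_filter.1 hn).2
      refine (card_mult (lp n) y h (by omega)).trans ?_
      exact Nat.add_le_add_right (Nat.div_le_div_left h2.le (by omega)) 1
    · rw [sum_const, smul_eq_mul]
      refine Nat.mul_le_mul_right _ ?_
      exact (card_filter_le _ _).trans (card_Iw x h).le

lemma sum_sm (N h y0 : ℕ) (hh : h ≤ N) :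
    ∑ x ∈ Ico N (2 * N), (sm (Iw x h) y0).card ≤ h * (sm (Icc 1 (3 * N)) y0).card := by
  classical
  have e1 : ∀ x ∈ Ico N (2 * N), (sm (Iw x h) y0).card =
      ∑ n ∈ sm (Icc 1 (3 * N)) y0, if n ∈ Iw x h then 1 else 0 := by
    intro x hx
    rw [← sum_filter, ← card_eq_sum_ones]
    congr 1
    ext n
    unfold sm
    rw [mem_Ico] at hx
    rw [mem_filter, mem_filter, mem_filter, mem_Iw, mem_Icc]
    constructor
    · rintro ⟨⟨a1, a2⟩, a3⟩
      exact ⟨⟨⟨by omega, by omega⟩, a3⟩, a1, a2⟩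
    · rintro ⟨⟨-, a3⟩, a1⟩
      exact ⟨a1, a3⟩
  rw [sum_congr rfl e1, sum_comm]
  refine (sum_le_sum (g := fun _ => h) fun n _ => ?_).trans ?_
  · rw [← sum_filter, ← card_eq_sum_ones]
    calc ((Ico N (2 * N)).filter fun x => n ∈ Iw x h).card ≤ (Ico (n - h) n).card := by
          refine card_le_card fun x hx => ?_
          have h2 := mem_Iw.1 (mem_filter.1 hx).2
          rw [mem_Ico]
          omega
      _ ≤ h := by
          rw [Nat.card_Ico]
          omega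
  · rw [sum_const, smul_eq_mul, mul_comm]

lemma sum_rpow_le (θ : ℝ) (h0 : 0 < θ) (h1 : θ ≤ 1) (y : ℕ) :
    ∑ k ∈ Icc 1 y, (k : ℝ) ^ (θ - 1) ≤ (y : ℝ) ^ θ / θ := by
  induction y with
  | zero =>
    rw [Icc_eq_empty (by norm_num), sum_empty]
    positivity
  | succ y ih =>
    rw [sum_Icc_succ_top (by omega)]
    have hy : (0 : ℝ) < ((y + 1 : ℕ) : ℝ) := by positivity
    set z : ℝ := ((y + 1 : ℕ) : ℝ) with hz
    have h2 : (y : ℝ) = z * (1 + (-(1 / z))) := by
      rw [mul_add, mul_neg, mul_one_div_cancel hy.ne', hz]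
      push_cast
      ring
    have h3 : (1 + (-(1 / z))) ^ θ ≤ 1 + θ * (-(1 / z)) := by
      refine rpow_one_add_le_one_add_mul_self ?_ h0.le h1
      have : 1 / z ≤ 1 := by
        rw [div_le_one hy, hz]
        push_cast
        have : (0 : ℝ) ≤ y := Nat.cast_nonneg _
        linarith
      linarith
    have h4 : 0 ≤ 1 + (-(1 / z)) := by
      have : 1 / z ≤ 1 := by
        rw [div_le_one hy, hz]
        push_cast
        have : (0 : ℝ) ≤ y := Nat.cast_nonneg _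
        linarith
      linarith
    have h5 : (y : ℝ) ^ θ ≤ z ^ θ - θ * z ^ (θ - 1) := by
      rw [h2, Real.mul_rpow hy.le h4, Real.rpow_sub_one hy.ne']
      calc z ^ θ * (1 + -(1 / z)) ^ θ ≤ z ^ θ * (1 + θ * (-(1 / z))) :=
            mul_le_mul_of_nonneg_left h3 (by positivity)
        _ = z ^ θ - θ * (z ^ θ / z) := by ring
    have h6 : (y : ℝ) ^ θ / θ + z ^ (θ - 1) ≤ z ^ θ / θ := by
      rw [div_add' _ _ _ h0.ne', div_le_div_iff_of_pos_right h0]
      linarith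
    linarith

/-- Rankin's bound -/
theorem rankin (M y0 : ℕ) (θ : ℝ) (h0 : 0 < θ) (h1 : θ ≤ 1) :
    ((sm (Icc 1 M) y0).card : ℝ) ≤ (M : ℝ) ^ (1 - θ) * Real.exp ((y0 : ℝ) ^ θ / θ) := by
  classical
  have h2 : ((sm (Icc 1 M) y0).card : ℝ) ≤
      ∑ n ∈ sm (Icc 1 M) y0, (M : ℝ) ^ (1 - θ) * (n : ℝ) ^ (θ - 1) := by
    rw [card_eq_sum_ones]
    push_cast
    refine sum_le_sum fun n hn => ?_
    obtain ⟨h3, -⟩ := mem_filter.1 hn
    obtain ⟨h4, h5⟩ := mem_Icc.1 h3
    have hn0 : (0 : ℝ) < n := by exact_mod_cast h4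
    have h6 : (n : ℝ) ^ (1 - θ) ≤ (M : ℝ) ^ (1 - θ) :=
      Real.rpow_le_rpow hn0.le (by exact_mod_cast h5) (by linarith)
    calc (1 : ℝ) = (n : ℝ) ^ (1 - θ) * (n : ℝ) ^ (θ - 1) := by
          rw [← Real.rpow_add hn0]
          norm_num
      _ ≤ _ := mul_le_mul_of_nonneg_right h6 (by positivity)
  refine h2.trans ?_
  rw [← mul_sum]
  refine mul_le_mul_of_nonneg_left ?_ (by positivity)
  set P := (Icc 1 y0).filter Nat.Prime with hP
  have h3 : ∑ n ∈ sm (Icc 1 M) y0, (n : ℝ) ^ (θ - 1) ≤ ∏ p ∈ P, (1 + (p : ℝ) ^ (θ - 1)) := by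
    rw [Finset.prod_one_add]
    have e1 : ∀ n ∈ sm (Icc 1 M) y0, (n : ℝ) ^ (θ - 1) = ∏ p ∈ n.primeFactors, (p : ℝ) ^ (θ - 1) := by
      intro n hn
      obtain ⟨-, h4, -⟩ := mem_filter.1 hn
      rw [Real.finsetProd_rpow _ _ (fun p _ => by positivity)]
      congr 1
      rw [← Nat.cast_prod, Nat.prod_primeFactors_of_squarefree h4]
    rw [sum_congr rfl e1]
    have hinj : Set.InjOn (fun n : ℕ => n.primeFactors) (sm (Icc 1 M) y0 : Finset ℕ) := by
      intro n hn m hm he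
      obtain ⟨-, h4, -⟩ := mem_filter.1 (mem_coe.1 hn)
      obtain ⟨-, h5, -⟩ := mem_filter.1 (mem_coe.1 hm)
      simp only at he
      rw [← Nat.prod_primeFactors_of_squarefree h4, ← Nat.prod_primeFactors_of_squarefree h5, he]
    rw [← sum_image (f := fun s : Finset ℕ => ∏ p ∈ s, (p : ℝ) ^ (θ - 1)) hinj]
    refine sum_le_sum_of_subset_of_nonneg ?_ fun _ _ _ => prod_nonneg fun _ _ => by positivity
    intro s hs
    obtain ⟨n, hn, rfl⟩ := mem_image.1 hs
    obtain ⟨-, h4, h5⟩ := mem_filter.1 hn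
    rw [mem_powerset]
    intro p hp
    have h6 := Nat.mem_primeFactors.1 hp
    rw [hP, mem_filter, mem_Icc]
    exact ⟨⟨h6.1.one_le, (le_lp hp).trans h5⟩, h6.1⟩
  refine h3.trans ?_
  have h4 : ∏ p ∈ P, (1 + (p : ℝ) ^ (θ - 1)) ≤ Real.exp (∑ p ∈ P, (p : ℝ) ^ (θ - 1)) := by
    rw [Real.exp_sum]
    refine prod_le_prod (fun _ _ => by positivity) fun p _ => ?_
    rw [add_comm]
    exact Real.add_one_le_exp _
  refine h4.trans (Real.exp_le_exp.2 (le_trans ?_ (sum_rpow_le θ h0 h1 y0)))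
  exact sum_le_sum_of_subset_of_nonneg (filter_subset _ _) fun _ _ _ => by positivity

/-- asymptotic form -/
theorem sm_small : ∀ᶠ N : ℕ in atTop, ((sm (Icc 1 (3 * N)) ⌈Real.log N ^ 8⌉₊).card : ℝ) ≤
    N / Real.log N ^ 8 := by
  have t1 : ∀ᶠ L : ℝ in atTop, 3 * L ^ 8 ≤ Real.exp (L / 64) := by
    have h1 : Tendsto (fun L : ℝ => L ^ 8 * Real.exp (-(1 / 64) * L)) atTop (𝓝 0) := by
      have := Real.tendsto_pow_mul_exp_neg_atTop_nhds_zero 8
      have h2 := this.comp (tendsto_id.const_mul_atTop (by norm_num : (0 : ℝ) < 1 / 64))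
      have h3 := h2.const_mul ((64 : ℝ) ^ 8)
      rw [mul_zero] at h3
      refine h3.congr fun L => ?_
      simp only [Function.comp, id]
      rw [mul_pow, ← mul_assoc, ← mul_assoc, ← mul_pow]
      norm_num
    filter_upwards [h1.eventually_le_const (by norm_num : (0 : ℝ) < 1 / 3)] with L hL
    have h4 : Real.exp (-(1 / 64) * L) = (Real.exp (L / 64))⁻¹ := by
      rw [← Real.exp_neg]
      congr 1
      ring
    rw [h4, ← div_eq_mul_inv, div_le_iff₀ (Real.exp_pos _)] at hL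
    linarith
  have t2 : Tendsto (fun N : ℕ => Real.log N) atTop atTop :=
    Real.tendsto_log_atTop.comp tendsto_natCast_atTop_atTop
  filter_upwards [t2.eventually t1, t2.eventually (eventually_ge_atTop (2 ^ 22 : ℝ)),
    eventually_ge_atTop 1] with N h1 h2 h3
  have hNR : (1 : ℝ) ≤ N := by exact_mod_cast h3
  have hN0 : (0 : ℝ) < N := by linarith
  set L := Real.log N with hL
  have hL0 : 0 < L := by linarith [show (0 : ℝ) < 2 ^ 22 by positivity]
  have hL1 : 1 ≤ L := le_trans (by norm_num) h2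
  refine (rankin (3 * N) _ (1 / 16) (by norm_num) (by norm_num)).trans ?_
  have e1 : ((3 * N : ℕ) : ℝ) ^ (1 - 1 / 16 : ℝ) ≤ 3 * Real.exp (L * (15 / 16)) := by
    push_cast
    rw [Real.mul_rpow (by norm_num) hN0.le]
    refine mul_le_mul ?_ ?_ (by positivity) (by norm_num)
    · calc (3 : ℝ) ^ (1 - 1 / 16 : ℝ) ≤ (3 : ℝ) ^ (1 : ℝ) :=
            Real.rpow_le_rpow_of_exponent_le (by norm_num) (by norm_num)
        _ = 3 := Real.rpow_one _
    · rw [Real.rpow_def_of_pos hN0]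
      refine Real.exp_le_exp.2 (le_of_eq ?_)
      norm_num
      rfl
  have e2 : ((⌈L ^ 8⌉₊ : ℕ) : ℝ) ^ (1 / 16 : ℝ) ≤ 2 * Real.sqrt L := by
    have a1 : ((⌈L ^ 8⌉₊ : ℕ) : ℝ) ≤ 2 * L ^ 8 := by
      have := (Nat.ceil_lt_add_one (by positivity : (0 : ℝ) ≤ L ^ 8)).le
      have : (1 : ℝ) ≤ L ^ 8 := one_le_pow₀ hL1
      linarith
    calc ((⌈L ^ 8⌉₊ : ℕ) : ℝ) ^ (1 / 16 : ℝ) ≤ (2 * L ^ 8) ^ (1 / 16 : ℝ) :=
          Real.rpow_le_rpow (by positivity) a1 (by norm_num)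
      _ = (2 : ℝ) ^ (1 / 16 : ℝ) * (L ^ 8) ^ (1 / 16 : ℝ) := Real.mul_rpow (by norm_num) (by positivity)
      _ ≤ 2 * Real.sqrt L := by
          refine mul_le_mul ?_ (le_of_eq ?_) (by positivity) (by norm_num)
          · calc (2 : ℝ) ^ (1 / 16 : ℝ) ≤ (2 : ℝ) ^ (1 : ℝ) :=
                  Real.rpow_le_rpow_of_exponent_le (by norm_num) (by norm_num)
              _ = 2 := Real.rpow_one _
          · rw [Real.sqrt_eq_rpow, ← Real.rpow_natCast L 8, ← Real.rpow_mul hL0.le]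
            norm_num
  have e3 : 32 * Real.sqrt L ≤ L / 64 := by
    have a1 : (2048 : ℝ) ≤ Real.sqrt L := Real.le_sqrt_of_sq_le (by norm_num at h2 ⊢; linarith)
    have a2 : Real.sqrt L * Real.sqrt L = L := Real.mul_self_sqrt hL0.le
    nlinarith
  have e4 : ((⌈L ^ 8⌉₊ : ℕ) : ℝ) ^ (1 / 16 : ℝ) / (1 / 16) ≤ L / 64 := by
    rw [div_le_iff₀ (by norm_num)]
    linarith
  have e5 : (N : ℝ) = Real.exp L := (Real.exp_log hN0).symm
  calc ((3 * N : ℕ) : ℝ) ^ (1 - 1 / 16 : ℝ) *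
        Real.exp (((⌈L ^ 8⌉₊ : ℕ) : ℝ) ^ (1 / 16 : ℝ) / (1 / 16))
      ≤ (3 * Real.exp (L * (15 / 16))) * Real.exp (L / 64) :=
        mul_le_mul e1 (Real.exp_le_exp.2 e4) (Real.exp_pos _).le (by positivity)
    _ ≤ N / L ^ 8 := by
        rw [le_div_iff₀ (by positivity), e5]
        calc 3 * Real.exp (L * (15 / 16)) * Real.exp (L / 64) * L ^ 8
            = (3 * L ^ 8) * (Real.exp (L * (15 / 16)) * Real.exp (L / 64)) := by ring
          _ ≤ Real.exp (L / 64) * (Real.exp (L * (15 / 16)) * Real.exp (L / 64)) :=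
              mul_le_mul_of_nonneg_right h1 (by positivity)
          _ = Real.exp (L / 64 + (L * (15 / 16) + L / 64)) := by
              rw [← Real.exp_add, ← Real.exp_add]
          _ ≤ Real.exp L := Real.exp_le_exp.2 (by linarith)

/-- **Pairs with the same largest prime factor.** -/
theorem sum_UU (ε : ℝ) (hε : 0 < ε) : ∀ᶠ N : ℕ in atTop, ∀ h : ℕ, (N : ℝ) ^ ε ≤ h → h ≤ N →
    (∑ x ∈ Ico N (2 * N), ((UU (Iw x h) (Iw x h)).card : ℝ) ≤ 3 * N * (h : ℝ) ^ 2 / Real.log N ^ 8) ∧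
    (∑ x ∈ Ico N (2 * N), ∑ y ∈ Ico N (2 * N), ((UU (Iw x h) (Iw y h)).card : ℝ) ≤
      3 * (N : ℝ) ^ 2 * (h : ℝ) ^ 2 / Real.log N ^ 8) := by
  have t1 : ∀ᶠ N : ℕ in atTop, Real.log N ^ 8 ≤ (N : ℝ) ^ ε := by
    have h1 := (isLittleO_log_rpow_rpow_atTop 8 hε).bound (by norm_num : (0 : ℝ) < 1)
    have h2 := tendsto_natCast_atTop_atTop.eventually h1
    filter_upwards [h2, eventually_ge_atTop 1] with N h3 h4
    have hN : (1 : ℝ) ≤ N := by exact_mod_cast h4
    rw [one_mul, Real.norm_eq_abs, Real.norm_eq_abs, abs_of_nonneg (by positivity : 0 ≤ (N : ℝ) ^ ε)]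
      at h3
    have h5 : Real.log N ^ (8 : ℝ) = Real.log N ^ 8 := by
      rw [show (8 : ℝ) = ((8 : ℕ) : ℝ) by norm_num, Real.rpow_natCast]
    rw [h5] at h3
    exact (le_abs_self _).trans h3
  have t2 : Tendsto (fun N : ℕ => Real.log N) atTop atTop :=
    Real.tendsto_log_atTop.comp tendsto_natCast_atTop_atTop
  filter_upwards [t1, sm_small, eventually_ge_atTop 1, t2.eventually (eventually_ge_atTop 1)]
    with N h1 h2 h3 h4 h h5 h6
  have hNR : (1 : ℝ) ≤ N := by exact_mod_cast h3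
  have hN0 : (0 : ℝ) < N := by linarith
  set L := Real.log N with hL
  have hL8 : (0 : ℝ) < L ^ 8 := by positivity
  set y0 := ⌈L ^ 8⌉₊ with hy0
  have hy1 : 1 ≤ y0 := Nat.one_le_ceil_iff.2 hL8
  have hyR : L ^ 8 ≤ y0 := Nat.le_ceil _
  have hyp : (0 : ℝ) < y0 := lt_of_lt_of_le hL8 hyR
  have hh0 : (0 : ℝ) ≤ h := Nat.cast_nonneg _
  have hb : ∀ x ∈ Ico N (2 * N), ∀ y, ((UU (Iw x h) (Iw y h)).card : ℝ) ≤
      (sm (Iw x h) y0).card * h + 2 * (h : ℝ) ^ 2 / L ^ 8 := by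
    intro x hx y
    have a1 := card_UU x y h y0 hy1
    have a2 : ((UU (Iw x h) (Iw y h)).card : ℝ) ≤
        (sm (Iw x h) y0).card * h + h * (((h / y0 : ℕ) : ℝ) + 1) := by exact_mod_cast a1
    refine a2.trans (add_le_add_right ?_ _)
    have a3 : ((h / y0 : ℕ) : ℝ) ≤ h / L ^ 8 :=
      (Nat.cast_div_le).trans (div_le_div_of_nonneg_left hh0 hL8 hyR)
    have a4 : (1 : ℝ) ≤ h / L ^ 8 := by
      rw [le_div_iff₀ hL8, one_mul]
      exact h1.trans h5
    calc (h : ℝ) * (((h / y0 : ℕ) : ℝ) + 1) ≤ h * (h / L ^ 8 + h / L ^ 8) :=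
          mul_le_mul_of_nonneg_left (add_le_add a3 a4) hh0
      _ = 2 * (h : ℝ) ^ 2 / L ^ 8 := by ring
  have hs : ∑ x ∈ Ico N (2 * N), ((sm (Iw x h) y0).card : ℝ) ≤ h * (N / L ^ 8) := by
    have a1 := sum_sm N h y0 h6
    have a2 : ∑ x ∈ Ico N (2 * N), ((sm (Iw x h) y0).card : ℝ) ≤
        h * ((sm (Icc 1 (3 * N)) y0).card : ℝ) := by exact_mod_cast a1
    exact a2.trans (mul_le_mul_of_nonneg_left h2 hh0)
  have hcard : ((Ico N (2 * N)).card : ℝ) = N := by
    rw [Nat.card_Ico]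
    congr 1
    omega
  have one : ∑ x ∈ Ico N (2 * N), (((sm (Iw x h) y0).card : ℝ) * h + 2 * (h : ℝ) ^ 2 / L ^ 8) ≤
      3 * N * (h : ℝ) ^ 2 / L ^ 8 := by
    rw [sum_add_distrib, ← sum_mul, sum_const, nsmul_eq_mul, hcard]
    calc (∑ x ∈ Ico N (2 * N), ((sm (Iw x h) y0).card : ℝ)) * h + N * (2 * (h : ℝ) ^ 2 / L ^ 8)
        ≤ (h * (N / L ^ 8)) * h + N * (2 * (h : ℝ) ^ 2 / L ^ 8) :=
          add_le_add_left (mul_le_mul_of_nonneg_right hs hh0) _
      _ = 3 * N * (h : ℝ) ^ 2 / L ^ 8 := by ring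
  constructor
  · exact (sum_le_sum fun x hx => hb x hx x).trans one
  · calc ∑ x ∈ Ico N (2 * N), ∑ y ∈ Ico N (2 * N), ((UU (Iw x h) (Iw y h)).card : ℝ)
        ≤ ∑ x ∈ Ico N (2 * N), ∑ _y ∈ Ico N (2 * N),
            (((sm (Iw x h) y0).card : ℝ) * h + 2 * (h : ℝ) ^ 2 / L ^ 8) :=
          sum_le_sum fun x hx => sum_le_sum fun y _ => hb x hx y
      _ = N * ∑ x ∈ Ico N (2 * N), (((sm (Iw x h) y0).card : ℝ) * h + 2 * (h : ℝ) ^ 2 / L ^ 8) := by
          rw [mul_sum]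
          refine sum_congr rfl fun x _ => ?_
          rw [sum_const, nsmul_eq_mul, hcard]
      _ ≤ N * (3 * N * (h : ℝ) ^ 2 / L ^ 8) := mul_le_mul_of_nonneg_left one hN0.le
      _ = 3 * (N : ℝ) ^ 2 * (h : ℝ) ^ 2 / L ^ 8 := by ring

end Pool.Agent.Q163.CL
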